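import Pool.Agent.N922.PJ

/-!
# Consequences
-/

set_option autoImplicit false
set_option linter.unusedSectionVars false

attribute [-instance] DivisionRing.toRatAlgebra

open NumberField IsDedekindDomain

namespace Pool.Agent.N922

open WeierstrassCurve

open Pool.Agent.Y682

open Pool.Agent.TH841.NF

/-- a group of exponent a power of two without elements of order two -/
lemma trivial_of_two {G : Type} [AddCommGroup G] (hN : ∀ x : G, ∃ m : ℕ, 2 ^ m • x = 0)
    (hf : Finite {x : G // 2 • x = 0}) (h2 : Nat.card {x : G // 2 • x = 0} ≤ 1) (x : G) : x = 0 := by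
  have h3 : ∀ x : G, 2 • x = 0 → x = 0 := by
    intro x hx
    have := Finite.card_le_one_iff_subsingleton.1 h2
    exact congrArg Subtype.val (Subsingleton.elim (⟨x, hx⟩ : {x : G // 2 • x = 0})
      ⟨0, smul_zero _⟩)
  have h4 : ∀ m : ℕ, ∀ x : G, 2 ^ m • x = 0 → x = 0 := by
    intro m
    induction m with
    | zero => intro x hx; simpa using hx
    | succ m ih =>
      intro x hx
      rw [pow_succ', mul_smul] at hx
      exact ih x (h3 _ hx)
  obtain ⟨m, hm⟩ := hN x
  exact h4 m x hm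

/-- the primes dividing a nonzero integer -/
lemma finite_dvd {F : Type} [Field F] [NumberField F] {m : ℤ} (hm : m ≠ 0) :
    {v : HeightOneSpectrum (𝓞 F) | (m : 𝓞 F) ∈ v.asIdeal}.Finite := by
  have h0 : Ideal.span {(m : 𝓞 F)} ≠ ⊥ := by
    rw [Ne, Ideal.span_singleton_eq_bot]
    exact_mod_cast hm
  refine (Ideal.finite_factors h0).subset fun v hv => ?_
  exact Ideal.dvd_span_singleton.2 hv

/-- the primes dividing `m` that are not the only ones above their prime number -/
def XS (F : Type) [Field F] [NumberField F] (m : ℤ) : Set (HeightOneSpectrum (𝓞 F)) :=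
  {v | (m : 𝓞 F) ∈ v.asIdeal ∧ ¬ Un v}

lemma XS_finite {F : Type} [Field F] [NumberField F] {m : ℤ} (hm : m ≠ 0) :
    (XS F m).Finite := (finite_dvd hm).subset fun _ hv => hv.1

lemma odd_notMem {F : Type} [Field F] [NumberField F] {m : ℤ} (hm : m % 2 = 1)
    {v : HeightOneSpectrum (𝓞 F)} (hv : (m : 𝓞 F) ∈ v.asIdeal) : (2 : 𝓞 F) ∉ v.asIdeal := by
  intro h2
  apply v.isPrime.ne_top
  rw [Ideal.eq_top_iff_one]
  obtain ⟨k, rfl⟩ : ∃ k : ℤ, m = 1 + 2 * k := ⟨m / 2, by omega⟩
  have e : (1 : 𝓞 F) = ((1 + 2 * k : ℤ) : 𝓞 F) - 2 * (k : 𝓞 F) := by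
    push_cast; ring
  rw [e]
  exact sub_mem hv (v.asIdeal.mul_mem_right _ h2)

section

variable {F : Type} [Field F] [NumberField F] [Algebra ℚ F] {a c : ℤ}

lemma D_odd (ha : a % 4 = 1) : (a ^ 2 - 64 * c) % 2 = 1 := by
  obtain ⟨k, rfl⟩ : ∃ k : ℤ, a = 1 + 4 * k := ⟨a / 4, by omega⟩
  have : (1 + 4 * k) ^ 2 - 64 * c = 2 * (4 * k + 8 * k ^ 2 - 32 * c) + 1 := by ring
  rw [this]
  omega

lemma D_ne (ha : a % 4 = 1) : a ^ 2 ≠ 64 * c := by
  intro h
  have := D_odd (c := c) ha
  rw [h] at this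
  omega

/-- the first type, all the fields of odd degree -/
theorem mainI (ha : a % 4 = 1) (hc : c ≠ 0)
    (hreal : c < 0 ∨ (0 < a ∧ 64 * c < a ^ 2)) (hodd : Odd (Module.finrank ℚ F)) :
    Con3 F (-2 * a) (a ^ 2 - 64 * c) (Units.rank F)
      (Nat.card {g : ClassGroup (𝓞 F) // g ^ 2 = 1}) (Nat.card (XS F (a ^ 2 - 64 * c)))
      (Nat.card (XS F c)) := by
  classical
  have : FiniteDimensional ℚ F := Module.finite_of_finrank_pos hodd.pos
  have hD0 : a ^ 2 - 64 * c ≠ 0 := sub_ne_zero.2 (D_ne ha)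
  have h := typeI' (F := F) ha hc (D_ne ha) hreal hodd
    (TD := (XS_finite (F := F) hD0).toFinset) (TC := (XS_finite (F := F) hc).toFinset)
    (fun v hv => odd_notMem (D_odd ha) ((Set.Finite.mem_toFinset _).1 hv).1)
    (fun v hv => by
      by_cases h1 : Un v
      · exact Or.inl (Or.inl h1)
      · exact Or.inr fun h2 => hv ((Set.Finite.mem_toFinset _).2 ⟨h2, h1⟩))
    (fun v hv => by
      by_cases h1 : Un v
      · exact Or.inl (Or.inl h1)
      · exact Or.inr fun h2 => hv ((Set.Finite.mem_toFinset _).2 ⟨h2, h1⟩))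
  rw [← Set.ncard_eq_toFinset_card _ (XS_finite hD0), ← Set.ncard_eq_toFinset_card _ (XS_finite hc)]
    at h
  exact h

/-- the second type, all the fields of odd degree -/
theorem mainII (ha : a % 4 = 1) (hc : 0 < c)
    (hreal : a < 0 ∨ a ^ 2 < 64 * c) (hodd : Odd (Module.finrank ℚ F)) :
    Con3 F (-2 * a) (a ^ 2 - 64 * c) (InfinitePlace.nrComplexPlaces F)
      (Nat.card {g : NCl F // g ^ 2 = 1}) (Nat.card (XS F (a ^ 2 - 64 * c)))
      (Nat.card (XS F c)) := by
  classical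
  have : FiniteDimensional ℚ F := Module.finite_of_finrank_pos hodd.pos
  have hD0 : a ^ 2 - 64 * c ≠ 0 := sub_ne_zero.2 (D_ne ha)
  have h := typeII' (F := F) ha hc (D_ne ha) hreal hodd
    (TD := (XS_finite (F := F) hD0).toFinset) (TC := (XS_finite (F := F) hc.ne').toFinset)
    (fun v hv => odd_notMem (D_odd ha) ((Set.Finite.mem_toFinset _).1 hv).1)
    (fun v hv => by
      by_cases h1 : Un v
      · exact Or.inl (Or.inl h1)
      · exact Or.inr fun h2 => hv ((Set.Finite.mem_toFinset _).2 ⟨h2, h1⟩))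
    (fun v hv => by
      by_cases h1 : Un v
      · exact Or.inl (Or.inl h1)
      · exact Or.inr fun h2 => hv ((Set.Finite.mem_toFinset _).2 ⟨h2, h1⟩))
  rw [← Set.ncard_eq_toFinset_card _ (XS_finite hD0),
    ← Set.ncard_eq_toFinset_card _ (XS_finite hc.ne')] at h
  exact h

end

end Pool.Agent.N922
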