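import Pool.Agent.N922.Q5

/-!
# Curves over a general number field: statements
-/

set_option autoImplicit false
set_option linter.unusedSectionVars false

attribute [-instance] DivisionRing.toRatAlgebra

open NumberField IsDedekindDomain nonZeroDivisors

namespace Pool.Agent.N922.Q

open WeierstrassCurve

open Pool.Agent.TH841.NF

open Pool.Agent.Y682

section

variable {F : Type} [Field F] [NumberField F] [Algebra ℚ F] [FiniteDimensional ℚ F] {a c : 𝓞 F}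

lemma rI_zero (hII : ∀ φ : F →+* ℝ, ¬ TI a c φ) : rI a c = 0 := by
  have : IsEmpty {φ : F →+* ℝ // TI a c φ} := ⟨fun φ => hII φ.1 φ.2⟩
  exact Nat.card_of_isEmpty

lemma card_S'' (hII : ∀ φ : F →+* ℝ, ¬ TI a c φ) :
    Nat.card (((EV F) ⊓ PII a c).map (QuotientGroup.mk' (Sq F))) =
      2 ^ (rI a c + InfinitePlace.nrComplexPlaces F) * Nat.card (tw (NCl F)) := by
  have e : (EV F) ⊓ PII a c = H0 F := by
    ext b
    exact ⟨fun h => ⟨fun φ => h.2 φ (hII φ), h.1⟩, fun h => ⟨h.2, fun φ _ => h.1 φ⟩⟩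
  rw [e, rI_zero hII, zero_add, card_H0]

/-- **the lower bound in the second case** -/
theorem mainK2 {s k : 𝓞 F} (ha : a = s ^ 2 + 4 * k) (hc : c ≠ 0) (hD : a ^ 2 - 64 * c ≠ 0)
    (ha2 : ∀ v : HeightOneSpectrum (𝓞 F), (2 : 𝓞 F) ∈ v.asIdeal → a ∉ v.asIdeal)
    (hII : ∀ φ : F →+* ℝ, ¬ TI a c φ) {t : ℕ}
    (ht : t = Nat.card {v : HeightOneSpectrum (𝓞 F) | (a ^ 2 - 64 * c : 𝓞 F) ∈ v.asIdeal}) :
    2 ^ (rI a c + InfinitePlace.nrComplexPlaces F) * Nat.card {g : NCl F // g ^ 2 = 1} ≤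
      2 ^ (Pool.Agent.TH841.NF.D.rk (cv a c) + 2 + t) *
        Nat.card {x : Pool.Agent.TH841.NF.D.Sha (cv a c) // 2 • x = 0} := by
  obtain ⟨⟨hZ, hZu⟩, -⟩ := upperK ha hc hD ha2
  have hlow := lowerK ha hc hD ha2
  rw [← ht] at hlow
  have u1 := Zc_upper (isT_cv hc hD)
  have s1 := card_S'' (a := a) (c := c) hII
  have e0 : Nat.card {g : NCl F // g ^ 2 = 1} = Nat.card (tw (NCl F)) := rfl
  rw [e0, ← s1]
  calc Nat.card (((EV F) ⊓ PII a c).map (QuotientGroup.mk' (Sq F)))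
      ≤ 2 ^ t * Nat.card (Zc (cv a c)) := hlow
    _ ≤ 2 ^ t * (4 * 2 ^ (Pool.Agent.TH841.NF.D.rk (cv a c)) *
        Nat.card {x : Pool.Agent.TH841.NF.D.Sha (cv a c) // 2 • x = 0}) :=
        Nat.mul_le_mul_left _ u1
    _ = _ := by
        rw [pow_add, pow_add]
        ring

end

end Pool.Agent.N922.Q
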