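import Mathlib

/-!
# A nonsquare abscissa on a conic over a finite field
-/

set_option autoImplicit false

namespace Pool.Agent.N922

section

variable {k : Type} [Field k] [Finite k]

/-- at least half of the nonzero elements are nonsquares -/
lemma card_units_le (h2 : (2 : k) ≠ 0) :
    Nat.card kˣ ≤ 2 * Nat.card {x : k // ¬ IsSquare x} := by
  classical
  have : Fintype k := Fintype.ofFinite k
  have hchar : ringChar k ≠ 2 := by
    intro h
    apply h2
    have := CharP.cast_eq_zero k (ringChar k)
    rw [h] at this
    exact_mod_cast this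
  obtain ⟨n, hn⟩ := FiniteField.exists_nonsquare hchar
  have hn0 : n ≠ 0 := by rintro rfl; exact hn IsSquare.zero
  have hns : ∀ x : k, IsSquare x → x ≠ 0 → ¬ IsSquare (n * x) := by
    intro x hx hx0 h
    apply hn
    have h3 : IsSquare (n * x / x) := h.div hx
    rwa [mul_div_cancel_right₀ _ hx0] at h3
  let f : kˣ → {x : k // ¬ IsSquare x} × Bool := fun t =>
    if h : IsSquare (t : k) then (⟨n * t, hns _ h t.ne_zero⟩, true) else (⟨t, h⟩, false)
  have hf : Function.Injective f := by
    intro s t h
    by_cases hs : IsSquare (s : k) <;> by_cases ht : IsSquare (t : k)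
    · simp only [f, dif_pos hs, dif_pos ht, Prod.mk.injEq, Subtype.mk.injEq, and_true] at h
      exact Units.ext (mul_left_cancel₀ hn0 h)
    · simp only [f, dif_pos hs, dif_neg ht, Prod.mk.injEq] at h
      exact absurd h.2 (by decide)
    · simp only [f, dif_neg hs, dif_pos ht, Prod.mk.injEq] at h
      exact absurd h.2 (by decide)
    · simp only [f, dif_neg hs, dif_neg ht, Prod.mk.injEq, Subtype.mk.injEq, and_true] at h
      exact Units.ext h
  have := Nat.card_le_card_of_injective f hf
  rw [Nat.card_prod, Nat.card_eq_fintype_card (α := Bool), Fintype.card_bool] at this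
  omega

/-- **a nonsquare `x` such that `x² + a x + b` is zero or a nonsquare**, if `b` is a square -/
theorem exists_nonsq (h2 : (2 : k) ≠ 0) {a b : k} (hb : b ≠ 0) (hsb : IsSquare b)
    (hD : a ^ 2 - 4 * b ≠ 0) :
    ∃ x : k, ¬ IsSquare x ∧ (x ^ 2 + a * x + b = 0 ∨ ¬ IsSquare (x ^ 2 + a * x + b)) := by
  classical
  obtain ⟨c, rfl⟩ : ∃ c, a = 2 * c := ⟨a / 2, by field_simp⟩
  by_contra hcon
  push Not at hcon
  let X : Type := Option {x : k // ¬ IsSquare x}
  let ab : X → k := fun o => o.elim 0 (fun x => x.1)
  have hab : Function.Injective ab := by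
    intro s t h
    rcases s with _ | s <;> rcases t with _ | t
    · rfl
    · exfalso
      have h' : (0 : k) = t.1 := h
      exact t.2 (h' ▸ IsSquare.zero)
    · exfalso
      have h' : s.1 = (0 : k) := h
      exact s.2 (h'.symm ▸ IsSquare.zero)
    · have h' : s.1 = t.1 := h
      rw [Subtype.ext h']
  have hval : ∀ s : X, ∃ y : k, y ≠ 0 ∧ y ^ 2 = (ab s) ^ 2 + 2 * c * (ab s) + b := by
    intro s
    rcases s with _ | s
    · obtain ⟨y, hy⟩ := hsb
      refine ⟨y, ?_, ?_⟩
      · rintro rfl
        exact hb (by rw [hy, mul_zero])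
      · change y ^ 2 = (0 : k) ^ 2 + 2 * c * 0 + b
        rw [hy]; ring
    · obtain ⟨h0, y, hy⟩ := hcon s.1 s.2
      refine ⟨y, ?_, ?_⟩
      · rintro rfl
        exact h0 (by rw [hy, mul_zero])
      · change y ^ 2 = s.1 ^ 2 + 2 * c * s.1 + b
        rw [hy]; ring
  choose y hy0 hy using hval
  let ε : Bool → k := fun t => if t then 1 else -1
  have hε : ∀ t, ε t ^ 2 = 1 := by intro t; cases t <;> simp [ε]
  have hκ : b - c ^ 2 ≠ 0 := by
    intro h
    apply hD
    linear_combination -4 * h
  have hprod : ∀ (s : X) (t : Bool), (ε t * y s - ab s - c) * (ε t * y s + ab s + c) =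
      b - c ^ 2 := by
    intro s t
    linear_combination (y s) ^ 2 * hε t + hy s
  have hne : ∀ (s : X) (t : Bool), ε t * y s - ab s - c ≠ 0 := by
    intro s t h
    have := hprod s t
    rw [h, zero_mul] at this
    exact hκ this.symm
  let Φ : X × Bool → kˣ := fun z => Units.mk0 _ (hne z.1 z.2)
  have hΦ : Function.Injective Φ := by
    rintro ⟨s, t⟩ ⟨s', t'⟩ h
    have h1 : ε t * y s - ab s - c = ε t' * y s' - ab s' - c := congrArg Units.val h
    have h3 : ε t * y s + ab s + c = ε t' * y s' + ab s' + c := by
      apply mul_left_cancel₀ (hne s t)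
      rw [hprod s t, h1, hprod s' t']
    have h4 : ab s = ab s' := by
      apply mul_left_cancel₀ h2
      linear_combination h3 - h1
    have hs : s = s' := hab h4
    subst hs
    have h5 : ε t * y s = ε t' * y s := by linear_combination h1
    have h6 : ε t = ε t' := mul_right_cancel₀ (hy0 s) h5
    have h7 : t = t' := by
      have h11 : (1 : k) ≠ -1 := by
        intro h
        apply h2
        linear_combination h
      cases t <;> cases t'
      · rfl
      · exact absurd h6.symm h11
      · exact absurd h6 h11
      · rfl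
    rw [h7]
  have h1 := Nat.card_le_card_of_injective Φ hΦ
  have h3 := card_units_le (k := k) h2
  rw [Nat.card_prod, Nat.card_eq_fintype_card (α := Bool), Fintype.card_bool] at h1
  have h4 : Nat.card X = Nat.card {x : k // ¬ IsSquare x} + 1 := Finite.card_option
  omega

end

end Pool.Agent.N922
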