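import Pool.Agent.R432.CX4
import Pool.Agent.N922.P1

/-!
# Local solubility for the classes with even valuations
-/

set_option autoImplicit false
set_option linter.unusedSectionVars false

attribute [-instance] DivisionRing.toRatAlgebra

open NumberField IsDedekindDomain

namespace Pool.Agent.N922

open WeierstrassCurve

open Pool.Agent.TH841.SH.D (Pt act Gal Coch IsCoc IsCob LocTriv cob)

open Pool.Agent.Y682

open Pool.Agent.R432

section rep

variable {F : Type} [Field F] [NumberField F]

/-- an element of even valuation is an integer outside `v` times a square -/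
lemma rep_at (v : HeightOneSpectrum (𝓞 F)) {b : F} (hb : b ≠ 0)
    (h : ∃ n : ℤ, v.valuation F b = WithZero.exp (2 * n)) :
    ∃ (β : 𝓞 F) (y : F), β ∉ v.asIdeal ∧ y ≠ 0 ∧ b = (β : F) * y ^ 2 := by
  obtain ⟨i, hi⟩ := h
  obtain ⟨π, hπ⟩ := v.valuation_exists_uniformizer F
  have hπ0 : π ≠ 0 := by
    rintro rfl
    rw [map_zero] at hπ
    exact WithZero.exp_ne_zero hπ.symm
  have h1 : v.valuation F (b * (π ^ i) ^ 2) = 1 := by
    rw [map_mul, map_pow, map_zpow₀, hi, hπ, ← WithZero.exp_zsmul, ← WithZero.exp_nsmul,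
      ← WithZero.exp_add, ← WithZero.exp_zero]
    congr 1
    simp only [nsmul_eq_mul, smul_eq_mul]
    push_cast
    ring
  obtain ⟨n, d, hd, hnd⟩ := Pool.Agent.TeamU.exists_den v _ h1.le
  have hd1 : v.valuation F (d : F) = 1 :=
    (HeightOneSpectrum.valuation_eq_one_iff_notMem v).2 hd
  have hd0 : (d : F) ≠ 0 := by
    intro h0
    rw [h0, map_zero] at hd1
    exact zero_ne_one hd1
  have hn1 : v.valuation F (n : F) = 1 := by
    rw [← hnd, map_mul, h1, one_mul, hd1]
  have hn : n ∉ v.asIdeal := (HeightOneSpectrum.valuation_eq_one_iff_notMem v).1 hn1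
  have hπi : π ^ i ≠ 0 := zpow_ne_zero i hπ0
  refine ⟨n * d, ((d : F) * π ^ i)⁻¹, fun h => ?_, inv_ne_zero (mul_ne_zero hd0 hπi), ?_⟩
  · rcases v.isPrime.mem_or_mem h with h | h
    · exact hn h
    · exact hd h
  · have e : ((n * d : 𝓞 F) : F) = (n : F) * (d : F) := map_mul (algebraMap (𝓞 F) F) _ _
    rw [e, ← hnd]
    field_simp

end rep

section loc

variable {F : Type} [Field F] [NumberField F] [Algebra ℚ F] {a c : ℤ}

/-- the complex places -/
lemma loc_cpx {A B : ℤ} {hT : IsT (gc A B F) (A : F) (B : F)} (b : F) {v : InfinitePlace F}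
    (hv : v.IsComplex) : LocTriv _ v.Completion (fb hT b) := by
  let θ := InfinitePlace.Completion.ringEquivComplexOfIsComplex hv
  obtain ⟨z, hz⟩ := IsAlgClosed.exists_pow_nat_eq (θ (algebraMap F v.Completion b)) (n := 2) two_pos
  refine fb_loc_sq hT (z := θ.symm z) ?_
  apply θ.injective
  rw [map_pow, RingEquiv.apply_symm_apply, hz]

/-- the real places where `b` is positive -/
lemma loc_pos {A B : ℤ} {hT : IsT (gc A B F) (A : F) (B : F)} {b : F} (v : InfinitePlace F)
    (hb : TotPos b) : LocTriv _ v.Completion (fb hT b) := by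
  by_cases hv : v.IsReal
  · let θ := InfinitePlace.Completion.ringEquivRealOfIsReal hv
    have h : 0 < θ (algebraMap F v.Completion b) :=
      hb ((θ : v.Completion →+* ℝ).comp (algebraMap F v.Completion))
    refine fb_loc_sq hT (z := θ.symm (Real.sqrt (θ (algebraMap F v.Completion b)))) ?_
    apply θ.injective
    rw [map_pow, RingEquiv.apply_symm_apply, Real.sq_sqrt h.le]
  · exact loc_cpx b (InfinitePlace.not_isReal_iff_isComplex.1 hv)

/-- the archimedean places for the curves of the first type -/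
lemma loc_inf {hT : IsT (gc (-2 * a) (a ^ 2 - 64 * c) F) ((-2 * a : ℤ) : F)
      ((a ^ 2 - 64 * c : ℤ) : F)} {b : F} (hb : b ≠ 0)
    (hac : c < 0 ∨ (0 < a ∧ 64 * c < a ^ 2)) (v : InfinitePlace F) :
    LocTriv _ v.Completion (fb hT b) := by
  by_cases hv : v.IsReal
  swap
  · exact loc_cpx b (InfinitePlace.not_isReal_iff_isComplex.1 hv)
  let θ := InfinitePlace.Completion.ringEquivRealOfIsReal hv
  have := charZero_inf v
  obtain ⟨t, ht⟩ : ∃ t : ℝ, t = θ (algebraMap F v.Completion b) := ⟨_, rfl⟩
  have ht0 : t ≠ 0 := by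
    rw [ht]
    exact (map_ne_zero θ).2 ((map_ne_zero _).2 hb)
  rcases lt_or_gt_of_ne ht0 with h | h
  · -- a negative abscissa
    obtain ⟨X, hX, hX2⟩ : ∃ X : ℝ, X < 0 ∧ X ^ 2 + a * X + 16 * c ≤ 0 := by
      by_cases ha : 0 < a
      · have ha' : (0 : ℝ) < a := by exact_mod_cast ha
        refine ⟨-(a : ℝ) / 2, by linarith, ?_⟩
        have h1 : (64 : ℝ) * c < (a : ℝ) ^ 2 := by
          rcases hac with h1 | h1
          · have : (c : ℝ) < 0 := by exact_mod_cast h1
            nlinarith
          · exact_mod_cast h1.2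
        nlinarith
      · have hc : c < 0 := by
          rcases hac with h1 | h1
          · exact h1
          · exact absurd h1.1 ha
        have hc' : (c : ℝ) ≤ -1 := by exact_mod_cast (by omega : c ≤ -1)
        have ha' : (a : ℝ) ≤ 0 := by exact_mod_cast (not_lt.1 ha)
        have h1a : (0 : ℝ) < 1 - a := by linarith
        refine ⟨-(1 / (1 - (a : ℝ))), by
          have : 0 < 1 / (1 - (a : ℝ)) := by positivity
          linarith, ?_⟩
        have h1 : 1 / (1 - (a : ℝ)) ≤ 1 := by
          rw [div_le_one h1a]; linarith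
        have h2 : 0 < 1 / (1 - (a : ℝ)) := by positivity
        have h3 : (1 - (a : ℝ)) * (1 / (1 - (a : ℝ))) = 1 := by
          field_simp
        nlinarith
    have h1 : 0 < X / t := div_pos_of_neg_of_neg hX h
    have h2 : θ.symm (Real.sqrt (X / t)) ^ 2 * algebraMap F v.Completion b = θ.symm X := by
      apply θ.injective
      rw [map_mul, map_pow, RingEquiv.apply_symm_apply, Real.sq_sqrt h1.le, ← ht,
        RingEquiv.apply_symm_apply]
      exact div_mul_cancel₀ _ ht0
    have h5 : 0 ≤ X * (X ^ 2 + a * X + 16 * c) := mul_nonneg_of_nonpos_of_nonpos hX.le hX2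
    refine loc_pt' (s := θ.symm (Real.sqrt (X / t)))
      (Y := θ.symm (Real.sqrt (X * (X ^ 2 + a * X + 16 * c)))) hb ?_ ?_
    · rw [Ne, map_eq_zero]
      exact (Real.sqrt_pos.2 h1).ne'
    · have h3 : algebraMap F v.Completion b * θ.symm (Real.sqrt (X / t)) ^ 2 = θ.symm X := by
        rw [mul_comm]; exact h2
      rw [h3]
      apply θ.injective
      simp only [map_pow, map_mul, map_add, RingEquiv.apply_symm_apply, map_intCast, map_ofNat]
      rw [Real.sq_sqrt h5]
  · refine fb_loc_sq hT (z := θ.symm (Real.sqrt t)) ?_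
    apply θ.injective
    rw [map_pow, RingEquiv.apply_symm_apply, Real.sq_sqrt h.le, ht]

end loc

end Pool.Agent.N922
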