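import Pool.Agent.N922.P2

/-!
# Local solubility at the finite places
-/

set_option autoImplicit false
set_option linter.unusedSectionVars false

attribute [-instance] DivisionRing.toRatAlgebra

open NumberField IsDedekindDomain

namespace Pool.Agent.N922

open WeierstrassCurve

open Pool.Agent.TH841.SH.D (Pt act Gal Coch IsCoc IsCob LocTriv cob)

open Pool.Agent.Y682

open Pool.Agent.R432

section loc

variable {F : Type} [Field F] [NumberField F] [Algebra ℚ F] {a c : ℤ}
  {hT : IsT (gc (-2 * a) (a ^ 2 - 64 * c) F) ((-2 * a : ℤ) : F) ((a ^ 2 - 64 * c : ℤ) : F)}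
  {v : HeightOneSpectrum (𝓞 F)}

lemma vv_out {x : 𝓞 F} (hx : x ∉ v.asIdeal) : vv v (algebraMap F _ (x : F)) = 1 := by
  rw [vv_coe]
  exact (HeightOneSpectrum.valuation_eq_one_iff_notMem v).2 hx

lemma vv_in {x : 𝓞 F} (hx : x ∈ v.asIdeal) : vv v (algebraMap F _ (x : F)) < 1 := by
  rw [vv_coe]
  exact (HeightOneSpectrum.valuation_lt_one_iff_mem v x).2 hx

lemma vv_int (n : ℤ) : vv v (n : v.adicCompletion F) ≤ 1 := by
  have h7 : (n : v.adicCompletion F) = algebraMap F _ ((n : ℤ) : F) := by rw [map_intCast]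
  rw [h7, vv_coe]
  exact val_int_le v n

lemma ne_of_out {β : 𝓞 F} (hβ : β ∉ v.asIdeal) : (β : F) ≠ 0 := by
  have : β ≠ 0 := by rintro rfl; exact hβ v.asIdeal.zero_mem
  exact_mod_cast this

/-- the places over two -/
lemma loc_two (ha : a % 4 = 1) {β : 𝓞 F} (huv : β ∉ v.asIdeal) (h2 : (2 : 𝓞 F) ∈ v.asIdeal) :
    LocTriv _ (v.adicCompletion F) (fb hT (β : F)) := by
  have hcz := charZero_adic v
  have hvp := v.isPrime
  have hmax : v.asIdeal.IsMaximal := v.isMaximal
  let _ : Field (𝓞 F ⧸ v.asIdeal) := Ideal.Quotient.field v.asIdeal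
  have hfin : Finite (𝓞 F ⧸ v.asIdeal) := Ideal.finiteQuotientOfFreeOfNeBot v.asIdeal v.ne_bot
  have hchar : CharP (𝓞 F ⧸ v.asIdeal) 2 := by
    apply CharTwo.of_one_ne_zero_of_two_eq_zero one_ne_zero
    have := (Ideal.Quotient.eq_zero_iff_mem (I := v.asIdeal)).2 h2
    rwa [map_ofNat] at this
  have hu0 : (β : F) ≠ 0 := ne_of_out huv
  -- a square root modulo `v`
  obtain ⟨z', hz'⟩ : IsSquare ((Ideal.Quotient.mk v.asIdeal) β) :=
    FiniteField.isSquare_of_char_two (CharP.ringChar_of_prime_eq_zero Nat.prime_two (by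
      have := CharP.cast_eq_zero (𝓞 F ⧸ v.asIdeal) 2
      exact_mod_cast this)) _
  obtain ⟨z, rfl⟩ := Ideal.Quotient.mk_surjective z'
  have h5 : β - z ^ 2 ∈ v.asIdeal := by
    rw [← Ideal.Quotient.eq_zero_iff_mem, map_sub, hz', map_pow]
    ring
  have hzv : z ∉ v.asIdeal := by
    intro hz
    apply huv
    have e : β = (β - z ^ 2) + z * z := by ring
    rw [e]
    exact add_mem h5 (v.asIdeal.mul_mem_right _ hz)
  obtain ⟨k, hk⟩ : ∃ k : ℤ, a = 1 + 4 * k := ⟨a / 4, by omega⟩
  obtain ⟨b, hb⟩ : ∃ b : v.adicCompletion F, b = algebraMap F _ (β : F) := ⟨_, rfl⟩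
  have hβ1 : vv v b = 1 := by rw [hb]; exact vv_out huv
  have hβ0 : b ≠ 0 := by
    rintro h
    rw [h, map_zero] at hβ1
    exact zero_ne_one hβ1
  obtain ⟨w, hw⟩ := hensel2 v (z := algebraMap F _ (z : F)) (k := (k : v.adicCompletion F))
    (g := (c : v.adicCompletion F) / b) (β := b) (vv_out hzv) (vv_int k)
    (by rw [map_div₀, hβ1, div_one]; exact vv_int c) (by
      have h9 : b - (algebraMap F (v.adicCompletion F) (z : F)) ^ 2 =
          algebraMap F _ ((β - z ^ 2 : 𝓞 F) : F) := by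
        rw [hb, cast_iv, cast_iv, cast_iv, map_sub, map_pow]
      rw [h9]
      exact vv_in h5)
  by_cases hw0 : w = 0
  · refine fb_loc_sq hT (z := algebraMap F _ (z : F)) ?_
    rw [← hb, ← hw, hw0]
    ring
  · obtain ⟨ζ, hζ⟩ : ∃ ζ : v.adicCompletion F, ζ = algebraMap F _ (z : F) := ⟨_, rfl⟩
    rw [← hζ] at hw
    refine loc_pt' (s := 2 / w) (Y := 4 * b * (w + 2 * ζ) / w ^ 3) hu0
      (div_ne_zero two_ne_zero hw0) ?_
    rw [← hb]
    have hka : (a : v.adicCompletion F) = 1 + 4 * (k : v.adicCompletion F) := by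
      rw [hk]; push_cast; ring
    have hw' : b * (ζ ^ 2 + ζ * w - k * w ^ 2) - c * w ^ 4 = b * b := by
      have h10 : (c : v.adicCompletion F) / b * b = c := div_mul_cancel₀ _ hβ0
      linear_combination b * hw + w ^ 4 * h10
    clear hw
    rw [hka]
    field_simp
    linear_combination 64 * hw'

lemma vv_four (h2 : (2 : 𝓞 F) ∉ v.asIdeal) : vv v (4 : v.adicCompletion F) = 1 := by
  have h21 : vv v 2 = 1 := by
    have := vv_out h2
    rwa [cast_iv, map_ofNat] at this
  rw [w_four, h21, one_mul]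

/-- the class of the point of order two of the isogenous curve -/
lemma loc_tors (h2 : (2 : 𝓞 F) ∉ v.asIdeal) {b : F} (hb : b ≠ 0) (hc : c ≠ 0)
    {t : v.adicCompletion F} (ht : t ^ 2 = 16 * (c : v.adicCompletion F) * algebraMap F _ b) :
    LocTriv _ (v.adicCompletion F) (fb hT b) := by
  have hcz := charZero_adic v
  obtain ⟨w, hw, hw0⟩ := Submodule.exists_mem_ne_zero_of_ne_bot v.ne_bot
  obtain ⟨W, hW⟩ : ∃ W : v.adicCompletion F, W = algebraMap F _ (w : F) := ⟨_, rfl⟩
  have hW1 : vv v W < 1 := by rw [hW]; exact vv_in hw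
  have hW0 : W ≠ 0 := by
    rw [hW]
    refine (map_ne_zero _).2 ?_
    exact_mod_cast hw0
  have hc0 : (c : v.adicCompletion F) ≠ 0 := by exact_mod_cast hc
  have hb0 : algebraMap F (v.adicCompletion F) b ≠ 0 := (map_ne_zero _).2 hb
  have ht0 : t ≠ 0 := by
    rintro rfl
    rw [zero_pow two_ne_zero] at ht
    exact mul_ne_zero (mul_ne_zero (by norm_num) hc0) hb0 ht.symm
  obtain ⟨r, hr⟩ := exists_sqrt' v (x := 1 + a * W ^ 2 + 16 * c * W ^ 4) (y := 1) one_ne_zero (by
    rw [vv_four h2, map_one, one_pow, one_mul, one_pow]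
    have e : (1 + a * W ^ 2 + 16 * c * W ^ 4 : v.adicCompletion F) - 1 =
        W * (W * (((a : ℤ) : v.adicCompletion F) + ((16 * c : ℤ) : v.adicCompletion F) * W ^ 2)) := by
      push_cast; ring
    rw [e, map_mul]
    refine mul_lt_one_of_nonneg_of_lt_one_left zero_le hW1 ?_
    rw [map_mul]
    refine mul_le_one' hW1.le ((Valuation.map_add _ _ _).trans (max_le (vv_int a) ?_))
    rw [map_mul, map_pow]
    exact mul_le_one' (vv_int _) (pow_le_one' hW1.le 2))
  refine loc_pt' (s := t * W / algebraMap F _ b) (Y := 16 * c * W * r) hb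
    (div_ne_zero (mul_ne_zero ht0 hW0) hb0) ?_
  have e1 : algebraMap F (v.adicCompletion F) b * (t * W / algebraMap F _ b) ^ 2 =
      16 * c * W ^ 2 := by
    rw [div_pow, mul_pow, ht]
    field_simp
  rw [e1, mul_pow, hr]
  ring

/-- a place of good reduction which is not over two -/
lemma loc_good (h2 : (2 : 𝓞 F) ∉ v.asIdeal) (h3 : (c : 𝓞 F) ∉ v.asIdeal)
    (h5 : ((a ^ 2 - 64 * c : ℤ) : 𝓞 F) ∉ v.asIdeal) {β : 𝓞 F} (huv : β ∉ v.asIdeal) :
    LocTriv _ (v.adicCompletion F) (fb hT (β : F)) := by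
  have hcz := charZero_adic v
  have hvp := v.isPrime
  have hmax : v.asIdeal.IsMaximal := v.isMaximal
  let _ : Field (𝓞 F ⧸ v.asIdeal) := Ideal.Quotient.field v.asIdeal
  have hfin : Finite (𝓞 F ⧸ v.asIdeal) := Ideal.finiteQuotientOfFreeOfNeBot v.asIdeal v.ne_bot
  have hu0 : (β : F) ≠ 0 := ne_of_out huv
  have hc0 : c ≠ 0 := by
    rintro rfl
    apply h3
    rw [Int.cast_zero]
    exact v.asIdeal.zero_mem
  set π := Ideal.Quotient.mk v.asIdeal with hπ
  have hne : ∀ x : 𝓞 F, x ∉ v.asIdeal → π x ≠ 0 := fun x hx h =>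
    hx (Ideal.Quotient.eq_zero_iff_mem.1 h)
  have h20 : (2 : 𝓞 F ⧸ v.asIdeal) ≠ 0 := by
    have := hne 2 h2
    rwa [map_ofNat] at this
  -- squares modulo `v` are squares
  have hsq : ∀ x : 𝓞 F, x ∉ v.asIdeal → IsSquare (π x) →
      ∃ t : v.adicCompletion F, t ^ 2 = algebraMap F _ (x : F) := by
    rintro x hx ⟨y', hy'⟩
    obtain ⟨y, rfl⟩ := Ideal.Quotient.mk_surjective y'
    have h6 : x - y ^ 2 ∈ v.asIdeal := by
      rw [← Ideal.Quotient.eq_zero_iff_mem, map_sub, map_pow]
      change π x - _ = 0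
      rw [hy']
      ring
    refine sq_of_res v h2 (fun hy => ?_) h6
    apply hx
    have e : x = (x - y ^ 2) + y * y := by ring
    rw [e]
    exact add_mem h6 (v.asIdeal.mul_mem_right _ hy)
  obtain ⟨b, hb⟩ : ∃ b : v.adicCompletion F, b = algebraMap F _ (β : F) := ⟨_, rfl⟩
  have hb0 : b ≠ 0 := by rw [hb]; exact (map_ne_zero _).2 hu0
  by_cases hus : IsSquare (π β)
  · obtain ⟨t, ht⟩ := hsq _ huv hus
    exact fb_loc_sq hT ht
  by_cases hcs : IsSquare (π (c : 𝓞 F))
  · -- `c` is a square modulo `v`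
    have hB0 : π ((16 * c : ℤ) : 𝓞 F) ≠ 0 := by
      apply hne
      intro h
      push_cast at h
      rcases hvp.mem_or_mem h with h | h
      · have e : (16 : 𝓞 F) = 2 ^ 4 := by norm_num
        rw [e] at h
        exact h2 (hvp.mem_of_pow_mem 4 h)
      · exact h3 h
    have hBs : IsSquare (π ((16 * c : ℤ) : 𝓞 F)) := by
      obtain ⟨r, hr⟩ := hcs
      refine ⟨4 * r, ?_⟩
      rw [Int.cast_mul, map_mul, hr]
      simp only [Int.cast_ofNat, map_ofNat]
      ring
    have hDis : π (a : 𝓞 F) ^ 2 - 4 * π ((16 * c : ℤ) : 𝓞 F) ≠ 0 := by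
      have := hne _ h5
      intro h
      apply this
      rw [← h, ← map_pow]
      have e4 : (4 : 𝓞 F ⧸ v.asIdeal) = π 4 := (map_ofNat π 4).symm
      rw [e4, ← map_mul, ← map_sub]
      congr 1
      push_cast
      ring
    obtain ⟨x', hx', hx2⟩ := exists_nonsq (k := 𝓞 F ⧸ v.asIdeal) h20 (a := π (a : 𝓞 F))
      (b := π ((16 * c : ℤ) : 𝓞 F)) hB0 hBs hDis
    obtain ⟨X, rfl⟩ := Ideal.Quotient.mk_surjective x'
    have hXv : X ∉ v.asIdeal := by
      intro h
      apply hx'
      rw [Ideal.Quotient.eq_zero_iff_mem.2 h]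
      exact IsSquare.zero
    obtain ⟨G, hG⟩ : ∃ G : 𝓞 F, G = X ^ 2 + (a : 𝓞 F) * X + ((16 * c : ℤ) : 𝓞 F) := ⟨_, rfl⟩
    have hGπ : π G = π X ^ 2 + π (a : 𝓞 F) * π X + π ((16 * c : ℤ) : 𝓞 F) := by
      rw [hG, map_add, map_add, map_mul, map_pow]
    rw [← hGπ] at hx2
    obtain ⟨ξ, hξ⟩ : ∃ ξ : v.adicCompletion F, ξ = algebraMap F _ (X : F) := ⟨_, rfl⟩
    have hξ1 : vv v ξ = 1 := by rw [hξ]; exact vv_out hXv
    have h10 : β * X ∉ v.asIdeal := by
      intro h
      rcases hvp.mem_or_mem h with h | h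
      · exact huv h
      · exact hXv h
    obtain ⟨t, ht⟩ := hsq _ h10 (by rw [map_mul]; exact nonsq_mul h20 hus hx')
    have ht' : t ^ 2 = b * ξ := by
      rw [ht, hb, hξ, cast_iv, cast_iv, cast_iv, map_mul]
    have hb1 : vv v b = 1 := by rw [hb]; exact vv_out huv
    rcases hx2 with hx2 | hx2
    · -- a root of the polynomial
      have hGv : G ∈ v.asIdeal := Ideal.Quotient.eq_zero_iff_mem.1 hx2
      obtain ⟨D, hD⟩ : ∃ D : 𝓞 F, D = 2 * X + (a : 𝓞 F) := ⟨_, rfl⟩
      have hDsq : ((a ^ 2 - 64 * c : ℤ) : 𝓞 F) - D ^ 2 ∈ v.asIdeal := by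
        have e : ((a ^ 2 - 64 * c : ℤ) : 𝓞 F) - D ^ 2 = -4 * G := by
          rw [hD, hG]; push_cast; ring
        rw [e]
        exact v.asIdeal.mul_mem_left _ hGv
      have hDv : D ∉ v.asIdeal := by
        intro h
        apply h5
        have e : ((a ^ 2 - 64 * c : ℤ) : 𝓞 F) = (((a ^ 2 - 64 * c : ℤ) : 𝓞 F) - D ^ 2) + D * D := by
          ring
        rw [e]
        exact add_mem hDsq (v.asIdeal.mul_mem_right _ h)
      obtain ⟨δ, hδ⟩ := sq_of_res v h2 hDv hDsq
      obtain ⟨d, hd⟩ : ∃ d : v.adicCompletion F, d = algebraMap F _ (D : F) := ⟨_, rfl⟩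
      have hδ' : δ ^ 2 = (a : v.adicCompletion F) ^ 2 - 64 * c := by
        rw [hδ, cast_iv, map_intCast]; push_cast; ring
      have hd' : d = 2 * ξ + a := by
        rw [hd, hξ, hD, cast_iv, cast_iv, map_add, map_mul, map_ofNat, map_intCast]
      have hd1 : vv v d = 1 := by rw [hd]; exact vv_out hDv
      have hprod : vv v ((δ - d) * (δ + d)) < 1 := by
        have e : (δ - d) * (δ + d) = algebraMap F _ (((((a ^ 2 - 64 * c : ℤ) : 𝓞 F) - D ^ 2 : 𝓞 F)) : F) := by
          rw [cast_iv, map_sub, map_pow, map_intCast, ← cast_iv, ← hd]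
          push_cast
          linear_combination hδ'
        rw [e]
        exact vv_in hDsq
      -- choose the sign
      obtain ⟨δ', hδ1, hδ2⟩ : ∃ δ' : v.adicCompletion F, δ' ^ 2 = (a : v.adicCompletion F) ^ 2 - 64 * c ∧
          vv v (δ' - d) < 1 := by
        by_contra hcon
        push Not at hcon
        have h7 := hcon δ hδ'
        have h8 := hcon (-δ) (by rw [neg_sq, hδ'])
        have e : -δ - d = -(δ + d) := by ring
        rw [e, Valuation.map_neg] at h8
        rw [map_mul] at hprod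
        exact absurd hprod (not_lt.2 (one_le_mul h7 h8))
      obtain ⟨ρ, hρ⟩ : ∃ ρ : v.adicCompletion F, ρ = (δ' - a) / 2 := ⟨_, rfl⟩
      have h21 : vv v (2 : v.adicCompletion F) = 1 := by
        have := vv_out h2
        rwa [cast_iv, map_ofNat] at this
      have hρξ : vv v (ρ - ξ) < 1 := by
        have e : ρ - ξ = (δ' - d) / 2 := by rw [hρ, hd']; ring
        rw [e, map_div₀, h21, div_one]
        exact hδ2
      have hroot : ρ ^ 2 + a * ρ + 16 * c = 0 := by
        rw [hρ]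
        linear_combination (1 / 4 : v.adicCompletion F) * hδ1
      -- `b ρ` is a square
      obtain ⟨τ, hτ⟩ := exists_sqrt' v (x := b * ρ) (y := t) (by
        rintro rfl
        rw [zero_pow two_ne_zero, eq_comm, mul_eq_zero] at ht'
        rcases ht' with h | h
        · exact hb0 h
        · rw [h, map_zero] at hξ1
          exact zero_ne_one hξ1) (by
        have e : b * ρ - t ^ 2 = b * (ρ - ξ) := by rw [ht']; ring
        rw [e, map_mul, hb1, one_mul, vv_four h2, one_mul, ← map_pow, ht', map_mul, hb1, hξ1, one_mul]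
        exact hρξ)
      have hρ0 : ρ ≠ 0 := by
        rintro h
        rw [h, zero_sub, Valuation.map_neg, hξ1] at hρξ
        exact lt_irrefl _ hρξ
      have hτ0 : τ ≠ 0 := by
        rintro rfl
        rw [zero_pow two_ne_zero] at hτ
        exact mul_ne_zero hb0 hρ0 hτ.symm
      refine loc_pt' (s := τ / b) (Y := 0) hu0 (div_ne_zero hτ0 hb0) ?_
      have h11 : algebraMap F (v.adicCompletion F) (β : F) * (τ / b) ^ 2 = ρ := by
        rw [← hb, div_pow, hτ]
        field_simp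
      rw [h11, hroot]
      ring
    · -- not a root
      have h8 : IsSquare (π (X * G)) := by
        rw [map_mul]
        exact nonsq_mul h20 hx' hx2
      have h9 : X * G ∉ v.asIdeal := by
        intro h
        rcases hvp.mem_or_mem h with h | h
        · exact hXv h
        · apply hx2
          rw [Ideal.Quotient.eq_zero_iff_mem.2 h]
          exact IsSquare.zero
      obtain ⟨y, hy⟩ := hsq _ h9 h8
      have hξ0 : ξ ≠ 0 := by
        rintro h
        rw [h, map_zero] at hξ1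
        exact zero_ne_one hξ1
      have ht0 : t ≠ 0 := by
        rintro rfl
        rw [zero_pow two_ne_zero] at ht'
        exact mul_ne_zero hb0 hξ0 ht'.symm
      refine loc_pt' (s := t / b) (Y := y) hu0 (div_ne_zero ht0 hb0) ?_
      have h11 : algebraMap F (v.adicCompletion F) (β : F) * (t / b) ^ 2 = ξ := by
        rw [← hb, div_pow, ht']
        field_simp
      rw [h11, hy, hG, cast_iv, map_mul, map_add, map_add, map_mul, map_pow, map_intCast,
        map_intCast, ← cast_iv, ← hξ]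
      push_cast
      ring
  · -- `c` is not a square modulo `v`
    have h10 : (c : 𝓞 F) * β ∉ v.asIdeal := by
      intro h
      rcases hvp.mem_or_mem h with h | h
      · exact h3 h
      · exact huv h
    obtain ⟨t, ht⟩ := hsq _ h10 (by rw [map_mul]; exact nonsq_mul h20 hcs hus)
    refine loc_tors h2 hu0 hc0 (t := 4 * t) ?_
    rw [mul_pow, ht, cast_iv, map_mul, map_intCast, ← cast_iv]
    ring

end loc

end Pool.Agent.N922
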