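import Pool.Agent.N922.P3

/-!
# Places over which the bad primes do not decompose, and the global statement
-/

set_option autoImplicit false
set_option linter.unusedSectionVars false

attribute [-instance] DivisionRing.toRatAlgebra

open NumberField IsDedekindDomain

namespace Pool.Agent.N922

open WeierstrassCurve

open Pool.Agent.TH841.SH.D (Pt act Gal Coch IsCoc IsCob LocTriv cob)

open Pool.Agent.Y682

open Pool.Agent.R432

section

variable {F : Type} [Field F] [NumberField F] {p : ℕ} [hp : Fact p.Prime]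
  [Algebra ℚ F] [FiniteDimensional ℚ F]

/-- an element outside `v` whose norm is a square is a square modulo `v`, if there is only one
place over `p` -/
lemma unit_sq {v : HeightOneSpectrum (𝓞 F)} (hpv : (p : 𝓞 F) ∈ v.asIdeal)
    (huniq : ∀ w : HeightOneSpectrum (𝓞 F), (p : 𝓞 F) ∈ w.asIdeal → w = v) (hp2 : p ≠ 2)
    (hodd : Odd (Module.finrank ℚ F)) {u : 𝓞 F} (hu : u ∉ v.asIdeal) {n₀ : ℤ}
    (hn₀ : Algebra.norm ℚ (u : F) = ((n₀ ^ 2 : ℤ) : ℚ)) :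
    ∃ z : 𝓞 F, z ∉ v.asIdeal ∧ u - z ^ 2 ∈ v.asIdeal := by
  have hvp := v.isPrime
  have : v.asIdeal.IsMaximal := v.isMaximal
  let _ : Field (𝓞 F ⧸ v.asIdeal) := Ideal.Quotient.field v.asIdeal
  have hfin : Finite (𝓞 F ⧸ v.asIdeal) := Ideal.finiteQuotientOfFreeOfNeBot v.asIdeal v.ne_bot
  have h2v : (2 : 𝓞 F) ∉ v.asIdeal := by
    intro h
    obtain ⟨k, hk⟩ : ∃ k, p = 2 * k + 1 := hp.out.odd_of_ne_two hp2
    apply hvp.ne_top
    rw [Ideal.eq_top_iff_one]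
    have e : (1 : 𝓞 F) = (p : 𝓞 F) - 2 * (k : 𝓞 F) := by
      rw [hk]; push_cast; ring
    rw [e]
    exact sub_mem hpv (v.asIdeal.mul_mem_right _ h)
  have h20 : (2 : 𝓞 F ⧸ v.asIdeal) ≠ 0 := by
    intro h
    apply h2v
    rw [← Ideal.Quotient.eq_zero_iff_mem, map_ofNat]
    exact h
  -- the norm is not divisible by `p`
  have hn0p : (n₀ : ZMod p) ≠ 0 := by
    intro h
    rw [ZMod.intCast_zmod_eq_zero_iff_dvd] at h
    have h1 := norm_norm_eq_one huniq ((HeightOneSpectrum.valuation_eq_one_iff_notMem v).2 hu :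
      v.valuation F (u : F) = 1)
    have h3 : (p : ℤ) ∣ n₀ ^ 2 := h.trans (dvd_pow_self _ two_ne_zero)
    rw [hn₀] at h1
    have h4 : ‖(((n₀ ^ 2 : ℤ)) : ℚ_[p])‖ < 1 := Padic.norm_intCast_lt_one_iff.2 h3
    have h5 : ((((n₀ ^ 2 : ℤ) : ℚ)) : ℚ_[p]) = (((n₀ ^ 2 : ℤ)) : ℚ_[p]) := Rat.cast_intCast _
    rw [h5] at h1
    exact absurd h1 h4.ne
  obtain ⟨n, hn⟩ := id hodd
  -- powers of rational integers
  obtain ⟨c', hc'⟩ := FiniteField.exists_nonsquare (F := ZMod p) (by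
    rw [ZMod.ringChar_zmod_n]; exact hp2)
  have hc0 : c' ≠ 0 := by rintro rfl; exact hc' IsSquare.zero
  obtain ⟨c, hc⟩ : ∃ c : ℤ, (c : ZMod p) = c' := ZMod.intCast_surjective c'
  have hpow : ¬ IsSquare (c' ^ (2 * n + 1)) := by
    rintro ⟨r, hr⟩
    apply hc'
    refine ⟨r / c' ^ n, ?_⟩
    have : c' ^ n ≠ 0 := pow_ne_zero n hc0
    field_simp
    rw [sq r, ← hr]
    ring
  have hNc : Algebra.norm ℚ (((c : ℤ) : 𝓞 F) : F) = ((c ^ (2 * n + 1) : ℤ) : ℚ) := by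
    have h3 := Algebra.norm_algebraMap (S := F) ((c : ℤ) : ℚ)
    rw [map_intCast, hn] at h3
    have h4 : (((c : ℤ) : 𝓞 F) : F) = ((c : ℤ) : F) := map_intCast (algebraMap (𝓞 F) F) c
    rw [h4, h3]
    push_cast
    rfl
  have hsqn : ∀ z : 𝓞 F, ∃ r : ℤ, Algebra.norm ℚ ((z ^ 2 : 𝓞 F) : F) = ((r ^ 2 : ℤ) : ℚ) := by
    intro z
    obtain ⟨r, hr⟩ := exists_norm_int z
    refine ⟨r, ?_⟩
    have h4 : ((z ^ 2 : 𝓞 F) : F) = (z : F) ^ 2 := map_pow (algebraMap (𝓞 F) F) z 2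
    rw [h4, map_pow, hr]
    push_cast
    rfl
  -- the class of `c`
  have hcn : ¬ IsSquare ((Ideal.Quotient.mk v.asIdeal) ((c : ℤ) : 𝓞 F)) := by
    rintro ⟨z', hz'⟩
    obtain ⟨z, rfl⟩ := Ideal.Quotient.mk_surjective z'
    obtain ⟨r, hr⟩ := hsqn z
    have h5 : ((c : ℤ) : 𝓞 F) - z ^ 2 ∈ v.asIdeal := by
      rw [← Ideal.Quotient.eq_zero_iff_mem, map_sub, hz', map_pow]
      ring
    have h6 := norm_congr huniq hNc hr h5
    apply hpow
    refine ⟨(r : ZMod p), ?_⟩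
    have h7 := (ZMod.intCast_zmod_eq_zero_iff_dvd _ p).2 h6
    push_cast at h7
    rw [hc] at h7
    linear_combination h7
  by_cases hus : IsSquare ((Ideal.Quotient.mk v.asIdeal) u)
  · obtain ⟨z', hz'⟩ := hus
    obtain ⟨z, rfl⟩ := Ideal.Quotient.mk_surjective z'
    have h5 : u - z ^ 2 ∈ v.asIdeal := by
      rw [← Ideal.Quotient.eq_zero_iff_mem, map_sub, hz', map_pow]
      ring
    refine ⟨z, fun hz => ?_, h5⟩
    apply hu
    have e : u = (u - z ^ 2) + z * z := by ring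
    rw [e]
    exact add_mem h5 (v.asIdeal.mul_mem_right _ hz)
  · exfalso
    obtain ⟨z', hz'⟩ := nonsq_mul h20 hus hcn
    obtain ⟨z, rfl⟩ := Ideal.Quotient.mk_surjective z'
    obtain ⟨r, hr⟩ := hsqn z
    have h5 : u * ((c : ℤ) : 𝓞 F) - z ^ 2 ∈ v.asIdeal := by
      rw [← Ideal.Quotient.eq_zero_iff_mem, map_sub, map_mul, hz', map_pow]
      ring
    have hNuc : Algebra.norm ℚ ((u * ((c : ℤ) : 𝓞 F) : 𝓞 F) : F) =
        ((n₀ ^ 2 * c ^ (2 * n + 1) : ℤ) : ℚ) := by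
      have h4 : ((u * ((c : ℤ) : 𝓞 F) : 𝓞 F) : F) =
          (u : F) * (((c : ℤ) : 𝓞 F) : F) := map_mul (algebraMap (𝓞 F) F) _ _
      rw [h4, map_mul, hn₀, hNc]
      push_cast
      ring
    have h6 := norm_congr huniq hNuc hr h5
    apply hpow
    refine ⟨(r : ZMod p) / (n₀ : ZMod p), ?_⟩
    have h7 := (ZMod.intCast_zmod_eq_zero_iff_dvd _ p).2 h6
    push_cast at h7
    rw [hc] at h7
    field_simp
    linear_combination h7

end

section

variable {F : Type} [Field F] [NumberField F] [Algebra ℚ F] [FiniteDimensional ℚ F] {a c : ℤ}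
  {hT : IsT (gc (-2 * a) (a ^ 2 - 64 * c) F) ((-2 * a : ℤ) : F) ((a ^ 2 - 64 * c : ℤ) : F)}

/-- a place which is the only one over an odd prime -/
lemma loc_un (hodd : Odd (Module.finrank ℚ F)) {v : HeightOneSpectrum (𝓞 F)}
    (h2 : (2 : 𝓞 F) ∉ v.asIdeal) (hv : Un v) {β : 𝓞 F} (hβ : β ∉ v.asIdeal)
    (hr : ∃ r : ℚ, Algebra.norm ℚ (β : F) = r ^ 2) :
    LocTriv _ (v.adicCompletion F) (fb hT (β : F)) := by
  obtain ⟨p, hp, hpv, huniq⟩ := hv
  have : Fact p.Prime := ⟨hp⟩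
  have hp2 : p ≠ 2 := by
    rintro rfl
    exact h2 (by exact_mod_cast hpv)
  obtain ⟨m, hm⟩ := exists_norm_int β
  obtain ⟨r, hr⟩ := hr
  have hms : ∃ n : ℤ, m = n ^ 2 := by
    have h1 : IsSquare ((m : ℚ)) := ⟨r, by rw [← hm, hr]; ring⟩
    obtain ⟨n, hn⟩ := (Rat.isSquare_intCast_iff).1 h1
    exact ⟨n, by rw [hn]; ring⟩
  obtain ⟨n, rfl⟩ := hms
  obtain ⟨z, hz, hz2⟩ := unit_sq hpv huniq hp2 hodd hβ hm
  obtain ⟨t, ht⟩ := sq_of_res v h2 hz hz2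
  exact fb_loc_sq hT ht

/-- **the classes with even valuations are locally trivial** -/
theorem sha_ev (ha : a % 4 = 1) (hc : c ≠ 0) (hD : a ^ 2 - 64 * c ≠ 0)
    (hodd : Odd (Module.finrank ℚ F))
    (hbad : ∀ v : HeightOneSpectrum (𝓞 F), (2 : 𝓞 F) ∉ v.asIdeal →
      Un v ∨ ((c : 𝓞 F) ∉ v.asIdeal ∧ ((a ^ 2 - 64 * c : ℤ) : 𝓞 F) ∉ v.asIdeal))
    {b : F} (hb : b ≠ 0) (hev : ∀ v : HeightOneSpectrum (𝓞 F), ∃ n : ℤ,
      v.valuation F b = WithZero.exp (2 * n)) (hr : ∃ r : ℚ, Algebra.norm ℚ b = r ^ 2)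
    (hinf : TotPos b ∨ c < 0 ∨ (0 < a ∧ 64 * c < a ^ 2)) :
    Pool.Agent.TH841.NF.D.IsShaCoc (gc (-2 * a) (a ^ 2 - 64 * c) F) (fb hT b) := by
  refine ⟨fb_coc hT _, fun v => ?_, fun v => ?_⟩
  · obtain ⟨β, y, hβ, hy, hby⟩ := rep_at v hb (hev v)
    have hβ0 := ne_of_out hβ
    have e : fb hT b = fb hT (β : F) := by
      rw [hby, fb_add hT hβ0 (pow_ne_zero 2 hy), fb_sq, add_zero]
    rw [e]
    by_cases h2 : (2 : 𝓞 F) ∈ v.asIdeal
    · exact loc_two ha hβ h2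
    · rcases hbad v h2 with h | ⟨h3, h4⟩
      · refine loc_un hodd h2 h hβ ?_
        obtain ⟨r, hr⟩ := hr
        have hy0 : Algebra.norm ℚ y ≠ 0 := by
          rw [Ne, Algebra.norm_eq_zero_iff]; exact hy
        refine ⟨r / Algebra.norm ℚ y, ?_⟩
        rw [div_pow, ← hr, hby, map_mul, map_pow]
        field_simp
      · exact loc_good h2 h3 h4 hβ
  · rcases hinf with h | h
    · exact loc_pos v h
    · exact loc_inf hb h v

end

end Pool.Agent.N922
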