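import Pool.Agent.N922.P4
import Pool.Agent.Y682.AMF

/-!
# The two classes of the cocycles whose corestriction is trivial
-/

set_option autoImplicit false
set_option linter.unusedSectionVars false

attribute [-instance] DivisionRing.toRatAlgebra

open NumberField IsDedekindDomain

namespace Pool.Agent.N922

open WeierstrassCurve

open Pool.Agent.Y682

open Pool.Agent.TH841.NF

open Pool.Agent.R432.CX (NCo gcC key_T norm_D second_class root_iff)

open Pool.Agent.TH841.SH (IsR IsX gf isX_zero isX_some not_isX)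

open Pool.Agent.TH841.SH.D (Pt act Gal Coch IsCoc IsCob LocTriv cob)

section

variable {F : Type} [Field F] [NumberField F] [Algebra ℚ F] [FiniteDimensional ℚ F] {A B : ℤ}

/-- the first class of `f` is `b` -/
def Cl1 (A B : ℤ) (f : Coch (gc A B F)) (b : Fˣ) : Prop :=
  ∀ (s : AlgebraicClosure F), s ^ 2 = algebraMap F _ (b : F) →
    ∀ σ : Gal F, (IsX ((gc A B F).baseChange (AlgebraicClosure F)) 0 (f σ) → σ s = s) ∧
      (¬ IsX ((gc A B F).baseChange (AlgebraicClosure F)) 0 (f σ) → σ s = -s)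

/-- the cocycle takes values in the group of the rational point of order two -/
def XX (f : Coch (gc A B F)) : Prop :=
  ∀ σ, IsX ((gc A B F).baseChange (AlgebraicClosure F)) 0 (f σ)

/-- the second class of `f` is `c`, up to the discriminant -/
def Cl2 (A B : ℤ) (f : Coch (gc A B F)) (c : Fˣ) : Prop :=
  ∃ b' : Fˣ, (∀ (s : AlgebraicClosure F), s ^ 2 = algebraMap F _ (b' : F) →
      ∀ σ : Gal F, (f σ = 0 → σ s = s) ∧ (f σ ≠ 0 → σ s = -s)) ∧
    (c = b' ∨ (c : F) = (b' : F) * ((A ^ 2 - 4 * B : ℤ) : F))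

lemma ex1 (hB : B ≠ 0) (hD : A ^ 2 - 4 * B ≠ 0)
    {e : AlgebraicClosure F ≃+* Qb} {f : Coch (gc A B F)} (hf : NCo (gcC (F := F) A B) e f) :
    ∃ b : Fˣ, Cl1 A B f b ∧ (∃ r : ℚ, Algebra.norm ℚ (b : F) = r ^ 2) ∧ L1 A B (b : F) := by
  have hTQ := gc_isT hB hD ℚ
  have hT := gc_isT hB hD F
  obtain ⟨hf1, h2, S, hS, hco⟩ := hf
  obtain ⟨b, hb, hbs, hbl⟩ := exists_b1 hT hf1.1 h2
  obtain ⟨r, hr⟩ := norm_b1 (gcC A B) e hTQ h2 hbs hS hco
  refine ⟨Units.mk0 b hb, hbs, ⟨r, hr⟩, ⟨fun v => ?_, fun v => ?_⟩⟩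
  · have := charZero_adic v
    have h3 := hbl _ (hf1.2.1 v)
    rwa [map_intCast, map_intCast] at h3
  · have := charZero_inf v
    have h3 := hbl v.Completion (hf1.2.2 v)
    rwa [map_intCast, map_intCast] at h3

lemma ex2 (hB : B ≠ 0) (hD : A ^ 2 - 4 * B ≠ 0) (hodd : Odd (Module.finrank ℚ F))
    {e : AlgebraicClosure F ≃+* Qb} {f : Coch (gc A B F)} (hf : NCo (gcC (F := F) A B) e f)
    (hX : XX f) :
    ∃ c : Fˣ, Cl2 A B f c ∧ (∃ r : ℚ, Algebra.norm ℚ (c : F) = r ^ 2) ∧ L2 A B (c : F) := by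
  obtain ⟨b', hbs', c, hc, hr, hL⟩ := second_class hB hD hodd hf hX
  exact ⟨c, ⟨b', hbs', hc⟩, hr, hL⟩

lemma neg_ne' {x : AlgebraicClosure F} (hx : x ≠ 0) : -x ≠ x := by
  intro h
  have h2 : (2 : AlgebraicClosure F) * x = 0 := by linear_combination -h
  exact hx ((mul_eq_zero.1 h2).resolve_left two_ne_zero)

lemma root_ne {b : Fˣ} {s : AlgebraicClosure F} (hs : s ^ 2 = algebraMap F _ (b : F)) : s ≠ 0 := by
  rintro rfl
  rw [zero_pow two_ne_zero, eq_comm, map_eq_zero] at hs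
  exact b.ne_zero hs

/-- the same first class -/
lemma XX_sub (hB : B ≠ 0) (hD : A ^ 2 - 4 * B ≠ 0)
    {e : AlgebraicClosure F ≃+* Qb} {f g : Coch (gc A B F)} (hf : NCo (gcC (F := F) A B) e f)
    (hg : NCo (gcC (F := F) A B) e g) {b c : Fˣ} (hsf : Cl1 A B f b) (hsg : Cl1 A B g c)
    (hy : ∃ y : Fˣ, y ^ 2 = b * c) : XX (f - g) := by
  have hT := gc_isT hB hD F
  obtain ⟨y, hy⟩ := hy
  have hy' : (y : F) ^ 2 = (b : F) * (c : F) := by
    have := congrArg Units.val hy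
    rwa [Units.val_pow_eq_pow_val, Units.val_mul] at this
  obtain ⟨s, hs⟩ := IsAlgClosed.exists_pow_nat_eq (algebraMap F (AlgebraicClosure F) (b : F))
    (n := 2) two_pos
  obtain ⟨t, ht⟩ := IsAlgClosed.exists_pow_nat_eq (algebraMap F (AlgebraicClosure F) (c : F))
    (n := 2) two_pos
  have hs0 := root_ne hs
  have ht0 := root_ne ht
  intro σ
  refine isX_of_sub hT (hf.2.1 σ) (hg.2.1 σ) ?_
  have h1 := hsf s hs σ
  have h2 := hsg t ht σ
  have h3 := root_iff hy' y.ne_zero hs ht σ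
  constructor
  · intro h
    by_contra h'
    have h4 := h3.1 (h1.1 h)
    rw [h2.2 h'] at h4
    exact neg_ne' ht0 h4
  · intro h
    by_contra h'
    have h4 := h3.2 (h2.1 h)
    rw [h1.2 h'] at h4
    exact neg_ne' hs0 h4

/-- the same second class -/
lemma eq_dl (hB : B ≠ 0) (hD : A ^ 2 - 4 * B ≠ 0)
    {e : AlgebraicClosure F ≃+* Qb} {f g : Coch (gc A B F)} (hf : NCo (gcC (F := F) A B) e f)
    (hg : NCo (gcC (F := F) A B) e g) (hXf : XX f) (hXg : XX g) {c c' : Fˣ}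
    (hcf : Cl2 A B f c) (hcg : Cl2 A B g c') (hy : ∃ y : Fˣ, y ^ 2 = c * c') :
    ∃ R : Pt (gc A B F) (AlgebraicClosure F), R + R = 0 ∧
      ∀ σ : Gal F, f σ - g σ = act (gc A B F) σ.toAlgHom R - R := by
  have hT := gc_isT hB hD F
  have hDF0 : (((A ^ 2 - 4 * B : ℤ)) : F) ≠ 0 := by exact_mod_cast hD
  obtain ⟨y, hy⟩ := hy
  obtain ⟨b, hsf, hbc⟩ := hcf
  obtain ⟨b', hsg, hbc'⟩ := hcg
  have hy' : (y : F) ^ 2 = (c : F) * (c' : F) := by
    have := congrArg Units.val hy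
    rwa [Units.val_pow_eq_pow_val, Units.val_mul] at this
  have hfg := hf.sub hg
  have hX : XX (f - g) := by
    intro σ
    exact isX_of_sub hT (hf.2.1 σ) (hg.2.1 σ) ⟨fun _ => hXg σ, fun _ => hXf σ⟩
  have hdiff : ∀ (s : AlgebraicClosure F), s ^ 2 = algebraMap F _ ((b * b' : Fˣ) : F) →
      ∀ σ : Gal F, ((f - g) σ = 0 → σ s = s) ∧ ((f - g) σ ≠ 0 → σ s = -s) := by
    intro s hs σ
    obtain ⟨u, hu⟩ := IsAlgClosed.exists_pow_nat_eq (algebraMap F (AlgebraicClosure F) (b : F))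
      (n := 2) two_pos
    obtain ⟨t, ht⟩ := IsAlgClosed.exists_pow_nat_eq (algebraMap F (AlgebraicClosure F) (b' : F))
      (n := 2) two_pos
    have h1 : s ^ 2 = (u * t) ^ 2 := by
      rw [hs, mul_pow, hu, ht, Units.val_mul, map_mul]
    have h2 := hsf u hu σ
    have h3 := hsg t ht σ
    have h4 : σ s = s ↔ σ (u * t) = u * t := by
      rcases sq_eq_sq_iff_eq_or_eq_neg.1 h1 with h | h
      · rw [h]
      · rw [h, map_neg, neg_inj]
    have h5 : σ s = -s ↔ σ (u * t) = -(u * t) := by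
      rcases sq_eq_sq_iff_eq_or_eq_neg.1 h1 with h | h
      · rw [h]
      · rw [h, map_neg, neg_inj]
    rw [h4, h5, map_mul]
    by_cases hf0 : f σ = 0
    · by_cases hg0 : g σ = 0
      · rw [h2.1 hf0, h3.1 hg0]
        refine ⟨fun _ => rfl, fun h => absurd ?_ h⟩
        change f σ - g σ = 0
        rw [hf0, hg0, sub_self]
      · rw [h2.1 hf0, h3.2 hg0]
        refine ⟨fun h => absurd ?_ hg0, fun _ => by ring⟩
        have h6 : f σ - g σ = 0 := h
        rw [hf0, zero_sub, neg_eq_zero] at h6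
        exact h6
    · by_cases hg0 : g σ = 0
      · rw [h2.2 hf0, h3.1 hg0]
        refine ⟨fun h => absurd ?_ hf0, fun _ => by ring⟩
        have h6 : f σ - g σ = 0 := h
        rw [hg0, sub_zero] at h6
        exact h6
      · rw [h2.2 hf0, h3.2 hg0]
        refine ⟨fun _ => by ring, fun h => absurd ?_ h⟩
        change f σ - g σ = 0
        rw [isX_ext hT (hf.2.1 σ) (hg.2.1 σ) (hXf σ) (hXg σ) hf0 hg0, sub_self]
  set D : F := ((A ^ 2 - 4 * B : ℤ) : F) with hDdef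
  have hsq : ∃ z : Fˣ, (z : F) ^ 2 = ((b * b' : Fˣ) : F) ∨
      (z : F) ^ 2 = ((b * b' : Fˣ) : F) * ((A ^ 2 - 4 * B : ℤ) : F) := by
    rw [← hDdef, Units.val_mul]
    rcases hbc with rfl | hbc <;> rcases hbc' with rfl | hbc'
    · exact ⟨y, Or.inl hy'⟩
    · refine ⟨y, Or.inr ?_⟩
      rw [hy', hbc']; ring
    · refine ⟨y, Or.inr ?_⟩
      rw [hy', hbc]; ring
    · refine ⟨y * (Units.mk0 D hDF0)⁻¹, Or.inl ?_⟩
      rw [Units.val_mul, Units.val_inv_eq_inv_val, Units.val_mk0, mul_pow, hy', hbc, hbc']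
      field_simp
  obtain ⟨R, hR, hRf⟩ := key_T hB hD hfg.2.1 hX (b * b').ne_zero hdiff hsq
  exact ⟨R, hR, hRf⟩

end

end Pool.Agent.N922
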