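import Pool.Agent.N922.P5

/-!
# The count: upper bound
-/

set_option autoImplicit false
set_option linter.unusedSectionVars false

attribute [-instance] DivisionRing.toRatAlgebra

open NumberField IsDedekindDomain

namespace Pool.Agent.N922

open WeierstrassCurve

open Pool.Agent.Y682

open Pool.Agent.TH841.NF

open Pool.Agent.R432.CX (NCo gcC half_NCo lift_sha exists_tr tr_tors)

open Pool.Agent.TH841.SH.D (Pt act Gal Coch IsCoc IsCob LocTriv cob)

section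

variable {F : Type} [Field F] [NumberField F] [Algebra ℚ F] [FiniteDimensional ℚ F] {A B : ℤ}

/-- the elements of order two of Sha with trivial corestriction -/
abbrev N2 (A B : ℤ) (e : AlgebraicClosure F ≃+* Qb) : Type :=
  {x : Pool.Agent.TH841.NF.D.Sha (gc A B F) // 2 • x = 0 ∧ coS (gcC (F := F) A B) e x = 0}

lemma cl_mem {S : Subgroup Fˣ} {b : Fˣ} (h : b ∈ S) :
    (b : Fˣ ⧸ Sq F) ∈ S.map (QuotientGroup.mk' (Sq F)) := ⟨b, h, rfl⟩

lemma sq_mul_of_eq {b c : Fˣ} (h : (b : Fˣ ⧸ Sq F) = (c : Fˣ ⧸ Sq F)) : ∃ y : Fˣ, y ^ 2 = b * c := by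
  rw [quot_eq] at h
  obtain ⟨z, hz⟩ := h
  exact ⟨b * z, by rw [hz, mul_pow, sq b, mul_assoc]⟩

/-- **the upper bound** -/
theorem upper (hB : B ≠ 0) (hD : A ^ 2 - 4 * B ≠ 0) (hodd : Odd (Module.finrank ℚ F))
    (e : AlgebraicClosure F ≃+* Qb) {T : MP (gc A B F) →+ MP (gc A B ℚ)}
    (hTr : ∀ P, inc _ (T P) = trc e (tp (gcC (F := F) A B) e (inc _ P)))
    {S1g S2g : Subgroup Fˣ} [Finite (S1g.map (QuotientGroup.mk' (Sq F)))]
    [Finite (S2g.map (QuotientGroup.mk' (Sq F)))]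
    (H1 : ∀ b : Fˣ, (∃ r : ℚ, Algebra.norm ℚ (b : F) = r ^ 2) → L1 A B (b : F) → b ∈ S1g)
    (H2 : ∀ b : Fˣ, (∃ r : ℚ, Algebra.norm ℚ (b : F) = r ^ 2) → L2 A B (b : F) → b ∈ S2g) :
    Finite (N2 (F := F) A B e × (T.ker ⧸ (zsmulAddGroupHom (α := T.ker) 2).range)) ∧
      Nat.card (N2 (F := F) A B e × (T.ker ⧸ (zsmulAddGroupHom (α := T.ker) 2).range)) ≤
      Nat.card (S1g.map (QuotientGroup.mk' (Sq F))) *
        Nat.card (S2g.map (QuotientGroup.mk' (Sq F))) := by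
  classical
  have hT := gc_isT hB hD F
  let W := gc A B F
  let M0 := T.ker
  -- the classes of Sha
  choose fs hfs1 hfs2 using fun x : N2 (F := F) A B e => lift_sha hT hodd x.1 x.2.1 x.2.2
  -- the classes of points
  have hpt : ∀ q : M0 ⧸ (zsmulAddGroupHom (α := M0) 2).range, ∃ (P : M0)
      (Q : Pt W (AlgebraicClosure F)), (QuotientAddGroup.mk P : M0 ⧸ _) = q ∧
      inc W P.1 = Q + Q := by
    intro q
    obtain ⟨P, hP⟩ := QuotientAddGroup.mk_surjective q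
    obtain ⟨Q, hQ⟩ := exists_half hT (inc W P.1)
    exact ⟨P, Q, hP, hQ⟩
  choose Pq Qv hPq hQv using hpt
  have hQN : ∀ q, NCo (gcC (F := F) A B) e (dl (Qv q)) := fun q => half_NCo hTr (Pq q).2 (hQv q)
  have hneg : ∀ q, NCo (gcC (F := F) A B) e (-dl (Qv q)) := by
    intro q
    have h1 := (hQN q).sub (hQN q)
    have h2 := h1.sub (hQN q)
    rwa [sub_self, zero_sub] at h2
  let FF : N2 (F := F) A B e × (M0 ⧸ (zsmulAddGroupHom (α := M0) 2).range) → Coch W :=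
    fun y => (fs y.1).1 + dl (Qv y.2)
  have hsum : ∀ y, NCo (gcC (F := F) A B) e (FF y) := by
    intro y
    have h1 := (hfs1 y.1).sub (hneg y.2)
    rwa [sub_neg_eq_add] at h1
  -- equality of the cocycles
  have hinj : ∀ y y', (∃ R : Pt W (AlgebraicClosure F), R + R = 0 ∧
      ∀ σ : Gal F, FF y σ - FF y' σ = act W σ.toAlgHom R - R) → y = y' := by
    rintro ⟨x, q⟩ ⟨x', q'⟩ ⟨R, hR, hRf⟩
    have hRf' : ((fs x).1 + dl (Qv q)) - ((fs x').1 + dl (Qv q')) = dl R := funext hRf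
    have hx : x = x' := by
      apply Subtype.ext
      rw [← hfs2 x, ← hfs2 x']
      refine (QuotientAddGroup.eq (s := (cob W).addSubgroupOf
          (Pool.Agent.TH841.NF.D.shaCoc W))).2 ?_
      change IsCob W (-(fs x).1 + (fs x').1)
      refine isCob_iff.2 ⟨Qv q - Qv q' - R, ?_⟩
      rw [dl_sub, dl_sub, ← hRf']
      abel
    subst hx
    have h1 : dl (Qv q - Qv q' - R) = 0 := by
      rw [dl_sub, dl_sub, ← hRf']
      abel
    obtain ⟨M, hM⟩ := exists_inc h1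
    have h2M : M + M = (Pq q).1 - (Pq q').1 := by
      apply inc_inj W
      rw [map_add, map_sub, hM, hQv, hQv]
      have h7 : (Qv q - Qv q' - R) + (Qv q - Qv q' - R) =
          (Qv q + Qv q) - (Qv q' + Qv q') - (R + R) := by abel
      rw [h7, hR, sub_zero]
    have ht : T M + T M = 0 := by
      rw [← map_add, h2M, map_sub]
      have h3 : T (Pq q).1 = 0 := (Pq q).2
      have h4 : T (Pq q').1 = 0 := (Pq q').2
      rw [h3, h4, sub_zero]
    obtain ⟨s, hs2, hs⟩ := tr_tors hodd hTr ht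
    have hMs : T (M - s) = 0 := by rw [map_sub, hs, sub_self]
    have hq : q = q' := by
      rw [← hPq q, ← hPq q', QuotientAddGroup.eq]
      refine ⟨-⟨M - s, hMs⟩, Subtype.ext ?_⟩
      change (2 : ℤ) • (-(M - s)) = -(Pq q).1 + (Pq q').1
      have h7 : (2 : ℤ) • (-(M - s)) = -(M + M) + (s + s) := by
        rw [two_zsmul]; abel
      rw [h7, hs2, h2M]
      abel
    rw [hq]
  -- the first class
  choose b1 hb1 hb1n hb1L using fun y => ex1 hB hD (hsum y)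
  let f1 : N2 (F := F) A B e × (M0 ⧸ (zsmulAddGroupHom (α := M0) 2).range) →
      S1g.map (QuotientGroup.mk' (Sq F)) := fun y => ⟨_, cl_mem (H1 (b1 y) (hb1n y) (hb1L y))⟩
  have hXX : ∀ y y', f1 y = f1 y' → XX (FF y - FF y') := by
    intro y y' h
    have h0 : (b1 y : Fˣ ⧸ Sq F) = (b1 y' : Fˣ ⧸ Sq F) := congrArg Subtype.val h
    exact XX_sub hB hD (hsum y) (hsum y') (hb1 y) (hb1 y') (sq_mul_of_eq h0)
  -- the second class
  have h2 : ∀ y0 y, ∃ c : Fˣ, c ∈ S2g ∧ (XX (FF y - FF y0) → Cl2 A B (FF y - FF y0) c) := by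
    intro y0 y
    by_cases h : XX (FF y - FF y0)
    · obtain ⟨c, hc1, hc2, hc3⟩ := ex2 hB hD hodd ((hsum y).sub (hsum y0)) h
      exact ⟨c, H2 c hc2 hc3, fun _ => hc1⟩
    · exact ⟨1, one_mem _, fun h' => absurd h' h⟩
  choose c2 hc2 hc2' using h2
  refine card_le_prod (⟨0, smul_zero _, map_zero _⟩, 0) f1 (fun y0 y => (⟨_, cl_mem (hc2 y0 y)⟩ :
    S2g.map (QuotientGroup.mk' (Sq F)))) ?_
  intro y0 y y' h h' hg
  have h0 : (c2 y0 y : Fˣ ⧸ Sq F) = (c2 y0 y' : Fˣ ⧸ Sq F) := congrArg Subtype.val hg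
  obtain ⟨R, hR, hRf⟩ := eq_dl hB hD ((hsum y).sub (hsum y0)) ((hsum y').sub (hsum y0))
    (hXX _ _ h) (hXX _ _ h') (hc2' y0 y (hXX _ _ h)) (hc2' y0 y' (hXX _ _ h')) (sq_mul_of_eq h0)
  refine hinj y y' ⟨R, hR, fun σ => ?_⟩
  rw [← hRf σ]
  change _ = (FF y σ - FF y0 σ) - (FF y' σ - FF y0 σ)
  abel

end

end Pool.Agent.N922
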