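import Pool.Agent.N922.P6

/-!
# The count: lower bound
-/

set_option autoImplicit false
set_option linter.unusedSectionVars false

attribute [-instance] DivisionRing.toRatAlgebra

open NumberField IsDedekindDomain

namespace Pool.Agent.N922

open WeierstrassCurve

open Pool.Agent.Y682

open Pool.Agent.TH841.NF

open Pool.Agent.R432.CX (NCo gcC half_NCo lift_sha exists_tr tr_tors)

open Pool.Agent.R432 (fb fb_add fb_sq fb_two fb_coc fb_zero_iff fb_cases fb_isX fb_inj co_fb rt rt_sq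
  rt_ne rt_pm T0)

open Pool.Agent.TH841.SH (IsR IsX gf isX_zero isX_some not_isX)

open Pool.Agent.TH841.SH.D (Pt act Gal Coch IsCoc IsCob LocTriv cob)

section

variable {F : Type} [Field F] [NumberField F] [Algebra ℚ F] [FiniteDimensional ℚ F] {A B : ℤ}

/-- a rational number that is a square in a field of odd degree is a square -/
lemma sq_desc (hodd : Odd (Module.finrank ℚ F)) {D : ℚ} (hD : D ≠ 0) {y : F}
    (hy : y ^ 2 = algebraMap ℚ F D) : ∃ q : ℚ, q ^ 2 = D := by
  obtain ⟨n, hn⟩ := id hodd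
  have h := congrArg (Algebra.norm ℚ) hy
  rw [map_pow, Algebra.norm_algebraMap, hn] at h
  refine ⟨Algebra.norm ℚ y / D ^ n, ?_⟩
  rw [div_pow, h]
  have : D ^ n ≠ 0 := pow_ne_zero n hD
  field_simp
  ring

lemma card_odd (hodd : Odd (Module.finrank ℚ F)) (e : AlgebraicClosure F ≃+* Qb) :
    ∃ m, Fintype.card (Gal ℚ ⧸ HF e) = 2 * m + 1 := by
  obtain ⟨m, hm⟩ := hodd
  exact ⟨m, by rw [card_coset, hm]⟩

/-- a rational point of order two over `F` is rational over `ℚ` -/
lemma tors_rat (hB : B ≠ 0) (hD : A ^ 2 - 4 * B ≠ 0) (hodd : Odd (Module.finrank ℚ F))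
    (e : AlgebraicClosure F ≃+* Qb) {S : Pt (gc A B F) (AlgebraicClosure F)} (hS : S + S = 0)
    (hdl : dl S = 0) : dl (tp (gcC (F := F) A B) e S) = 0 := by
  have hTQ := gc_isT hB hD ℚ
  have hT := gc_isT hB hD F
  have hS' : tp (gcC (F := F) A B) e S + tp (gcC (F := F) A B) e S = 0 := by
    rw [← map_add, hS, map_zero]
  funext τ
  rw [dl_apply]
  change _ = (0 : Pt (gc A B ℚ) Qb)
  rw [sub_eq_zero]
  have hX := tm_isX (sc_any (gcC (F := F) A B) (e : AlgebraicClosure F →+* Qb)) S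
  by_cases h : IsX ((gc A B F).baseChange (AlgebraicClosure F)) 0 S
  · exact tors_fix hTQ hS' (hX.2 h) τ
  · have h' : ¬ IsX ((gc A B ℚ).baseChange Qb) 0 (tp (gcC (F := F) A B) e S) := fun h1 => h (hX.1 h1)
    obtain ⟨g, hg, hgσ⟩ := tors_g hTQ hS' h'
    obtain ⟨g', hg', hgσ'⟩ := tors_g hT hS h
    have hfix : ∀ σ : Gal F, σ g' = g' := fun σ => (hgσ' σ).1 (by
      have := congrFun hdl σ
      rw [dl_apply] at this
      exact sub_eq_zero.1 this)
    obtain ⟨y, hy⟩ := fix_mem g' hfix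
    have hDQ : ((A : ℚ) ^ 2 - 4 * (B : ℚ)) ≠ 0 := by exact_mod_cast hD
    have hy2 : y ^ 2 = algebraMap ℚ F ((A : ℚ) ^ 2 - 4 * (B : ℚ)) := by
      apply (algebraMap F (AlgebraicClosure F)).injective
      rw [map_pow, hy, hg']
      simp only [map_sub, map_mul, map_pow, map_ofNat, map_intCast]
    obtain ⟨q, hq⟩ := sq_desc hodd hDQ hy2
    by_contra hne
    have h1 := (hgσ τ).2 hne
    have h2 : g ^ 2 = (algebraMap ℚ Qb q) ^ 2 := by rw [hg, ← map_pow, hq]
    have h3 : τ g = g := by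
      rcases sq_eq_sq_iff_eq_or_eq_neg.1 h2 with h4 | h4
      · rw [h4, AlgEquiv.commutes]
      · rw [h4, map_neg, AlgEquiv.commutes]
    have h4 : g ≠ 0 := by
      rintro rfl
      rw [zero_pow two_ne_zero, eq_comm, map_eq_zero] at hg
      exact hDQ hg
    rw [h3] at h1
    have h5 : (2 : Qb) * g = 0 := by linear_combination h1
    rcases mul_eq_zero.1 h5 with h6 | h6
    · exact two_ne_zero h6
    · exact h4 h6

/-- no points of order two of trace zero -/
lemma no_tors (hB : B ≠ 0) (hD : A ^ 2 - 4 * B ≠ 0) (hodd : Odd (Module.finrank ℚ F))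
    (e : AlgebraicClosure F ≃+* Qb) {T : MP (gc A B F) →+ MP (gc A B ℚ)}
    (hTr : ∀ P, inc _ (T P) = trc e (tp (gcC (F := F) A B) e (inc _ P)))
    {s : MP (gc A B F)} (hs : s + s = 0) (hTs : T s = 0) : s = 0 := by
  obtain ⟨m, hm⟩ := card_odd hodd e
  have hS : inc (gc A B F) s + inc (gc A B F) s = 0 := by rw [← map_add, hs, map_zero]
  have h1 := tors_rat hB hD hodd e hS (dl_inc s)
  have h2 := hTr s
  rw [hTs, map_zero, trc_fix e h1, hm, succ_nsmul, mul_comm, mul_smul, two_nsmul, ← map_add, hS,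
    map_zero, smul_zero, zero_add] at h2
  apply inc_inj
  rw [map_zero]
  apply tm_inj (sc_any (gcC (F := F) A B) (e : AlgebraicClosure F →+* Qb))
  rw [map_zero]
  exact h2.symm

/-- every odd multiple of a rational point is a trace -/
lemma tr_mul {E : WeierstrassCurve ℚ} {W : WeierstrassCurve F} {hW : Sc (algebraMap ℚ F) 1 E W}
    {e : AlgebraicClosure F ≃+* Qb} {T : MP W →+ MP E}
    (hTr : ∀ P, inc _ (T P) = trc e (tp hW e (inc _ P))) (t : MP E) :
    ∃ s : MP W, T s = Fintype.card (Gal ℚ ⧸ HF e) • t := by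
  obtain ⟨T0', hT0'⟩ : ∃ T0', tp hW e T0' = inc E t := any_surj hW e (inc E t)
  have hT0'f : dl T0' = 0 := by
    apply dl_eq_zero_of_tp hW e
    rw [hT0', dl_inc]
  obtain ⟨s, hs⟩ := exists_inc hT0'f
  refine ⟨s, ?_⟩
  apply inc_inj E
  rw [hTr, hs, hT0', trc_fix e (dl_inc t), map_nsmul]

/-- the ranks -/
lemma rank_add (hB : B ≠ 0) (hD : A ^ 2 - 4 * B ≠ 0) (hodd : Odd (Module.finrank ℚ F))
    (e : AlgebraicClosure F ≃+* Qb) {T : MP (gc A B F) →+ MP (gc A B ℚ)}
    (hTr : ∀ P, inc _ (T P) = trc e (tp (gcC (F := F) A B) e (inc _ P))) :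
    Module.finrank ℤ (MP (gc A B F)) =
      Module.finrank ℤ (MP (gc A B ℚ)) + Module.finrank ℤ T.ker := by
  have hfg : Module.Finite ℤ (MP (gc A B F)) := fg_MP (gc_isT hB hD F)
  have hfgE : Module.Finite ℤ (MP (gc A B ℚ)) :=
    Module.Finite.of_injective (Pool.Agent.Y682.mt (gcC (F := F) A B)).toIntLinearMap (mt_inj (gcC (F := F) A B))
  have h4 := Submodule.finrank_quotient_add_finrank (LinearMap.ker T.toIntLinearMap)
  rw [LinearEquiv.finrank_eq (LinearMap.quotKerEquivRange T.toIntLinearMap)] at h4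
  have h5 := Submodule.finrank_quotient_add_finrank (LinearMap.range T.toIntLinearMap)
  have h6 : Module.finrank ℤ (MP (gc A B ℚ) ⧸ LinearMap.range T.toIntLinearMap) = 0 := by
    rw [Module.finrank_eq_zero_iff_isTorsion]
    intro x
    induction x using Submodule.Quotient.induction_on with
    | H t =>
      obtain ⟨s, hs⟩ := tr_mul hTr t
      obtain ⟨m, hm⟩ := card_odd hodd e
      refine ⟨⟨((Fintype.card (Gal ℚ ⧸ HF e) : ℕ) : ℤ), mem_nonZeroDivisors_of_ne_zero ?_⟩, ?_⟩
      · rw [hm]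
        omega
      · change ((Fintype.card (Gal ℚ ⧸ HF e) : ℕ) : ℤ) •
          (Submodule.Quotient.mk t : MP (gc A B ℚ) ⧸ LinearMap.range T.toIntLinearMap) = 0
        rw [← Submodule.Quotient.mk_smul, Submodule.Quotient.mk_eq_zero]
        refine ⟨s, ?_⟩
        change T s = _
        rw [hs, natCast_zsmul]
  have h7 : Module.finrank ℤ T.ker = Module.finrank ℤ (LinearMap.ker T.toIntLinearMap) := rfl
  omega

/-- the order of the group of the points of trace zero modulo two -/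
lemma card_half (hB : B ≠ 0) (hD : A ^ 2 - 4 * B ≠ 0) (hodd : Odd (Module.finrank ℚ F))
    (e : AlgebraicClosure F ≃+* Qb) {T : MP (gc A B F) →+ MP (gc A B ℚ)}
    (hTr : ∀ P, inc _ (T P) = trc e (tp (gcC (F := F) A B) e (inc _ P))) :
    Nat.card (T.ker ⧸ (zsmulAddGroupHom (α := T.ker) 2).range) = 2 ^ Module.finrank ℤ T.ker := by
  have hfg : Module.Finite ℤ (MP (gc A B F)) := fg_MP (gc_isT hB hD F)
  have hfg0 : Module.Finite ℤ T.ker := by
    have h1 : Module.Finite ℤ (LinearMap.ker T.toIntLinearMap) := inferInstance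
    exact h1
  rw [Pool.Agent.TeamU.card_quot_two]
  have h1 : (zsmulAddGroupHom (α := T.ker) 2).ker = ⊥ := by
    rw [eq_bot_iff]
    rintro ⟨s, hs⟩ h
    have h2 : (2 : ℤ) • s = 0 := congrArg Subtype.val h
    rw [two_zsmul] at h2
    exact Subtype.ext (no_tors hB hD hodd e hTr h2 hs)
  rw [h1]
  simp

end

end Pool.Agent.N922
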