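import Pool.Agent.N922.P7

/-!
# The count: lower bound, conclusion
-/

set_option autoImplicit false
set_option linter.unusedSectionVars false

attribute [-instance] DivisionRing.toRatAlgebra

open NumberField IsDedekindDomain

namespace Pool.Agent.N922

open WeierstrassCurve

open Pool.Agent.Y682

open Pool.Agent.TH841.NF

open Pool.Agent.R432.CX (NCo gcC half_NCo lift_sha exists_tr tr_tors)

open Pool.Agent.R432 (fb fb_add fb_sq fb_two fb_coc fb_zero_iff fb_cases fb_isX fb_inj co_fb rt rt_sq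
  rt_ne rt_pm T0 fb_pos fb_neg)

open Pool.Agent.TH841.SH (IsR IsX gf isX_zero isX_some not_isX)

open Pool.Agent.TH841.SH.D (Pt act Gal Coch IsCoc IsCob LocTriv cob)

section

variable {F : Type} [Field F] [NumberField F] [Algebra ℚ F] [FiniteDimensional ℚ F] {A B : ℤ}

/-- an element whose norm is a square and whose class is that of a point of order two -/
lemma sq_of_dl (hB : B ≠ 0) (hD : A ^ 2 - 4 * B ≠ 0) (hodd : Odd (Module.finrank ℚ F))
    {hT : IsT (gc A B F) (A : F) (B : F)} {x : F} (hx : x ≠ 0)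
    (hr : ∃ r : ℚ, Algebra.norm ℚ x = r ^ 2) {R : Pt (gc A B F) (AlgebraicClosure F)}
    (hR : R + R = 0) (h : fb hT x = dl R) : ∃ y : F, y ^ 2 = x := by
  by_cases hX : IsX ((gc A B F).baseChange (AlgebraicClosure F)) 0 R
  · apply fb_inj hT
    rw [h]
    funext σ
    rw [dl_apply, tors_fix hT hR hX σ, sub_self]
    rfl
  · obtain ⟨g, hg, hgσ⟩ := tors_g hT hR hX
    have hDF : ((A : F) ^ 2 - 4 * (B : F)) = ((A ^ 2 - 4 * B : ℤ) : F) := by
      push_cast; ring
    have hDF0 : (((A ^ 2 - 4 * B : ℤ)) : F) ≠ 0 := by exact_mod_cast hD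
    have hiff : ∀ σ : Gal F, fb hT x σ = 0 ↔ act (gc A B F) σ.toAlgHom R = R := by
      intro σ
      rw [h, dl_apply, sub_eq_zero]
    have hfix : ∀ σ : Gal F, σ (rt x * g) = rt x * g := by
      intro σ
      rw [map_mul]
      by_cases h1 : fb hT x σ = 0
      · rw [(fb_zero_iff hT (rt_sq x) σ).1 h1, (hgσ σ).1 ((hiff σ).1 h1)]
      · have h2 : σ (rt x) ≠ rt x := fun h3 => h1 ((fb_zero_iff hT (rt_sq x) σ).2 h3)
        rw [(rt_pm σ x).resolve_left h2, (hgσ σ).2 (fun h3 => h1 ((hiff σ).2 h3))]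
        ring
    obtain ⟨y, hy⟩ := fix_mem _ hfix
    have hy2 : y ^ 2 = x * ((A ^ 2 - 4 * B : ℤ) : F) := by
      apply (algebraMap F (AlgebraicClosure F)).injective
      rw [map_pow, hy, mul_pow, rt_sq, hg, hDF, map_mul]
    -- `D` is a square
    obtain ⟨r, hr⟩ := hr
    have hr0 : r ≠ 0 := by
      rintro rfl
      rw [zero_pow two_ne_zero, Algebra.norm_eq_zero_iff] at hr
      exact hx hr
    obtain ⟨n, hn⟩ := id hodd
    have hDQ : ((A ^ 2 - 4 * B : ℤ) : ℚ) ≠ 0 := by exact_mod_cast hD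
    have h6 : (Algebra.norm ℚ y) ^ 2 = r ^ 2 * ((A ^ 2 - 4 * B : ℤ) : ℚ) ^ (2 * n + 1) := by
      have h7 := Algebra.norm_algebraMap (S := F) (((A ^ 2 - 4 * B : ℤ)) : ℚ)
      rw [map_intCast] at h7
      rw [← map_pow, hy2, map_mul, h7, hr, hn]
    obtain ⟨q, hq⟩ : ∃ q : ℚ, q ^ 2 = ((A ^ 2 - 4 * B : ℤ) : ℚ) := by
      refine ⟨Algebra.norm ℚ y / (r * ((A ^ 2 - 4 * B : ℤ) : ℚ) ^ n), ?_⟩
      rw [div_pow, h6]
      have : r * ((A ^ 2 - 4 * B : ℤ) : ℚ) ^ n ≠ 0 := mul_ne_zero hr0 (pow_ne_zero n hDQ)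
      field_simp
      ring
    have hq0 : q ≠ 0 := by
      rintro rfl
      rw [zero_pow two_ne_zero] at hq
      exact hDQ hq.symm
    have hqF : algebraMap ℚ F q ≠ 0 := (map_ne_zero _).2 hq0
    have hqF2 : (algebraMap ℚ F q) ^ 2 = ((A ^ 2 - 4 * B : ℤ) : F) := by
      rw [← map_pow, hq, map_intCast]
    refine ⟨y / algebraMap ℚ F q, ?_⟩
    rw [div_pow, hy2, hqF2]
    field_simp

/-- **the lower bound** -/
theorem lower (hB : B ≠ 0) (hD : A ^ 2 - 4 * B ≠ 0) (hodd : Odd (Module.finrank ℚ F))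
    (hT : IsT (gc A B F) (A : F) (B : F)) (hTQ : IsT (gc A B ℚ) (A : ℚ) (B : ℚ))
    (e : AlgebraicClosure F ≃+* Qb) {T : MP (gc A B F) →+ MP (gc A B ℚ)}
    (hTr : ∀ P, inc _ (T P) = trc e (tp (gcC (F := F) A B) e (inc _ P)))
    {S2g : Subgroup Fˣ} [Finite (N2 (F := F) A B e)] (hSq : Sq F ≤ S2g)
    (hS : ∀ b ∈ S2g, Pool.Agent.TH841.NF.D.IsShaCoc (gc A B F) (fb hT (b : F)))
    (hN : ∀ b ∈ S2g, ∃ r : ℚ, Algebra.norm ℚ (b : F) = r ^ 2) :
    Nat.card (S2g.map (QuotientGroup.mk' (Sq F))) ≤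
      2 ^ Module.finrank ℤ T.ker * Nat.card (N2 (F := F) A B e) := by
  classical
  let W := gc A B F
  let cl : ∀ f : Coch W, Pool.Agent.TH841.NF.D.IsShaCoc W f → Pool.Agent.TH841.NF.D.Sha W :=
    fun f hs => ((⟨f, hs⟩ : Pool.Agent.TH841.NF.D.shaCoc W) :
      Pool.Agent.TH841.NF.D.shaCoc W ⧸ (cob W).addSubgroupOf (Pool.Agent.TH841.NF.D.shaCoc W))
  have hcl0 : ∀ f hs, cl f hs = 0 ↔ IsCob W f := fun f hs =>
    QuotientAddGroup.eq_zero_iff (N := (cob W).addSubgroupOf (Pool.Agent.TH841.NF.D.shaCoc W)) _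
  have hclc : ∀ f g (h : f = g) hf hg, cl f hf = cl g hg := by
    intro f g h hf hg
    subst h
    rfl
  let Ψ : S2g →* Multiplicative (Pool.Agent.TH841.NF.D.Sha W) :=
    { toFun := fun u => Multiplicative.ofAdd (cl (fb hT ((u.1 : F))) (hS u.1 u.2))
      map_one' := by
        change cl _ _ = 0
        rw [hcl0]
        have h1 : fb hT ((((1 : S2g).1 : Fˣ) : F)) = 0 := by
          have h2 : ((((1 : S2g).1 : Fˣ) : F)) = 1 ^ 2 := by
            rw [one_pow]
            rfl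
          rw [h2]
          exact fb_sq hT 1
        rw [h1]
        exact (cob W).zero_mem
      map_mul' := by
        intro u w
        have h1 : fb hT (((u * w : S2g).1 : F)) =
            fb hT ((u.1 : F)) + fb hT ((w.1 : F)) := by
          have h2 : (((u * w : S2g).1 : F)) = (u.1 : F) * (w.1 : F) := rfl
          rw [h2, fb_add hT u.1.ne_zero w.1.ne_zero]
        exact hclc _ _ h1 _ ((Pool.Agent.TH841.NF.D.shaCoc W).add_mem (hS u.1 u.2)
          (hS w.1 w.2)) }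
  have hΨ : ∀ u : S2g, Ψ u = Multiplicative.ofAdd (cl (fb hT ((u.1 : F))) (hS u.1 u.2)) :=
    fun u => rfl
  have hco0 : ∀ u : S2g, co (gcC (F := F) A B) e (fb hT ((u.1 : F))) = 0 := by
    intro u
    obtain ⟨r, hr⟩ := hN u.1 u.2
    have hT' : IsT (gc A B F) (algebraMap ℚ F (A : ℚ)) (algebraMap ℚ F (B : ℚ)) := by
      rw [map_intCast, map_intCast]; exact hT
    have e1 : fb hT ((u.1 : F)) = fb hT' ((u.1 : F)) := by
      funext σ
      rfl
    rw [e1, co_fb (gcC (F := F) A B) e hTQ hT' u.1.ne_zero, hr]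
    exact fb_sq hTQ r
  -- the image
  have himg : Nat.card Ψ.range ≤ Nat.card (N2 (F := F) A B e) := by
    refine Nat.card_le_card_of_injective (fun y : Ψ.range =>
      (⟨Multiplicative.toAdd y.1, ?_, ?_⟩ : N2 (F := F) A B e)) ?_
    · obtain ⟨u, hu⟩ := y.2
      have h1 : cl (fb hT ((u.1 : F)) + fb hT ((u.1 : F)))
            ((Pool.Agent.TH841.NF.D.shaCoc W).add_mem (hS u.1 u.2) (hS u.1 u.2)) = 0 := by
        refine (hcl0 _ _).2 ?_
        have h2 : fb hT ((u.1 : F)) + fb hT ((u.1 : F)) = 0 := by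
          funext σ
          exact fb_two hT _ σ
        rw [h2]
        exact (cob W).zero_mem
      rw [← hu, two_nsmul]
      exact h1
    · obtain ⟨u, hu⟩ := y.2
      rw [← hu]
      refine (QuotientAddGroup.eq_zero_iff (coC (gcC (F := F) A B) e
          ⟨fb hT ((u.1 : F)), hS u.1 u.2⟩)).2 ?_
      change IsCob _ (co (gcC (F := F) A B) e (fb hT ((u.1 : F))))
      rw [hco0]
      exact (cob (gc A B ℚ)).zero_mem
    · intro y y' h
      exact Subtype.ext (congrArg (fun z : N2 (F := F) A B e => Multiplicative.ofAdd z.1) h)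
  -- the points
  obtain ⟨m, hm⟩ := card_odd hodd e
  have hpt : ∀ u : Ψ.ker, ∃ (P : T.ker) (Q : Pt W (AlgebraicClosure F)),
      fb hT ((u.1.1 : F)) = dl Q ∧ inc W P.1 = Q + Q := by
    intro u
    have h1 : IsCob W (fb hT ((u.1.1 : F))) := by
      rw [← hcl0 _ (hS u.1.1 u.1.2)]
      exact u.2
    obtain ⟨Q, hQ⟩ := isCob_iff.1 h1
    have h2 : fb hT ((u.1.1 : F)) + fb hT ((u.1.1 : F)) = 0 := by
      funext σ
      exact fb_two hT _ σ
    obtain ⟨P0, hP0⟩ := exists_inc (P := Q + Q) (by rw [dl_add, ← hQ, h2])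
    have h3 : dl (trc e (tp (gcC (F := F) A B) e Q)) = 0 := by
      rw [← co_dl, ← hQ, hco0]
    obtain ⟨ρ, hρ⟩ := exists_inc h3
    have h4 : T P0 = ρ + ρ := by
      apply inc_inj
      rw [hTr, hP0, map_add, trc_add, map_add, hρ]
    obtain ⟨s, hs⟩ := tr_mul hTr ρ
    rw [hm] at hs
    refine ⟨⟨(2 * m + 1) • P0 - (s + s), ?_⟩, (2 * m + 1) • Q - inc W s, ?_, ?_⟩
    · rw [AddMonoidHom.mem_ker, map_sub, map_nsmul, map_add, hs, h4, nsmul_add, sub_self]
    · rw [dl_sub, dl_nsmul, dl_inc, sub_zero, ← hQ, succ_nsmul, mul_comm, mul_nsmul, two_nsmul,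
        ← nsmul_add, h2, smul_zero, zero_add]
    · change inc W ((2 * m + 1) • P0 - (s + s)) = _
      rw [map_sub, map_nsmul, map_add, hP0, nsmul_add]
      abel
  choose Pu Qu hQu hPu using hpt
  have hker : ∀ u u' : Ψ.ker, (QuotientAddGroup.mk (Pu u) : T.ker ⧸
      (zsmulAddGroupHom (α := T.ker) 2).range) = QuotientAddGroup.mk (Pu u') →
      u.1.1⁻¹ * u'.1.1 ∈ Sq F := by
    intro u u' h
    rw [QuotientAddGroup.eq] at h
    obtain ⟨M, hM⟩ := h
    have hM' : (M : MP W) + (M : MP W) = -(Pu u).1 + (Pu u').1 := by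
      have h5 := congrArg Subtype.val hM
      refine Eq.trans ?_ h5
      change _ = (2 : ℤ) • (M : MP W)
      rw [two_zsmul]
    obtain ⟨R, hR⟩ : ∃ R, R = -Qu u + Qu u' - inc W M.1 := ⟨_, rfl⟩
    have hRR : R + R = 0 := by
      have h1 : inc W (M.1 + M.1) = -(Qu u + Qu u) + (Qu u' + Qu u') := by
        rw [hM', map_add, map_neg, hPu, hPu]
      rw [map_add] at h1
      rw [hR]
      have h2 : (-Qu u + Qu u' - inc W M.1) + (-Qu u + Qu u' - inc W M.1) =
          (-(Qu u + Qu u) + (Qu u' + Qu u')) - (inc W M.1 + inc W M.1) := by abel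
      rw [h2, h1, sub_self]
    have hdl : fb hT (((u.1.1⁻¹ * u'.1.1 : Fˣ) : F)) = dl R := by
      have e1 : ((u.1.1⁻¹ * u'.1.1 : Fˣ) : F) =
          ((u.1.1 : F) * (u'.1.1 : F)) * (((u.1.1⁻¹ : Fˣ) : F)) ^ 2 := by
        rw [Units.val_mul, Units.val_inv_eq_inv_val]
        have := u.1.1.ne_zero
        field_simp
      rw [e1, fb_add hT (mul_ne_zero u.1.1.ne_zero u'.1.1.ne_zero)
        (pow_ne_zero 2 (Units.ne_zero _)), fb_sq, add_zero, fb_add hT u.1.1.ne_zero u'.1.1.ne_zero,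
        hQu, hQu, hR, dl_sub, dl_add, dl_inc, sub_zero]
      congr 1
      have h3 : dl (Qu u) + dl (Qu u) = 0 := by
        rw [← hQu]
        funext σ
        exact fb_two hT _ σ
      have h4 : dl (-Qu u) + dl (Qu u) = 0 := by
        rw [← dl_add, neg_add_cancel, dl_zero]
      exact add_right_cancel (h3.trans h4.symm)
    obtain ⟨y, hy⟩ := sq_of_dl hB hD hodd (Units.ne_zero _)
      (hN _ (S2g.mul_mem (S2g.inv_mem u.1.2) u'.1.2)) hRR hdl
    have hy0 : y ≠ 0 := by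
      rintro rfl
      rw [zero_pow two_ne_zero] at hy
      exact (Units.ne_zero _) hy.symm
    exact ⟨Units.mk0 y hy0, Units.ext (by rw [powMonoidHom_apply, Units.val_pow_eq_pow_val]; exact hy)⟩
  -- the count
  have hle : (Sq F).subgroupOf S2g ≤ Ψ.ker := by
    intro u hu
    rw [Subgroup.mem_subgroupOf] at hu
    obtain ⟨y, hy⟩ := hu
    rw [MonoidHom.mem_ker, hΨ]
    change cl _ _ = 0
    rw [hcl0]
    have h1 : (u.1 : F) = (y : F) ^ 2 := by
      rw [← hy, powMonoidHom_apply, Units.val_pow_eq_pow_val]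
    have h2 : fb hT ((u.1 : F)) = 0 := by rw [h1]; exact fb_sq hT _
    rw [h2]
    exact (cob W).zero_mem
  have h1 := Subgroup.relIndex_mul_index hle
  have h2 : Nat.card (S2g.map (QuotientGroup.mk' (Sq F))) = ((Sq F).subgroupOf S2g).index := by
    have := Subgroup.relIndex_ker S2g (QuotientGroup.mk' (Sq F))
    rw [QuotientGroup.ker_mk'] at this
    exact this.symm
  have hcard := card_half hB hD hodd e hTr
  have hfinq : Finite (T.ker ⧸ (zsmulAddGroupHom (α := T.ker) 2).range) := by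
    apply Nat.finite_of_card_ne_zero
    rw [hcard]
    positivity
  have h3 : ((Sq F).subgroupOf S2g).relIndex Ψ.ker ≤ 2 ^ Module.finrank ℤ T.ker := by
    rw [← hcard]
    change Nat.card (Ψ.ker ⧸ ((Sq F).subgroupOf S2g).subgroupOf Ψ.ker) ≤ _
    refine Nat.card_le_card_of_injective (fun q : Ψ.ker ⧸ ((Sq F).subgroupOf S2g).subgroupOf Ψ.ker =>
      (QuotientAddGroup.mk (Pu q.out) : T.ker ⧸ (zsmulAddGroupHom (α := T.ker) 2).range)) ?_
    intro q q' h
    rw [← Quotient.out_eq q, ← Quotient.out_eq q']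
    apply (QuotientGroup.eq (s := ((Sq F).subgroupOf S2g).subgroupOf Ψ.ker)).2
    exact hker _ _ h
  rw [h2, ← h1, Subgroup.index_ker]
  exact Nat.mul_le_mul h3 himg

end

end Pool.Agent.N922
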