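import Pool.Agent.N922.P8

/-!
# Elements with even valuations and class groups
-/

set_option autoImplicit false
set_option linter.unusedSectionVars false

attribute [-instance] DivisionRing.toRatAlgebra

open NumberField IsDedekindDomain nonZeroDivisors

namespace Pool.Agent.N922

open Pool.Agent.Y682

section

variable {K : Type} [Field K] [NumberField K]

lemma sq_inj {I J : (FractionalIdeal (𝓞 K)⁰ K)ˣ} (h : I ^ 2 = J ^ 2) : I = J := by
  apply od_ext
  intro v
  have h1 := congrArg (od v) h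
  rw [od_pow, od_pow] at h1
  push_cast at h1
  linarith

lemma par_one' (v : HeightOneSpectrum (𝓞 K)) : par v (1 : Kˣ) = 0 := par_one v

variable (K)

/-- the elements with even valuations -/
def EV : Subgroup Kˣ where
  carrier := {b | ∀ v : HeightOneSpectrum (𝓞 K), par v b = 0}
  one_mem' := par_one'
  mul_mem' := by
    intro x y hx hy v
    rw [par_mul, hx v, hy v, add_zero]
  inv_mem' := by
    intro x hx v
    rw [par_inv, hx v]

/-- the units as elements of the field -/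
noncomputable def iU : (𝓞 K)ˣ →* Kˣ := Units.map (algebraMap (𝓞 K) K : 𝓞 K →* K)

/-- the class group -/
abbrev Cw : Type := (FractionalIdeal (𝓞 K)⁰ K)ˣ ⧸ prin K

variable {K}

lemma Sq_le_EV : Sq K ≤ EV K := by
  rintro _ ⟨y, rfl⟩ v
  rw [powMonoidHom_apply, pow_two, par_mul]
  have h : ∀ a : ZMod 2, a + a = 0 := by decide
  exact h _

variable (K) in
/-- the square root of the ideal -/
noncomputable def Jh : EV K →* (FractionalIdeal (𝓞 K)⁰ K)ˣ where
  toFun b := (exists_root b.2).choose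
  map_one' := by
    apply sq_inj
    rw [(exists_root (1 : EV K).2).choose_spec, one_pow]
    exact map_one _
  map_mul' := by
    intro x y
    apply sq_inj
    rw [(exists_root (x * y).2).choose_spec, mul_pow, (exists_root x.2).choose_spec,
      (exists_root y.2).choose_spec]
    exact map_mul _ _ _

lemma Jh_sq (b : EV K) : (Jh K b) ^ 2 = toPrincipalIdeal (𝓞 K) K b.1 :=
  (exists_root b.2).choose_spec

variable (K) in
/-- its class -/
noncomputable def chi : EV K →* Cw K := (QuotientGroup.mk' (prin K)).comp (Jh K)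

/-- the elements whose class is trivial -/
lemma chi_ker {b : EV K} (h : chi K b = 1) : ∃ (u : (𝓞 K)ˣ) (y : Kˣ), b.1 = iU K u * y ^ 2 := by
  have h1 : Jh K b ∈ prin K := by
    have h2 : QuotientGroup.mk' (prin K) (Jh K b) = 1 := h
    rwa [QuotientGroup.mk'_apply, QuotientGroup.eq_one_iff] at h2
  obtain ⟨y, hy⟩ := h1
  have h2 : toPrincipalIdeal (𝓞 K) K (b.1 * (y ^ 2)⁻¹) = 1 := by
    rw [map_mul, map_inv, map_pow, hy, Jh_sq, mul_inv_cancel]
  obtain ⟨u, hu⟩ := toPrincipal_val_one h2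
  refine ⟨u, y, ?_⟩
  have h3 : iU K u = b.1 * (y ^ 2)⁻¹ := Units.ext hu
  rw [h3, inv_mul_cancel_right]

lemma iU_EV (u : (𝓞 K)ˣ) : iU K u ∈ EV K := by
  intro v
  rw [par_eq_od]
  have h4 : toPrincipalIdeal (𝓞 K) K (iU K u) = 1 := by
    apply Units.ext
    rw [coe_toPrincipalIdeal, Units.val_one, ← FractionalIdeal.coeIdeal_top]
    have h5 : (Ideal.span {(u : 𝓞 K)} : Ideal (𝓞 K)) = ⊤ :=
      Ideal.span_singleton_eq_top.2 u.isUnit
    rw [← h5, FractionalIdeal.coeIdeal_span_singleton]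
    rfl
  rw [h4, od_one]
  rfl

lemma toP_iU (u : (𝓞 K)ˣ) : toPrincipalIdeal (𝓞 K) K (iU K u) = 1 := by
  apply Units.ext
  rw [coe_toPrincipalIdeal, Units.val_one, ← FractionalIdeal.coeIdeal_top]
  have h5 : (Ideal.span {(u : 𝓞 K)} : Ideal (𝓞 K)) = ⊤ :=
    Ideal.span_singleton_eq_top.2 u.isUnit
  rw [← h5, FractionalIdeal.coeIdeal_span_singleton]
  rfl

lemma chi_unit_sq (u : (𝓞 K)ˣ) (y : Kˣ) (h : iU K u * y ^ 2 ∈ EV K) :
    chi K ⟨iU K u * y ^ 2, h⟩ = 1 := by
  have h1 : Jh K ⟨iU K u * y ^ 2, h⟩ = toPrincipalIdeal (𝓞 K) K y := by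
    apply sq_inj
    rw [Jh_sq]
    change toPrincipalIdeal (𝓞 K) K (iU K u * y ^ 2) = _
    rw [map_mul, toP_iU, one_mul, map_pow]
  change QuotientGroup.mk' (prin K) (Jh K ⟨iU K u * y ^ 2, h⟩) = 1
  rw [h1, QuotientGroup.mk'_apply, QuotientGroup.eq_one_iff]
  exact ⟨y, rfl⟩

lemma iU_mem_Sq {u : (𝓞 K)ˣ} : iU K u ∈ Sq K ↔ u ∈ Esq K := by
  constructor
  · rintro ⟨y, hy⟩
    have h1 : (toPrincipalIdeal (𝓞 K) K y) ^ 2 = 1 ^ 2 := by
      rw [← map_pow, one_pow]
      have hy' : y ^ 2 = iU K u := hy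
      rw [hy', toP_iU]
    obtain ⟨w, hw⟩ := toPrincipal_val_one (sq_inj h1)
    refine ⟨w, ?_⟩
    apply Units.ext
    apply FaithfulSMul.algebraMap_injective (𝓞 K) K
    rw [powMonoidHom_apply, Units.val_pow_eq_pow_val, map_pow]
    have h2 := congrArg Units.val hy
    rw [powMonoidHom_apply, Units.val_pow_eq_pow_val] at h2
    rw [show algebraMap (𝓞 K) K (w : 𝓞 K) = (y : K) from hw]
    exact h2
  · rintro ⟨w, rfl⟩
    exact ⟨iU K w, by rw [powMonoidHom_apply, powMonoidHom_apply, map_pow]⟩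

/-- **the count of the classes with even valuations** -/
theorem card_ev (S : Subgroup Kˣ) (hS : S ≤ EV K) (hSq : Sq K ≤ S) :
    Nat.card (S.map (QuotientGroup.mk' (Sq K))) =
      (Esq K).relIndex (S.comap (iU K)) * Nat.card ((S.subgroupOf (EV K)).map (chi K)) := by
  set S' : Subgroup (EV K) := S.subgroupOf (EV K) with hS'
  set f : EV K →* Kˣ ⧸ Sq K := (QuotientGroup.mk' (Sq K)).comp (EV K).subtype with hf
  have hfk : f.ker = (Sq K).subgroupOf (EV K) := by
    ext b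
    rw [MonoidHom.mem_ker, Subgroup.mem_subgroupOf, hf]
    change QuotientGroup.mk' (Sq K) b.1 = 1 ↔ _
    rw [QuotientGroup.mk'_apply, QuotientGroup.eq_one_iff]
  have h1 : Nat.card (S.map (QuotientGroup.mk' (Sq K))) = f.ker.relIndex S' := by
    rw [hfk]
    have h := Subgroup.relIndex_ker S (QuotientGroup.mk' (Sq K))
    rw [QuotientGroup.ker_mk'] at h
    rw [← h, hS']
    exact (Subgroup.relIndex_subgroupOf hS).symm
  have hle1 : f.ker ≤ (chi K).ker ⊓ S' := by
    intro b hb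
    rw [hfk, Subgroup.mem_subgroupOf] at hb
    refine ⟨?_, ?_⟩
    · obtain ⟨y, hy⟩ := hb
      have hy' : b.1 = iU K 1 * y ^ 2 := by
        rw [map_one, one_mul]; exact hy.symm
      have hb' : b = ⟨iU K 1 * y ^ 2, hy' ▸ b.2⟩ := Subtype.ext hy'
      change chi K b = 1
      rw [hb']
      exact chi_unit_sq 1 y _
    · change b.1 ∈ S
      exact hSq hb
  have h2 := Subgroup.relIndex_mul_relIndex f.ker ((chi K).ker ⊓ S') S' hle1 inf_le_right
  rw [Subgroup.inf_relIndex_right, Subgroup.relIndex_ker S' (chi K)] at h2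
  rw [h1, ← h2]
  congr 1
  rw [Subgroup.relIndex_ker]
  set g : (𝓞 K)ˣ →* Kˣ ⧸ Sq K := (QuotientGroup.mk' (Sq K)).comp (iU K) with hg
  have hgk : g.ker = Esq K := by
    ext u
    rw [MonoidHom.mem_ker, hg, ← iU_mem_Sq]
    change QuotientGroup.mk' (Sq K) (iU K u) = 1 ↔ _
    rw [QuotientGroup.mk'_apply, QuotientGroup.eq_one_iff]
  rw [← hgk, Subgroup.relIndex_ker]
  congr 2
  ext q
  constructor
  · rintro ⟨b, ⟨hb1, hb2⟩, rfl⟩
    obtain ⟨u, y, hu⟩ := chi_ker (b := b) hb1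
    have hbS : b.1 ∈ S := hb2
    refine ⟨u, ?_, ?_⟩
    · change iU K u ∈ S
      have h3 : iU K u = b.1 * (y ^ 2)⁻¹ := by rw [hu, mul_inv_cancel_right]
      rw [h3]
      exact S.mul_mem hbS (S.inv_mem (hSq ⟨y, rfl⟩))
    · change QuotientGroup.mk' (Sq K) (iU K u) = QuotientGroup.mk' (Sq K) b.1
      rw [hu, QuotientGroup.mk'_apply, QuotientGroup.mk'_apply, quot_eq]
      exact ⟨y, rfl⟩
  · rintro ⟨u, hu, rfl⟩
    have huS : iU K u ∈ S := hu
    refine ⟨⟨iU K u, iU_EV u⟩, ⟨?_, huS⟩, rfl⟩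
    have h3 := chi_unit_sq u 1 (by rw [one_pow, mul_one]; exact iU_EV u)
    change chi K ⟨iU K u, iU_EV u⟩ = 1
    rw [← h3]
    congr 1
    exact Subtype.ext (by change iU K u = iU K u * 1 ^ 2; rw [one_pow, mul_one])

end

end Pool.Agent.N922
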