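import Pool.Agent.N922.P9

/-!
# Norms of the elements with even valuations
-/

set_option autoImplicit false
set_option linter.unusedSectionVars false

open NumberField IsDedekindDomain nonZeroDivisors

namespace Pool.Agent.N922

open Pool.Agent.Y682

section

variable {K : Type} [Field K] [NumberField K]

/-- the norm of a totally positive element is positive -/
lemma norm_pos_std {x : K} (h0 : x ≠ 0) (hx : TotPos x) : 0 < Algebra.norm ℚ x := by
  classical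
  have h1 := Algebra.norm_eq_prod_embeddings ℚ ℂ x
  let c : (K →ₐ[ℚ] ℂ) → (K →ₐ[ℚ] ℂ) := fun σ =>
    ((starRingEnd ℂ).comp (σ : K →+* ℂ)).toRatAlgHom
  have hc : ∀ σ y, c σ y = (starRingEnd ℂ) (σ y) := fun σ y => rfl
  have hne : ∀ σ : K →ₐ[ℚ] ℂ, σ x ≠ 0 := fun σ => (map_ne_zero σ).2 h0
  let f : (K →ₐ[ℚ] ℂ) → ℂ := fun σ => σ x / ((‖σ x‖ : ℝ) : ℂ)
  have hreal : ∀ σ, c σ = σ → f σ = 1 := by
    intro σ hσ
    have h2 : ComplexEmbedding.IsReal (σ : K →+* ℂ) := by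
      refine RingHom.ext fun y => ?_
      have := DFunLike.congr_fun hσ y
      exact this
    have h3 : 0 < h2.embedding x := hx _
    have h4 : ((h2.embedding x : ℝ) : ℂ) = σ x := h2.coe_embedding_apply x
    have h5 : ‖σ x‖ = h2.embedding x := by
      rw [← h4, Complex.norm_real, Real.norm_eq_abs, abs_of_pos h3]
    change σ x / ((‖σ x‖ : ℝ) : ℂ) = 1
    rw [h5, h4, div_self (hne σ)]
  have hf : ∀ σ, f σ * f (c σ) = 1 := by
    intro σ
    change σ x / ((‖σ x‖ : ℝ) : ℂ) * (c σ x / ((‖c σ x‖ : ℝ) : ℂ)) = 1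
    rw [hc, Complex.norm_conj, div_mul_div_comm, Complex.mul_conj, Complex.normSq_eq_norm_sq]
    have : ((‖σ x‖ : ℝ) : ℂ) ≠ 0 := by
      rw [Ne, Complex.ofReal_eq_zero, norm_eq_zero]
      exact hne σ
    push_cast
    field_simp
  have h2 : ∏ σ : K →ₐ[ℚ] ℂ, f σ = 1 := by
    refine Finset.prod_involution (fun σ _ => c σ) (fun σ _ => hf σ) (fun σ _ h => ?_)
      (fun σ _ => Finset.mem_univ _) (fun σ _ => ?_)
    · intro h'
      exact h (hreal σ h')
    · ext y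
      rw [hc, hc]
      exact Complex.conj_conj _
  have h3 : ∏ σ : K →ₐ[ℚ] ℂ, σ x = ((∏ σ : K →ₐ[ℚ] ℂ, ‖σ x‖ : ℝ) : ℂ) := by
    have h4 : ∏ σ : K →ₐ[ℚ] ℂ, σ x = (∏ σ : K →ₐ[ℚ] ℂ, f σ) * ∏ σ : K →ₐ[ℚ] ℂ, ((‖σ x‖ : ℝ) : ℂ) := by
      rw [← Finset.prod_mul_distrib]
      refine Finset.prod_congr rfl fun σ _ => ?_
      change σ x = σ x / ((‖σ x‖ : ℝ) : ℂ) * _
      rw [div_mul_cancel₀]
      rw [Ne, Complex.ofReal_eq_zero, norm_eq_zero]
      exact hne σ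
    rw [h4, h2, one_mul]
    push_cast
    rfl
  rw [h3] at h1
  have h5 : ((Algebra.norm ℚ x : ℚ) : ℝ) = ∏ σ : K →ₐ[ℚ] ℂ, ‖σ x‖ := by
    have h6 : algebraMap ℚ ℂ (Algebra.norm ℚ x) = (((Algebra.norm ℚ x : ℚ) : ℝ) : ℂ) := by
      simp
    rw [h6] at h1
    exact Complex.ofReal_injective h1
  have h6 : (0 : ℝ) < ((Algebra.norm ℚ x : ℚ) : ℝ) := by
    rw [h5]
    exact Finset.prod_pos fun σ _ => norm_pos_iff.2 (hne σ)
  exact_mod_cast h6

/-- the absolute value of the norm of an element with even valuations is a square -/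
lemma abs_norm_std (x : EV K) : ∃ q : ℚ, |Algebra.norm ℚ (x.1 : K)| = q ^ 2 := by
  refine ⟨FractionalIdeal.absNorm ((Jh K x : (FractionalIdeal (𝓞 K)⁰ K)ˣ) :
    FractionalIdeal (𝓞 K)⁰ K), ?_⟩
  have h1 := congrArg Units.val (Jh_sq x)
  rw [Units.val_pow_eq_pow_val, coe_toPrincipalIdeal] at h1
  rw [← map_pow, h1, FractionalIdeal.absNorm_span_singleton]

end

end Pool.Agent.N922
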