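import Pool.Agent.N922.PA

/-!
# The two groups of classes and their orders
-/

set_option autoImplicit false
set_option linter.unusedSectionVars false

attribute [-instance] DivisionRing.toRatAlgebra

open NumberField IsDedekindDomain nonZeroDivisors

namespace Pool.Agent.N922

open Pool.Agent.Y682

open Pool.Agent.R432 (U1 mem_U1 norm_unit norm_neg_one index_U1)

section

variable {F : Type} [Field F] [NumberField F] [Algebra ℚ F] [FiniteDimensional ℚ F]

lemma norm_std (x : F) :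
    @Algebra.norm ℚ F _ _ (DivisionRing.toRatAlgebra) x = Algebra.norm ℚ x := by
  congr 1
  exact congrArg (fun i => @Algebra.norm ℚ F _ _ i) (Subsingleton.elim _ _)

lemma norm_pos' {x : F} (h0 : x ≠ 0) (hx : TotPos x) : 0 < Algebra.norm ℚ x := by
  rw [← norm_std]
  exact norm_pos_std h0 hx

lemma abs_norm (x : EV F) : ∃ q : ℚ, |Algebra.norm ℚ (x.1 : F)| = q ^ 2 := by
  rw [← norm_std]
  exact abs_norm_std x

variable (F) in
/-- the elements with even valuations whose norm is a square -/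
noncomputable def EVn : Subgroup Fˣ where
  carrier := {b | b ∈ EV F ∧ ∃ r : ℚ, Algebra.norm ℚ (b : F) = r ^ 2}
  one_mem' := ⟨one_mem _, 1, by rw [Units.val_one, map_one, one_pow]⟩
  mul_mem' := by
    rintro x y ⟨hx, r, hr⟩ ⟨hy, s, hs⟩
    exact ⟨mul_mem hx hy, r * s, by rw [Units.val_mul, map_mul, hr, hs, mul_pow]⟩
  inv_mem' := by
    rintro x ⟨hx, r, hr⟩
    refine ⟨inv_mem hx, r⁻¹, ?_⟩
    have h1 : Algebra.norm ℚ (((x⁻¹ : Fˣ) : F)) * Algebra.norm ℚ (x : F) = 1 := by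
      rw [← map_mul, Units.inv_mul, map_one]
    rw [hr] at h1
    rw [inv_pow]
    exact eq_inv_of_mul_eq_one_left h1

lemma EVn_le : EVn F ≤ EV F := fun _ h => h.1

lemma Sq_le_EVn : Sq F ≤ EVn F := by
  rintro _ ⟨y, rfl⟩
  refine ⟨Sq_le_EV ⟨y, rfl⟩, Algebra.norm ℚ (y : F), ?_⟩
  rw [powMonoidHom_apply, Units.val_pow_eq_pow_val, map_pow]

lemma H0_le : H0 F ≤ EV F := fun _ h => h.2

lemma H0_le_EVn : H0 F ≤ EVn F := by
  intro x hx
  refine ⟨hx.2, ?_⟩
  obtain ⟨q, hq⟩ := abs_norm ⟨x, hx.2⟩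
  exact ⟨q, by rw [← hq, abs_of_pos (norm_pos' x.ne_zero hx.1)]⟩

lemma Sq_le_H0 : Sq F ≤ H0 F := by
  rintro _ ⟨y, rfl⟩
  refine ⟨fun φ => ?_, Sq_le_EV ⟨y, rfl⟩⟩
  rw [powMonoidHom_apply, Units.val_pow_eq_pow_val, map_pow]
  exact lt_of_le_of_ne (sq_nonneg _) (pow_ne_zero 2 ((map_ne_zero φ).2 y.ne_zero)).symm

/-- units of norm one modulo squares -/
lemma relIndex_U1' (hodd : Odd (Module.finrank ℚ F)) :
    (Esq F).relIndex (U1 F) = 2 ^ Units.rank F := by
  have hP := Pool.Agent.TeamU.index_sq (𝓞 F)ˣ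
  rw [Units.finrank_eq, card_two, ← pow_succ] at hP
  have hle : (powMonoidHom 2 : (𝓞 F)ˣ →* (𝓞 F)ˣ).range ≤ U1 F := by
    rintro _ ⟨w, rfl⟩
    rw [mem_U1, powMonoidHom_apply]
    have h1 : (((w ^ 2 : (𝓞 F)ˣ) : 𝓞 F) : F) = ((w : 𝓞 F) : F) ^ 2 := by
      rw [Units.val_pow_eq_pow_val]
      exact map_pow (algebraMap (𝓞 F) F) _ 2
    rw [h1, map_pow]
    rcases norm_unit w with h | h <;> rw [h] <;> norm_num
  have h1 := Subgroup.relIndex_mul_index hle
  rw [hP, index_U1 hodd] at h1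
  apply Nat.eq_of_mul_eq_mul_right (by norm_num : 0 < 2)
  change (powMonoidHom 2 : (𝓞 F)ˣ →* (𝓞 F)ˣ).range.relIndex (U1 F) * 2 = _
  rw [h1, ← pow_succ]

lemma comap_EVn : (EVn F).comap (iU F) = U1 F := by
  ext u
  rw [Subgroup.mem_comap, mem_U1]
  have e : ((iU F u : Fˣ) : F) = ((u : 𝓞 F) : F) := rfl
  constructor
  · rintro ⟨-, r, hr⟩
    rw [e] at hr
    rcases norm_unit u with h | h
    · exact h
    · exfalso
      rw [h] at hr
      nlinarith [sq_nonneg r]
  · intro h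
    exact ⟨iU_EV u, 1, by rw [e, h, one_pow]⟩

lemma comap_H0 : (H0 F).comap (iU F) = (sgU F).ker := by
  ext u
  rw [Subgroup.mem_comap, MonoidHom.mem_ker]
  constructor
  · intro h
    funext φ
    exact (sgU_apply u φ).2 (h.1 φ)
  · intro h
    exact ⟨fun φ => (sgU_apply u φ).1 (congrFun h φ), iU_EV u⟩

/-- the class of an element whose ideal is a square -/
lemma chi_eq {I : (FractionalIdeal (𝓞 F)⁰ F)ˣ} {x : Fˣ} (hx : x ∈ EV F)
    (h : toPrincipalIdeal (𝓞 F) F x = I ^ 2) : chi F ⟨x, hx⟩ = (I : Cw F) := by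
  have h1 : Jh F ⟨x, hx⟩ = I := by
    apply sq_inj
    rw [Jh_sq, h]
  change QuotientGroup.mk' (prin F) (Jh F ⟨x, hx⟩) = _
  rw [h1]
  rfl

lemma EV_of_sq {I : (FractionalIdeal (𝓞 F)⁰ F)ˣ} {x : Fˣ}
    (h : toPrincipalIdeal (𝓞 F) F x = I ^ 2) : x ∈ EV F := by
  intro v
  rw [par_eq_od, h, od_pow]
  push_cast
  have h3 : (2 : ZMod 2) = 0 := rfl
  rw [h3, zero_mul]

lemma image_EVn (hodd : Odd (Module.finrank ℚ F)) :
    ((EVn F).subgroupOf (EV F)).map (chi F) = tw (Cw F) := by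
  ext q
  constructor
  · rintro ⟨b, -, rfl⟩
    change (QuotientGroup.mk' (prin F) (Jh F b)) ^ 2 = 1
    rw [← map_pow, Jh_sq, QuotientGroup.mk'_apply, QuotientGroup.eq_one_iff]
    exact ⟨b.1, rfl⟩
  · intro hq
    induction q using QuotientGroup.induction_on with
    | H I =>
      have h1 : (I : Cw F) ^ 2 = 1 := hq
      rw [← QuotientGroup.mk_pow, QuotientGroup.eq_one_iff] at h1
      obtain ⟨x, hx⟩ := h1
      have hxE := EV_of_sq hx
      obtain ⟨r, hr⟩ := abs_norm ⟨x, hxE⟩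
      by_cases hpos : 0 ≤ Algebra.norm ℚ (x : F)
      · rw [abs_of_nonneg hpos] at hr
        refine ⟨⟨x, hxE⟩, ?_, chi_eq hxE hx⟩
        exact ⟨hxE, r, hr⟩
      · rw [abs_of_neg (not_le.1 hpos)] at hr
        have hx' : toPrincipalIdeal (𝓞 F) F (-x) = I ^ 2 := by
          have e : -x = iU F (-1) * x := by
            apply Units.ext
            rw [Units.val_neg, Units.val_mul]
            have : ((iU F (-1) : Fˣ) : F) = -1 := by
              change algebraMap (𝓞 F) F ((-1 : (𝓞 F)ˣ) : 𝓞 F) = -1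
              rw [Units.val_neg, Units.val_one, map_neg, map_one]
            rw [this, neg_one_mul]
          rw [e, map_mul, toP_iU, one_mul, hx]
        have hxE' := EV_of_sq hx'
        refine ⟨⟨-x, hxE'⟩, ?_, chi_eq hxE' hx'⟩
        refine ⟨hxE', r, ?_⟩
        change Algebra.norm ℚ ((-x : Fˣ) : F) = r ^ 2
        rw [Units.val_neg, norm_neg_one hodd, hr]

/-- **the order of the group of the first type** -/
theorem card_EVn (hodd : Odd (Module.finrank ℚ F)) :
    Nat.card ((EVn F).map (QuotientGroup.mk' (Sq F))) =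
      2 ^ Units.rank F * Nat.card (tw (Cw F)) := by
  rw [card_ev (EVn F) EVn_le Sq_le_EVn, comap_EVn, relIndex_U1' hodd, image_EVn hodd]

variable (F) in
/-- from the narrow class group to the class group -/
noncomputable def nc : NCl F →* Cw F := QuotientGroup.map _ _ (MonoidHom.id _) nPrin_le

lemma nc_ker : (nc F).ker = Pc F := by
  ext q
  induction q using QuotientGroup.induction_on with
  | H I =>
    rw [MonoidHom.mem_ker]
    have h1 : nc F (I : NCl F) = (I : Cw F) := rfl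
    rw [h1, QuotientGroup.eq_one_iff]
    constructor
    · intro h
      exact ⟨I, h, rfl⟩
    · rintro ⟨J, hJ, hJI⟩
      have h2 : (J : NCl F) = (I : NCl F) := hJI
      rw [QuotientGroup.eq] at h2
      have h3 := mul_mem hJ (nPrin_le h2)
      rwa [mul_inv_cancel_left] at h3

lemma image_H0 : ((H0 F).subgroupOf (EV F)).map (chi F) = (tw (NCl F)).map (nc F) := by
  ext q
  constructor
  · rintro ⟨b, hb, rfl⟩
    refine ⟨QuotientGroup.mk' (nPrin F) (Jh F b), ?_, rfl⟩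
    change (QuotientGroup.mk' (nPrin F) (Jh F b)) ^ 2 = 1
    rw [← map_pow, Jh_sq, QuotientGroup.mk'_apply, QuotientGroup.eq_one_iff]
    exact ⟨b.1, hb.1, rfl⟩
  · rintro ⟨p, hp, rfl⟩
    induction p using QuotientGroup.induction_on with
    | H I =>
      have h1 : (I : NCl F) ^ 2 = 1 := hp
      rw [← QuotientGroup.mk_pow, QuotientGroup.eq_one_iff] at h1
      obtain ⟨x, hxp, hx⟩ := h1
      have hxE := EV_of_sq hx
      exact ⟨⟨x, hxE⟩, ⟨hxp, hxE⟩, chi_eq hxE hx⟩

/-- **the order of the group of the second type** -/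
theorem card_H0 : Nat.card ((H0 F).map (QuotientGroup.mk' (Sq F))) =
    2 ^ InfinitePlace.nrComplexPlaces F * Nat.card (tw (NCl F)) := by
  rw [card_ev (H0 F) H0_le Sq_le_H0, comap_H0, image_H0, ← Subgroup.relIndex_ker, nc_ker, mul_comm]
  exact card_ident

/-- the class group -/
lemma card_tw_Cw : Nat.card (tw (Cw F)) = Nat.card {g : ClassGroup (𝓞 F) // g ^ 2 = 1} := by
  refine Nat.card_congr ?_
  refine ((ClassGroup.equiv (R := 𝓞 F) F).toEquiv.subtypeEquiv fun g => ?_).symm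
  change g ^ 2 = 1 ↔ (ClassGroup.equiv (R := 𝓞 F) F g) ^ 2 = 1
  rw [← map_pow, map_eq_one_iff _ (ClassGroup.equiv (R := 𝓞 F) F).injective]

end

end Pool.Agent.N922
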