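import Pool.Agent.N922.PB

/-!
# Counting the totally positive elements that are unramified at all the finite places
-/

set_option autoImplicit false
set_option linter.unusedSectionVars false

open NumberField IsDedekindDomain nonZeroDivisors

namespace Pool.Agent.N922

open Pool.Agent.TeamU Pool.Agent.TeamU.KI

open Pool.Agent.Y682

section

variable {K : Type} [Field K] [NumberField K]

/-- the counting argument for totally positive elements -/
theorem core (x : Kˣ) (hxp : TotPos (x : K)) [hF : Fact (∀ r : K, r ^ 2 ≠ (x : K) + 0 * r)]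
    (hunr : ∀ P : HeightOneSpectrum (𝓞 (QE (x : K))), Unr K P)
    (S : Finset (HeightOneSpectrum (𝓞 K))) (hcl : ClTriv S)
    (hp : ∀ v ∈ S, ¬ Splits (QE (x : K)) v → ∃ p : Kˣ, p ∈ SU S ∧ par v p = 1 ∧
      ∀ w ∈ S, ¬ Splits (QE (x : K)) w → w ≠ v → par w p = 0) : False := by
  classical
  have hherb := herbrand (finrank_QE (x : K)) S hcl fun P _ => hunr P
  set H := ((SE (QE (x : K)) S).unit (QE (x : K))).map
    (Units.map (Algebra.norm K : QE (x : K) →* K)) with hH
  have hne : H.relIndex (SU S) ≠ 0 := by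
    intro h
    rw [h, zero_mul] at hherb
    exact absurd hherb.symm (by positivity)
  set R := S.filter fun v => ¬ Splits (QE (x : K)) v with hR
  have hRS : R ⊆ S := Finset.filter_subset _ _
  obtain ⟨R', hR'1, hR'2⟩ := card_inf (x : K)
  have hR'0 : R'.card = 0 := by
    rw [Finset.card_eq_zero, Finset.eq_empty_iff_forall_notMem]
    intro w hw
    obtain ⟨φ, -, hneg⟩ := hR'1 w hw
    exact absurd (hxp φ) (not_lt.2 hneg.le)
  have hcount := count_SE (E := QE (x : K)) S R hRS (fun v hv hvR => by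
    by_contra hn
    exact hvR (Finset.mem_filter.2 ⟨hv, hn⟩))
  -- the family of elements
  have hp' : ∀ v : HeightOneSpectrum (𝓞 K), ∃ p : Kˣ, v ∈ R → p ∈ SU S ∧
      par v p = 1 ∧ ∀ w ∈ R, w ≠ v → par w p = 0 := by
    intro v
    by_cases hv : v ∈ R
    · obtain ⟨p, h2, h3, h4⟩ := hp v (hRS hv) (Finset.mem_filter.1 hv).2
      exact ⟨p, fun _ => ⟨h2, h3, fun w hw => h4 w (hRS hw) (Finset.mem_filter.1 hw).2⟩⟩
    · exact ⟨1, fun h => absurd h hv⟩
  choose p hpp using hp'
  let f : R.powerset → Kˣ := fun A => ∏ v ∈ A.1, p v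
  have hA1 : ∀ A : R.powerset, A.1 ⊆ R := fun A => Finset.mem_powerset.1 A.2
  have hfpar : ∀ (A : R.powerset), ∀ v ∈ R,
      par v (f A) = if v ∈ A.1 then 1 else 0 := by
    intro A v hv
    simp only [f]
    rw [par_prod]
    by_cases hvA : v ∈ A.1
    · rw [if_pos hvA, Finset.sum_eq_single v, (hpp v hv).2.1]
      · intro w hw hwv
        exact (hpp w (hA1 A hw)).2.2 v hv hwv.symm
      · intro h; exact absurd hvA h
    · rw [if_neg hvA]
      refine Finset.sum_eq_zero fun w hw => ?_
      exact (hpp w (hA1 A hw)).2.2 v hv (fun h => hvA (h ▸ hw))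
  have hfmem : ∀ A, f A ∈ SU S := by
    intro A
    refine Subgroup.prod_mem _ fun v hv => ?_
    exact (hpp v (hA1 A hv)).1
  have heven : ∀ v ∈ R, ∀ g ∈ H, par v g = 0 := by
    rintro v hv g ⟨α, _, rfl⟩
    obtain ⟨P, hP⟩ := exists_over' (E := QE (x : K)) v
    have h1 := norm_even (finrank_QE (x : K)) (Finset.mem_filter.1 hv).2 hP (hunr P) (α : QE (x : K))
    have h2 : par v (Units.map (Algebra.norm K : QE (x : K) →* K) α) =
      ((WithZero.log (v.valuation K (Algebra.norm K (α : QE (x : K)))) : ℤ) : ZMod 2) := rfl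
    rw [h2, h1, WithZero.log_pow, nsmul_eq_mul]
    push_cast
    have h3 : (2 : ZMod 2) = 0 := rfl
    rw [h3, zero_mul]
  have hinj : ∀ A B : R.powerset, A ≠ B → (f A)⁻¹ * f B ∉ H := by
    intro A B hAB hmem
    have h1 : A.1 ≠ B.1 := fun h => hAB (Subtype.ext h)
    obtain ⟨v, hv⟩ : ∃ v, ¬ (v ∈ A.1 ↔ v ∈ B.1) := by
      by_contra hcon
      push Not at hcon
      exact h1 (Finset.ext hcon)
    have hvR : v ∈ R := by
      by_contra hvR
      exact hv ⟨fun h3 => absurd ((Finset.mem_powerset.1 A.2) h3) hvR,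
        fun h3 => absurd ((Finset.mem_powerset.1 B.2) h3) hvR⟩
    have hc := heven v hvR _ hmem
    rw [par_mul, par_inv, hfpar A v hvR, hfpar B v hvR] at hc
    by_cases hvA : v ∈ A.1
    · have hvB : v ∉ B.1 := fun h4 => hv ⟨fun _ => h4, fun _ => hvA⟩
      rw [if_pos hvA, if_neg hvB] at hc
      exact absurd hc (by decide)
    · have hvB : v ∈ B.1 := by
        by_contra h4
        exact hv ⟨fun h5 => absurd h5 hvA, fun h5 => absurd h5 h4⟩
      rw [if_neg hvA, if_pos hvB] at hc
      exact absurd hc (by decide)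
  have hge := card_le_relIndex H (SU S) hne f hfmem hinj
  rw [Fintype.card_coe, Finset.card_powerset] at hge
  have h1 : 2 ^ (R.card + (Units.rank (QE (x : K)) + (SE (QE (x : K)) S).ncard)) ≤
      2 ^ (2 * (Units.rank K + S.card)) := by
    rw [← hherb, pow_add]
    exact Nat.mul_le_mul_right _ hge
  have h2 := (Nat.pow_le_pow_iff_right (by norm_num : 1 < 2)).mp h1
  have h3 : 0 < Fintype.card (InfinitePlace K) := Fintype.card_pos
  have h4 : 0 < Fintype.card (InfinitePlace (QE (x : K))) := Fintype.card_pos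
  unfold Units.rank at h2
  omega

end

end Pool.Agent.N922
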