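import Pool.Agent.N922.PC

/-!
# Counting the totally positive elements that are unramified at all the finite places, conclusion
-/

set_option autoImplicit false
set_option linter.unusedSectionVars false

open NumberField IsDedekindDomain nonZeroDivisors

namespace Pool.Agent.N922

open Pool.Agent.TeamU Pool.Agent.TeamU.KI

open Pool.Agent.Y682

section

variable {K : Type} [Field K] [NumberField K]

/-- a totally positive unramified element that splits at places generating the class group modulo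
squares is a square -/
theorem sq_of_split [Finite (Cw K)] (Q : Finset (HeightOneSpectrum (𝓞 K)))
    (hQ : ∀ g : Cw K, ∃ B ∈ Subgroup.closure (pI '' (Q : Set (HeightOneSpectrum (𝓞 K)))),
      ∃ h : Cw K, g = (B : Cw K) * h ^ 2) (x : Kˣ) (hxp : TotPos (x : K))
    (hx : ∀ v : HeightOneSpectrum (𝓞 K), UnrC (v.valuation K) (x : K))
    (hs : ∀ v ∈ Q, SplP v (x : K)) : ∃ y : Kˣ, y ^ 2 = x := by
  classical
  by_contra hns
  have hns' : ∀ r : K, r ^ 2 ≠ (x : K) + 0 * r := by
    intro r hr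
    rw [zero_mul, add_zero] at hr
    have hr0 : r ≠ 0 := by
      rintro rfl
      apply x.ne_zero
      rw [← hr]
      ring
    exact hns ⟨Units.mk0 r hr0, Units.ext (by simpa using hr)⟩
  have hF : Fact (∀ r : K, r ^ 2 ≠ (x : K) + 0 * r) := ⟨hns'⟩
  have hunr : ∀ P : HeightOneSpectrum (𝓞 (QE (x : K))), Unr K P := by
    intro P
    obtain ⟨v, hv⟩ := b2_exists_under (M := K) P
    exact unr_of_unrC (finrank_QE (x : K)) (hx v) QuadraticAlgebra.omega (omega_sq _)
      (omega_notin _) P hv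
  have hQs : ∀ v, ¬ Splits (QE (x : K)) v → v ∉ Q := by
    intro v hv hvQ
    exact hv (splits_of_splP (finrank_QE (x : K)) (hs v hvQ) QuadraticAlgebra.omega (omega_sq _)
      (omega_notin _))
  -- the representatives
  have := Fintype.ofFinite (Cw K)
  obtain ⟨J, hJ⟩ : ∃ J : Cw K → (FractionalIdeal (𝓞 K)⁰ K)ˣ, ∀ h, (J h : Cw K) = h :=
    ⟨fun h => h.out, fun h => Quotient.out_eq h⟩
  set S0 : Finset (HeightOneSpectrum (𝓞 K)) := Q ∪ Finset.univ.biUnion
    (fun h : Cw K => (od_fin (J h)).toFinset) with hS0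
  obtain ⟨S, hS, hcl⟩ := exists_clTriv (M := K) S0
  have hQS : Q ⊆ S := Finset.subset_union_left.trans hS
  have hJS : ∀ (h : Cw K) (w : HeightOneSpectrum (𝓞 K)), w ∉ S → od w (J h) = 0 := by
    intro h w hw
    by_contra h1
    apply hw
    apply hS
    rw [hS0, Finset.mem_union, Finset.mem_biUnion]
    exact Or.inr ⟨h, Finset.mem_univ _, (Set.Finite.mem_toFinset _).2 h1⟩
  -- the generation
  have key : ∀ I : (FractionalIdeal (𝓞 K)⁰ K)ˣ, ∃ (y : Kˣ) (h : Cw K)
      (B : (FractionalIdeal (𝓞 K)⁰ K)ˣ),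
      B ∈ Subgroup.closure (pI '' (Q : Set (HeightOneSpectrum (𝓞 K)))) ∧
      I = toPrincipalIdeal (𝓞 K) K y * (B * (J h) ^ 2) := by
    intro I
    obtain ⟨B, hB, h, hg⟩ := hQ (I : Cw K)
    have h1 : ((B * (J h) ^ 2 : (FractionalIdeal (𝓞 K)⁰ K)ˣ) : Cw K) = (I : Cw K) := by
      rw [QuotientGroup.mk_mul, QuotientGroup.mk_pow, hJ, hg]
    rw [QuotientGroup.eq] at h1
    obtain ⟨y, hyI⟩ := h1
    refine ⟨y, h, B, hB, ?_⟩
    rw [hyI, mul_comm (B * (J h) ^ 2)⁻¹, inv_mul_cancel_right]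
  refine core x hxp hunr S hcl ?_
  intro v hv hvs
  obtain ⟨y, h, B, hB, hI⟩ := key (pI v)
  have hod : ∀ w, w ∉ Q → od w (pI v) = od w (toPrincipalIdeal (𝓞 K) K y) + 2 * od w (J h) := by
    intro w hw
    rw [hI, od_mul, od_mul, od_closure (fun h => hw h) hB, od_pow]
    push_cast
    ring
  have hpar : ∀ w, w ∉ Q → par w y = ((od w (pI v) : ℤ) : ZMod 2) := by
    intro w hw
    rw [par_eq_od, hod w hw]
    push_cast
    have h3 : (2 : ZMod 2) = 0 := rfl
    rw [h3, zero_mul, add_zero]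
  refine ⟨y, mem_SU fun w hw => ?_, ?_, ?_⟩
  · have h1 := hod w (fun h => hw (hQS h))
    have hvw : v ≠ w := by
      rintro rfl
      exact hw hv
    rw [hJS h w hw, mul_zero, add_zero, od_pI_ne hvw] at h1
    exact h1.symm
  · rw [hpar v (hQs v hvs), od_pI_self]
    rfl
  · intro w hw hws hwv
    rw [hpar w (hQs w hws), od_pI_ne hwv.symm]
    rfl

instance finite_Cw : Finite (Cw K) :=
  Finite.of_equiv _ (ClassGroup.equiv (R := 𝓞 K) K).toEquiv

/-- few places generate the class group modulo squares -/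
lemma exists_Q : ∃ Q : Finset (HeightOneSpectrum (𝓞 K)),
    2 ^ Q.card ≤ Nat.card (tw (Cw K)) ∧
    ∀ g : Cw K, ∃ B ∈ Subgroup.closure (pI '' (Q : Set (HeightOneSpectrum (𝓞 K)))),
      ∃ h : Cw K, g = (B : Cw K) * h ^ 2 := by
  classical
  let N : Subgroup (Cw K) := sqs (Cw K)
  have hN : N.Normal := ⟨fun n hn g => by
    rw [mul_comm g n, mul_inv_cancel_right]
    exact hn⟩
  let π : (FractionalIdeal (𝓞 K)⁰ K)ˣ →* (Cw K ⧸ N) :=
    (QuotientGroup.mk' N).comp (QuotientGroup.mk' (prin K))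
  have hπ : Function.Surjective π :=
    (QuotientGroup.mk'_surjective N).comp (QuotientGroup.mk'_surjective (prin K))
  have hcl : Subgroup.closure (Set.range fun v : HeightOneSpectrum (𝓞 K) => π (pI v)) = ⊤ := by
    have h1 : (Subgroup.closure (Set.range fun v : HeightOneSpectrum (𝓞 K) => π (pI v))).comap π =
        ⊤ := mem_of_pI _ fun v => Subgroup.subset_closure ⟨v, rfl⟩
    rw [← Subgroup.map_comap_eq_self_of_surjective hπ
      (Subgroup.closure (Set.range fun v : HeightOneSpectrum (𝓞 K) => π (pI v))), h1,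
      ← MonoidHom.range_eq_map, MonoidHom.range_eq_top.2 hπ]
  obtain ⟨t, hts, htop, hcard⟩ := small_gen _ hcl
  choose q hq using fun x : {x // x ∈ t} => hts x.2
  refine ⟨t.attach.image q, ?_, ?_⟩
  · rw [← index_sq_fin]
    refine (Nat.pow_le_pow_right (by norm_num) Finset.card_image_le).trans ?_
    rw [Finset.card_attach]
    exact hcard
  · intro g
    have h1 : Subgroup.closure (t : Set (Cw K ⧸ N)) ≤ (Subgroup.closure
        (pI '' ((t.attach.image q : Finset (HeightOneSpectrum (𝓞 K))) :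
          Set (HeightOneSpectrum (𝓞 K))))).map π := by
      rw [Subgroup.closure_le]
      intro x hx
      refine ⟨pI (q ⟨x, hx⟩), Subgroup.subset_closure ⟨q ⟨x, hx⟩, ?_, rfl⟩, hq ⟨x, hx⟩⟩
      rw [Finset.mem_coe]
      exact Finset.mem_image_of_mem _ (Finset.mem_attach _ _)
    rw [htop] at h1
    obtain ⟨B, hB, hBg⟩ := h1 (Subgroup.mem_top (QuotientGroup.mk' N g))
    refine ⟨B, hB, ?_⟩
    have h2 : QuotientGroup.mk' N (B : Cw K) = QuotientGroup.mk' N g := hBg
    rw [QuotientGroup.mk'_apply, QuotientGroup.mk'_apply, QuotientGroup.eq] at h2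
    obtain ⟨h, hh⟩ := h2
    refine ⟨h, ?_⟩
    have h3 : h ^ 2 = (B : Cw K)⁻¹ * g := hh
    rw [h3, mul_inv_cancel_left]

variable (K) in
/-- the totally positive elements that are unramified at all the finite places -/
def V0p : Subgroup Kˣ where
  carrier := {b | TotPos (b : K) ∧ b ∈ V0 K}
  one_mem' := ⟨fun φ => by rw [Units.val_one, map_one]; exact one_pos, one_mem _⟩
  mul_mem' := by
    rintro x y ⟨hx, hx'⟩ ⟨hy, hy'⟩
    exact ⟨fun φ => by rw [Units.val_mul, map_mul]; exact mul_pos (hx φ) (hy φ), mul_mem hx' hy'⟩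
  inv_mem' := by
    rintro x ⟨hx, hx'⟩
    exact ⟨fun φ => by rw [Units.val_inv_eq_inv_val, map_inv₀]; exact inv_pos.2 (hx φ),
      inv_mem hx'⟩

/-- **the bound for the group of the everywhere unramified classes** -/
theorem card_V0p : Finite ((V0p K).map (QuotientGroup.mk' (Sq K))) ∧
    Nat.card ((V0p K).map (QuotientGroup.mk' (Sq K))) ≤ Nat.card (tw (Cw K)) := by
  classical
  obtain ⟨Q, hQc, hQ⟩ := exists_Q (K := K)
  have hb : ∀ q : (V0p K).map (QuotientGroup.mk' (Sq K)), ∃ b : Kˣ, b ∈ V0p K ∧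
    QuotientGroup.mk' (Sq K) b = q.1 := fun q => q.2
  choose b hb1 hb2 using hb
  let F : (V0p K).map (QuotientGroup.mk' (Sq K)) → (Q → Prop) := fun q v => SplP v.1 (b q : K)
  have hF : Function.Injective F := by
    intro q q' h
    have h1 : ∃ y : Kˣ, y ^ 2 = b q * b q' := by
      refine sq_of_split Q hQ (b q * b q') (fun φ => ?_) (fun v => ?_) (fun v hv => ?_)
      · rw [Units.val_mul, map_mul]
        exact mul_pos ((hb1 q).1 φ) ((hb1 q').1 φ)
      · rw [Units.val_mul]
        exact ((hb1 q).2 v).mul ((hb1 q').2 v)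
      · rw [Units.val_mul]
        have h2 : SplP v (b q : K) = SplP v (b q' : K) := congrFun h ⟨v, hv⟩
        by_cases h3 : SplP v (b q : K)
        · exact h3.sq_of_both (h2 ▸ h3)
        · exact SplP.sq_of_none ((hb1 q).2 v) ((hb1 q').2 v) h3 (h2 ▸ h3)
    obtain ⟨y, hy⟩ := h1
    apply Subtype.ext
    rw [← hb2 q, ← hb2 q', QuotientGroup.mk'_apply, QuotientGroup.mk'_apply, QuotientGroup.eq]
    refine ⟨y * (b q)⁻¹, ?_⟩
    rw [powMonoidHom_apply, mul_pow, hy, inv_pow, pow_two, mul_inv]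
    rw [mul_comm (b q) (b q'), mul_assoc, mul_inv_cancel_left, mul_comm]
  refine ⟨Finite.of_injective F hF, (Nat.card_le_card_of_injective F hF).trans ?_⟩
  refine le_trans (le_of_eq ?_) hQc
  rw [Nat.card_fun, Nat.card_eq_fintype_card (α := Q), Fintype.card_coe]
  congr 1
  rw [Nat.card_congr Equiv.propEquivBool, Nat.card_eq_fintype_card, Fintype.card_bool]

end

end Pool.Agent.N922
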