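import Pool.Agent.N922.PD
import Pool.Agent.N922.P4

/-!
# Twisted places, and the global statement including them
-/

set_option autoImplicit false
set_option linter.unusedSectionVars false

attribute [-instance] DivisionRing.toRatAlgebra

open NumberField IsDedekindDomain

namespace Pool.Agent.N922

open WeierstrassCurve

open Pool.Agent.TH841.SH.D (Pt act Gal Coch IsCoc IsCob LocTriv cob)

open Pool.Agent.Y682

open Pool.Agent.R432

section

variable {F : Type} [Field F] [NumberField F] [Algebra ℚ F] [FiniteDimensional ℚ F] {a c : ℤ}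
  {hT : IsT (gc (-2 * a) (a ^ 2 - 64 * c) F) ((-2 * a : ℤ) : F) ((a ^ 2 - 64 * c : ℤ) : F)}

/-- a place at which the curve is a twist of a special form -/
lemma loc_tw (hc : c ≠ 0) {v : HeightOneSpectrum (𝓞 F)}
    (h2 : (2 : 𝓞 F) ∉ v.asIdeal) (h : Tw v (a : F) ((16 * c : ℤ) : F)) {β : 𝓞 F}
    (hβ : β ∉ v.asIdeal) :
    LocTriv _ (v.adicCompletion F) (fb hT (β : F)) := by
  have hvp := v.isPrime
  have : v.asIdeal.IsMaximal := v.isMaximal
  let _ : Field (𝓞 F ⧸ v.asIdeal) := Ideal.Quotient.field v.asIdeal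
  have hfin : Finite (𝓞 F ⧸ v.asIdeal) := Ideal.finiteQuotientOfFreeOfNeBot v.asIdeal v.ne_bot
  have h20 : (2 : 𝓞 F ⧸ v.asIdeal) ≠ 0 := by
    intro h
    apply h2
    rw [← Ideal.Quotient.eq_zero_iff_mem, map_ofNat]
    exact h
  by_cases hus : IsSquare ((Ideal.Quotient.mk v.asIdeal) β)
  · obtain ⟨z', hz'⟩ := hus
    obtain ⟨z, rfl⟩ := Ideal.Quotient.mk_surjective z'
    have h5 : β - z ^ 2 ∈ v.asIdeal := by
      rw [← Ideal.Quotient.eq_zero_iff_mem, map_sub, hz', map_pow]
      ring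
    have hz : z ∉ v.asIdeal := by
      intro hz
      apply hβ
      have e : β = (β - z ^ 2) + z * z := by ring
      rw [e]
      exact add_mem h5 (v.asIdeal.mul_mem_right _ hz)
    obtain ⟨t, ht⟩ := sq_of_res v h2 hz h5
    exact fb_loc_sq hT ht
  · obtain ⟨-, d, α, γ, hd, hA, hB, hα, hγ, hγn, -⟩ := h
    obtain ⟨g, hg⟩ := exists_int_approx v (algebraMap F _ γ) (by rw [vv_coe]; exact hγ)
    have hgs : ¬ IsSquare ((Ideal.Quotient.mk v.asIdeal) g) := by
      rintro ⟨z', hz'⟩
      obtain ⟨z, rfl⟩ := Ideal.Quotient.mk_surjective z'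
      have h5 : g - z ^ 2 ∈ v.asIdeal := by
        rw [← Ideal.Quotient.eq_zero_iff_mem, map_sub, hz', map_pow]
        ring
      have h6 := hγn (z : F) (v.valuation_le_one z)
      have h7 : vv v (algebraMap F _ ((z : F) ^ 2 - γ)) = 1 := by rw [vv_coe]; exact h6
      have h8 := vv_in h5
      have e : algebraMap F (v.adicCompletion F) ((z : F) ^ 2 - γ) =
          (algebraMap F _ (algebraMap (𝓞 F) F g) - algebraMap F _ γ) -
          algebraMap F _ ((g - z ^ 2 : 𝓞 F) : F) := by
        have e1 : ((g - z ^ 2 : 𝓞 F) : F) = algebraMap (𝓞 F) F g - (z : F) ^ 2 := by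
          push_cast; rfl
        rw [e1, map_sub, map_sub]
        ring
      rw [e] at h7
      have h9 := (Valuation.map_sub (vv v) (algebraMap F _ (algebraMap (𝓞 F) F g) - algebraMap F _ γ)
        (algebraMap F (v.adicCompletion F) ((g - z ^ 2 : 𝓞 F) : F)))
      rw [h7] at h9
      exact absurd (h9.trans_lt (max_lt hg h8)) (lt_irrefl _)
    obtain ⟨z', hz'⟩ := nonsq_mul h20 hus hgs
    obtain ⟨z, rfl⟩ := Ideal.Quotient.mk_surjective z'
    have h5 : β * g - z ^ 2 ∈ v.asIdeal := by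
      rw [← Ideal.Quotient.eq_zero_iff_mem, map_sub, map_mul, hz', map_pow]
      ring
    have hgv : g ∉ v.asIdeal := by
      intro hg0
      apply hgs
      rw [Ideal.Quotient.eq_zero_iff_mem.2 hg0]
      exact IsSquare.zero
    have hz : z ∉ v.asIdeal := by
      intro hz
      have e : β * g = (β * g - z ^ 2) + z * z := by ring
      have h6 : β * g ∈ v.asIdeal := by
        rw [e]
        exact add_mem h5 (v.asIdeal.mul_mem_right _ hz)
      rcases hvp.mem_or_mem h6 with h7 | h7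
      · exact hβ h7
      · exact hgv h7
    obtain ⟨τ, hτ⟩ := exists_sqrt' v (x := algebraMap F _ ((β : F) * γ))
      (y := algebraMap F _ (z : F)) ((map_ne_zero _).2 (ne_of_out hz)) (by
        rw [vv_four h2, one_mul, vv_out hz, one_pow]
        have e : algebraMap F (v.adicCompletion F) ((β : F) * γ) -
            algebraMap F (v.adicCompletion F) (z : F) ^ 2 =
            algebraMap F _ ((β * g - z ^ 2 : 𝓞 F) : F) -
            algebraMap F _ (β : F) * (algebraMap F _ (algebraMap (𝓞 F) F g) - algebraMap F _ γ) := by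
          have e1 : ((β * g - z ^ 2 : 𝓞 F) : F) =
              algebraMap (𝓞 F) F β * algebraMap (𝓞 F) F g - (z : F) ^ 2 := by
            push_cast; rfl
          rw [e1, map_sub, map_mul, map_mul, map_pow]
          ring
        rw [e]
        refine (Valuation.map_sub _ _ _).trans_lt (max_lt (vv_in h5) ?_)
        rw [map_mul, vv_out hβ, one_mul]
        exact hg)
    refine loc_tors h2 (ne_of_out hβ) hc (t := algebraMap F _ d * τ) ?_
    have e2 : (16 : v.adicCompletion F) * (c : v.adicCompletion F) =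
        algebraMap F _ (((16 * c : ℤ)) : F) := by
      rw [map_intCast]
      push_cast
      ring
    rw [e2, hB, mul_pow, hτ, map_mul, map_mul, map_pow]
    ring

/-- **the classes with even valuations are locally trivial** -/
theorem sha_ev' (ha : a % 4 = 1) (hc : c ≠ 0) (hD : a ^ 2 - 64 * c ≠ 0)
    (hodd : Odd (Module.finrank ℚ F))
    (hbad : ∀ v : HeightOneSpectrum (𝓞 F), (2 : 𝓞 F) ∉ v.asIdeal →
      (Un v ∨ Tw v (a : F) ((16 * c : ℤ) : F)) ∨
        ((c : 𝓞 F) ∉ v.asIdeal ∧ ((a ^ 2 - 64 * c : ℤ) : 𝓞 F) ∉ v.asIdeal))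
    {b : F} (hb : b ≠ 0) (hev : ∀ v : HeightOneSpectrum (𝓞 F), ∃ n : ℤ,
      v.valuation F b = WithZero.exp (2 * n)) (hr : ∃ r : ℚ, Algebra.norm ℚ b = r ^ 2)
    (hinf : TotPos b ∨ c < 0 ∨ (0 < a ∧ 64 * c < a ^ 2)) :
    Pool.Agent.TH841.NF.D.IsShaCoc (gc (-2 * a) (a ^ 2 - 64 * c) F) (fb hT b) := by
  refine ⟨fb_coc hT _, fun v => ?_, fun v => ?_⟩
  · obtain ⟨β, y, hβ, hy, hby⟩ := rep_at v hb (hev v)
    have hβ0 := ne_of_out hβ
    have e : fb hT b = fb hT (β : F) := by
      rw [hby, fb_add hT hβ0 (pow_ne_zero 2 hy), fb_sq, add_zero]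
    rw [e]
    by_cases h2 : (2 : 𝓞 F) ∈ v.asIdeal
    · exact loc_two ha hβ h2
    · rcases hbad v h2 with (h | h) | ⟨h3, h4⟩
      · refine loc_un hodd h2 h hβ ?_
        obtain ⟨r, hr⟩ := hr
        have hy0 : Algebra.norm ℚ y ≠ 0 := by
          rw [Ne, Algebra.norm_eq_zero_iff]; exact hy
        refine ⟨r / Algebra.norm ℚ y, ?_⟩
        rw [div_pow, ← hr, hby, map_mul, map_pow]
        field_simp
      · exact loc_tw hc h2 h hβ
      · exact loc_good h2 h3 h4 hβ
  · rcases hinf with h | h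
    · exact loc_pos v h
    · exact loc_inf hb h v

end

end Pool.Agent.N922
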