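import Pool.Agent.N922.PE

/-!
# The local conditions give the two groups
-/

set_option autoImplicit false
set_option linter.unusedSectionVars false

attribute [-instance] DivisionRing.toRatAlgebra

open NumberField IsDedekindDomain

namespace Pool.Agent.N922

open WeierstrassCurve

open Pool.Agent.Y682

open Pool.Agent.R432.CX (L1_dualC L2_dualC unEven second_unrC first_PE)

section

variable {F : Type} [Field F] [NumberField F] [Algebra ℚ F] [FiniteDimensional ℚ F] {a c : ℤ}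

/-- the condition at the places -/
def HV (F : Type) [Field F] [NumberField F] (a c : ℤ) : Prop :=
  ∀ v : HeightOneSpectrum (𝓞 F), (Un v ∨ Tw v (a : F) ((16 * c : ℤ) : F)) ∨
    (v.valuation F (c : F) = 1 ∧ v.valuation F ((a ^ 2 - 64 * c : ℤ) : F) = 1)

lemma HV.bad (h : HV F a c) (v : HeightOneSpectrum (𝓞 F)) (_ : (2 : 𝓞 F) ∉ v.asIdeal) :
    (Un v ∨ Tw v (a : F) ((16 * c : ℤ) : F)) ∨
      ((c : 𝓞 F) ∉ v.asIdeal ∧ ((a ^ 2 - 64 * c : ℤ) : 𝓞 F) ∉ v.asIdeal) := by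
  rcases h v with h | ⟨h1, h2⟩
  · exact Or.inl h
  · refine Or.inr ⟨?_, ?_⟩
    · rw [← HeightOneSpectrum.valuation_eq_one_iff_notMem (K := F), map_intCast]
      exact h1
    · rw [← HeightOneSpectrum.valuation_eq_one_iff_notMem (K := F), map_intCast]
      exact h2

/-- from the condition at the bad primes -/
lemma HV.of (hc : c ≠ 0) (hD : a ^ 2 - 64 * c ≠ 0)
    (hbad : ∀ p : ℕ, p.Prime → (p : ℤ) ∣ c * (a ^ 2 - 64 * c) → BadOK' F a c p) : HV F a c := by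
  have hb : ∀ {p : ℕ} (_ : p.Prime) (_ : BadOK' F a c p) {v : HeightOneSpectrum (𝓞 F)}
      (_ : (p : 𝓞 F) ∈ v.asIdeal), Un v ∨ Tw v (a : F) ((16 * c : ℤ) : F) := by
    intro p hp h v hv
    rcases h with h | ⟨h2, d, α, γ, hd, hA, hB, h⟩
    · exact Or.inl ⟨p, hp, hv, fun w hw => (h v w hv hw).symm⟩
    · exact Or.inr (Tw.of_int' (Pool.Agent.R432.CX.two_notMemC hp h2 hv) hd hA hB
        (fun x => (h v hv x).1) fun x => (h v hv x).2)
  intro v
  by_cases h1 : v.valuation F (c : F) = 1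
  · by_cases h2 : v.valuation F ((a ^ 2 - 64 * c : ℤ) : F) = 1
    · exact Or.inr ⟨h1, h2⟩
    · obtain ⟨p, hp, hpc, hpv⟩ := exists_prime v _ hD h2
      exact Or.inl (hb hp (hbad p hp (hpc.mul_left _)) hpv)
  · obtain ⟨p, hp, hpc, hpv⟩ := exists_prime v _ hc h1
    exact Or.inl (hb hp (hbad p hp (hpc.mul_right _)) hpv)

lemma gdv (ha : a % 4 = 1) (v : HeightOneSpectrum (𝓞 F)) :
    Gd v (a : F) ((16 * c : ℤ) : F) (c : F) := by
  obtain ⟨k, rfl⟩ : ∃ k : ℤ, a = 1 + 4 * k := ⟨a / 4, by omega⟩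
  exact ⟨1, k, by push_cast; ring, (map_one _).le, val_int_le v k, by push_cast; ring,
    val_int_le v c⟩

/-- the first class -/
lemma mem_V0 (ha : a % 4 = 1) (hodd : Odd (Module.finrank ℚ F)) (hv : HV F a c) (b : Fˣ)
    (hr : ∃ r : ℚ, Algebra.norm ℚ (b : F) = r ^ 2)
    (hL : L1 (-2 * a) (a ^ 2 - 64 * c) (b : F)) : b ∈ V0 F := by
  intro v
  have e0 : a ^ 2 - 64 * c = a ^ 2 - 4 * (16 * c) := by ring
  rw [e0] at hL
  refine second_unrC hodd v ?_ b hr (L1_dualC hL)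
  by_cases h2 : (2 : 𝓞 F) ∈ v.asIdeal
  · right
    refine ⟨_, gdv ha v, ?_⟩
    rw [← map_intCast (algebraMap (𝓞 F) F), HeightOneSpectrum.valuation_eq_one_iff_notMem]
    intro h7
    apply v.isPrime.ne_top
    rw [Ideal.eq_top_iff_one]
    obtain ⟨k, rfl⟩ : ∃ k : ℤ, a = 1 + 4 * k := ⟨a / 4, by omega⟩
    have e : (1 : 𝓞 F) = (((1 + 4 * k) ^ 2 - 4 * (16 * c) : ℤ) : 𝓞 F) -
        2 * ((4 * k + 8 * k ^ 2 - 32 * c : ℤ) : 𝓞 F) := by
      push_cast; ring
    rw [e]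
    exact sub_mem h7 (v.asIdeal.mul_mem_right _ h2)
  · rcases hv v with h | ⟨h, h'⟩
    · exact Or.inl ⟨h2, h⟩
    · refine Or.inr ⟨_, gdv ha v, ?_⟩
      rw [← e0]
      exact h'

lemma pos_cubic {a c m y : ℝ} (h : c < 0 ∨ (0 < a ∧ 64 * c < a ^ 2)) (hm : m ≠ 0)
    (hy : y ^ 2 = m * ((m - a) ^ 2 - 64 * c)) : 0 < m := by
  by_contra h1
  have hm' : m < 0 := lt_of_le_of_ne (not_lt.1 h1) hm
  have h2 : 0 < (m - a) ^ 2 - 64 * c := by
    rcases h with h | ⟨h, h'⟩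
    · nlinarith [sq_nonneg (m - a)]
    · nlinarith
  have h3 : m * ((m - a) ^ 2 - 64 * c) < 0 := mul_neg_of_neg_of_pos hm' h2
  nlinarith [sq_nonneg y]

/-- the first class is totally positive in the first case -/
lemma pos_first (h : c < 0 ∨ (0 < a ∧ 64 * c < a ^ 2)) (b : Fˣ)
    (hL : L1 (-2 * a) (a ^ 2 - 64 * c) (b : F)) : TotPos (b : F) := by
  intro φ
  have e0 : a ^ 2 - 64 * c = a ^ 2 - 4 * (16 * c) := by ring
  rw [e0] at hL
  have hL2 := L1_dualC hL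
  obtain ⟨v, Θ, hΘ⟩ := exists_real φ
  obtain ⟨z, m, hz, hzm, hm⟩ := hL2.2 v
  have h1 : φ b * Θ z ^ 2 = Θ m := by
    rw [← hΘ, ← map_pow, ← map_mul, hzm]
  have hz2 : 0 < Θ z ^ 2 := lt_of_le_of_ne (sq_nonneg _)
    (pow_ne_zero 2 ((map_ne_zero Θ).2 hz)).symm
  have hc' : (c : ℝ) < 0 ∨ (0 < (a : ℝ) ∧ 64 * (c : ℝ) < (a : ℝ) ^ 2) := by
    rcases h with h | ⟨h, h'⟩
    · left; exact_mod_cast h
    · right; exact ⟨by exact_mod_cast h, by exact_mod_cast h'⟩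
  have hm0 : 0 < Θ m := by
    rcases hm with h' | h' | ⟨h', y, hy⟩
    · rw [h', map_one]; exact one_pos
    · rw [h', map_sub, map_pow, map_mul, map_intCast, map_intCast]
      rw [map_ofNat]
      push_cast
      rcases hc' with h | ⟨h, h''⟩
      · nlinarith [sq_nonneg (a : ℝ)]
      · linarith
    · refine pos_cubic hc' ((map_ne_zero Θ).2 h') (y := Θ y) ?_
      rw [← map_pow, hy, map_mul, map_sub, map_pow, map_sub, map_mul, map_intCast, map_intCast,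
        map_ofNat]
      push_cast
      ring
  rw [← h1] at hm0
  exact (pos_iff_pos_of_mul_pos hm0).2 hz2

/-- the second class -/
lemma mem_EV (ha : a % 4 = 1) (hodd : Odd (Module.finrank ℚ F)) (hv : HV F a c) (b : Fˣ)
    (hr : ∃ r : ℚ, Algebra.norm ℚ (b : F) = r ^ 2)
    (hL : L2 (-2 * a) (a ^ 2 - 64 * c) (b : F)) : b ∈ EV F := by
  intro v
  rw [← ev_iff]
  have e0 : a ^ 2 - 64 * c = a ^ 2 - 4 * (16 * c) := by ring
  rw [e0] at hL
  have hL1 := L2_dualC hL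
  have hL' : ∃ z m : v.adicCompletion F, z ≠ 0 ∧
      algebraMap F (v.adicCompletion F) (b : F) * z ^ 2 = m ∧
      S1 (algebraMap F (v.adicCompletion F) (a : F))
        (algebraMap F (v.adicCompletion F) ((16 * c : ℤ) : F)) m := by
    rw [map_intCast, map_intCast]
    exact hL1.1 v
  rcases hv v with (h | h) | ⟨h, h'⟩
  · exact unEven h hodd b hr
  · exact even_b1_tw b.ne_zero v hL' h
  · obtain ⟨s, u, hs, hs1, hu1, hC, hC1⟩ := gdv (c := c) ha v
    exact even_b1 b.ne_zero v hL' hs hs1 hu1 hC h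

lemma mem_EVn (ha : a % 4 = 1) (hodd : Odd (Module.finrank ℚ F)) (hv : HV F a c) (b : Fˣ)
    (hr : ∃ r : ℚ, Algebra.norm ℚ (b : F) = r ^ 2)
    (hL : L2 (-2 * a) (a ^ 2 - 64 * c) (b : F)) : b ∈ EVn F :=
  ⟨mem_EV ha hodd hv b hr hL, hr⟩

/-- the second class is totally positive in the second case -/
lemma mem_H0 (ha : a % 4 = 1) (hodd : Odd (Module.finrank ℚ F)) (hv : HV F a c) (hc : 0 < c)
    (h : a < 0 ∨ a ^ 2 < 64 * c) (b : Fˣ)
    (hr : ∃ r : ℚ, Algebra.norm ℚ (b : F) = r ^ 2)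
    (hL : L2 (-2 * a) (a ^ 2 - 64 * c) (b : F)) : b ∈ H0 F := by
  refine ⟨?_, mem_EV ha hodd hv b hr hL⟩
  intro φ
  have e0 : a ^ 2 - 64 * c = a ^ 2 - 4 * (16 * c) := by ring
  rw [e0] at hL
  have hL1 := L2_dualC hL
  have hB' : 0 < φ ((16 * c : ℤ) : F) := by
    rw [map_intCast]
    exact_mod_cast (by positivity : 0 < 16 * c)
  refine pos_b1 (A := (a : F)) (B := ((16 * c : ℤ) : F)) (fun v => ?_) φ hB' ?_
  · rw [map_intCast, map_intCast]
    exact hL1.2 v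
  · rw [map_intCast, map_intCast]
    rcases h with h | h
    · left; exact_mod_cast h
    · right
      push_cast
      have : (a : ℝ) ^ 2 < 64 * (c : ℝ) := by exact_mod_cast h
      linarith

end

end Pool.Agent.N922
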