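import Pool.Agent.N922.PF

/-!
# The rank and the two-primary part over fields of odd degree
-/

set_option autoImplicit false
set_option linter.unusedSectionVars false

attribute [-instance] DivisionRing.toRatAlgebra

open NumberField IsDedekindDomain

namespace Pool.Agent.N922

open WeierstrassCurve

open Pool.Agent.Y682

open Pool.Agent.TH841.NF

open Pool.Agent.R432 (fb)

open Pool.Agent.R432.CX (NCo gcC half_NCo lift_sha exists_tr tr_tors)

open Pool.Agent.TH841.SH.D (Pt act Gal Coch IsCoc IsCob LocTriv cob)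

/-- the conclusion -/
def Con2 (F : Type) [Field F] [NumberField F] (A B : ℤ) (u h : ℕ) : Prop :=
  ∃ N : AddSubgroup (Pool.Agent.TH841.NF.D.Sha (gc A B F)), (∀ x ∈ N, ∃ m : ℕ, 2 ^ m • x = 0) ∧
    Finite {x : N // 2 • x = 0} ∧
    2 ^ (Pool.Agent.TH841.SH.D.rk (gc A B ℚ) + u) * h ≤
      2 ^ Pool.Agent.TH841.NF.D.rk (gc A B F) * Nat.card {x : N // 2 • x = 0} ∧
    2 ^ Pool.Agent.TH841.NF.D.rk (gc A B F) * Nat.card {x : N // 2 • x = 0} ≤
      2 ^ (Pool.Agent.TH841.SH.D.rk (gc A B ℚ) + u) * h ^ 2 ∧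
    Nonempty (AddCommGroup.primaryComponent (Pool.Agent.TH841.NF.D.Sha (gc A B F)) 2 ≃+
      AddCommGroup.primaryComponent (Pool.Agent.TH841.SH.D.Sha (gc A B ℚ)) 2 × N)

section

variable {F : Type} [Field F] [NumberField F] [Algebra ℚ F] [FiniteDimensional ℚ F] {A B : ℤ}

/-- the combination of the two bounds -/
theorem comb (hB : B ≠ 0) (hD : A ^ 2 - 4 * B ≠ 0) (hodd : Odd (Module.finrank ℚ F))
    {S1g S2g : Subgroup Fˣ} {u h : ℕ}
    (hf1 : Finite (S1g.map (QuotientGroup.mk' (Sq F))))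
    (hf2 : Finite (S2g.map (QuotientGroup.mk' (Sq F))))
    (H1 : ∀ b : Fˣ, (∃ r : ℚ, Algebra.norm ℚ (b : F) = r ^ 2) → L1 A B (b : F) → b ∈ S1g)
    (H2 : ∀ b : Fˣ, (∃ r : ℚ, Algebra.norm ℚ (b : F) = r ^ 2) → L2 A B (b : F) → b ∈ S2g)
    (hSq : Sq F ≤ S2g)
    (hS : ∀ b ∈ S2g, Pool.Agent.TH841.NF.D.IsShaCoc (gc A B F)
      (fb (gc_isT hB hD F) (b : F)))
    (hN : ∀ b ∈ S2g, ∃ r : ℚ, Algebra.norm ℚ (b : F) = r ^ 2)
    (hc1 : Nat.card (S1g.map (QuotientGroup.mk' (Sq F))) ≤ h)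
    (hc2 : Nat.card (S2g.map (QuotientGroup.mk' (Sq F))) = 2 ^ u * h) :
    Con2 F A B u h := by
  obtain ⟨e⟩ := exists_e F
  obtain ⟨T, hTr⟩ := exists_tr (gcC (F := F) A B) e
  obtain ⟨hfin, hup⟩ := upper hB hD hodd e hTr H1 H2
  have hcard := card_half hB hD hodd e hTr
  have hrank := rank_add hB hD hodd e hTr
  set s := Module.finrank ℤ T.ker with hs
  have hfN : Finite (N2 (F := F) A B e) := by
    refine Finite.of_injective (fun x : N2 (F := F) A B e => ((x,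
      (0 : T.ker ⧸ (zsmulAddGroupHom (α := T.ker) 2).range)) :
      N2 (F := F) A B e × (T.ker ⧸ (zsmulAddGroupHom (α := T.ker) 2).range))) ?_
    intro x y hxy
    exact congrArg Prod.fst hxy
  have hlow := lower hB hD hodd (gc_isT hB hD F) (gc_isT hB hD ℚ) e hTr hSq hS hN
  rw [Nat.card_prod, hcard] at hup
  have hcr : ∀ y, coS (gcC (F := F) A B) e (rsS (gcC (F := F) A B) e y) =
    Module.finrank ℚ F • y := fun y => coS_rsS (gcC (F := F) A B) e y
  let N : AddSubgroup (Pool.Agent.TH841.NF.D.Sha (gc A B F)) :=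
    AddCommGroup.primaryComponent (Pool.Agent.TH841.NF.D.Sha (gc A B F)) 2 ⊓
      (coS (gcC (F := F) A B) e).ker
  have hNm : ∀ x, x ∈ N ↔ (∃ m : ℕ, 2 ^ m • x = 0) ∧ coS (gcC (F := F) A B) e x = 0 :=
    fun x => Iff.rfl
  have hinj : Function.Injective (fun x : {x : N // 2 • x = 0} =>
      (⟨x.1.1, by
        have := congrArg Subtype.val x.2
        exact this, x.1.2.2⟩ : N2 (F := F) A B e)) := by
    intro x y h
    exact Subtype.ext (Subtype.ext (congrArg (fun z : N2 (F := F) A B e => z.1) h))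
  have hinj' : Function.Injective (fun x : N2 (F := F) A B e =>
      (⟨⟨x.1, (hNm x.1).2 ⟨⟨1, by rw [pow_one]; exact x.2.1⟩, x.2.2⟩⟩,
        Subtype.ext x.2.1⟩ : {x : N // 2 • x = 0})) := by
    intro x y h
    exact Subtype.ext (congrArg (fun z : {x : N // 2 • x = 0} => z.1.1) h)
  have hfN' : Finite {x : N // 2 • x = 0} := Finite.of_injective _ hinj
  have hle1 := Nat.card_le_card_of_injective _ hinj
  have hle2 := Nat.card_le_card_of_injective _ hinj'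
  have hNeq : Nat.card {x : N // 2 • x = 0} = Nat.card (N2 (F := F) A B e) := le_antisymm hle1 hle2
  refine ⟨N, fun x hx => ((hNm x).1 hx).1, hfN', ?_, ?_,
    Pool.Agent.R432.split (coS (gcC (F := F) A B) e) (rsS (gcC (F := F) A B) e) hodd hcr N hNm⟩
  · rw [Pool.Agent.R432.rkN, Pool.Agent.R432.rkQ, hNeq, hrank, pow_add, pow_add, mul_assoc,
      mul_assoc]
    refine Nat.mul_le_mul_left _ ?_
    rw [← hc2]
    exact hlow
  · rw [Pool.Agent.R432.rkN, Pool.Agent.R432.rkQ, hNeq, hrank, pow_add, pow_add, mul_assoc,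
      mul_assoc]
    refine Nat.mul_le_mul_left _ ?_
    calc 2 ^ s * Nat.card (N2 (F := F) A B e) = Nat.card (N2 (F := F) A B e) * 2 ^ s := mul_comm _ _
      _ ≤ _ := hup
      _ ≤ h * (2 ^ u * h) := by rw [hc2]; exact Nat.mul_le_mul_right _ hc1
      _ = _ := by ring

variable {a c : ℤ}

/-- the first type -/
theorem typeI (ha : a % 4 = 1) (hc : c ≠ 0) (hD : a ^ 2 ≠ 64 * c)
    (hreal : c < 0 ∨ (0 < a ∧ 64 * c < a ^ 2)) (hodd : Odd (Module.finrank ℚ F))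
    (hbad : ∀ p : ℕ, p.Prime → (p : ℤ) ∣ c * (a ^ 2 - 64 * c) → BadOK' F a c p) :
    Con2 F (-2 * a) (a ^ 2 - 64 * c) (Units.rank F)
      (Nat.card {g : ClassGroup (𝓞 F) // g ^ 2 = 1}) := by
  have hD0 : a ^ 2 - 64 * c ≠ 0 := sub_ne_zero.2 hD
  have hD1 : (-2 * a) ^ 2 - 4 * (a ^ 2 - 64 * c) ≠ 0 := by
    have : (-2 * a) ^ 2 - 4 * (a ^ 2 - 64 * c) = 256 * c := by ring
    rw [this]
    exact mul_ne_zero (by norm_num) hc
  have hv : HV F a c := HV.of hc hD0 hbad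
  obtain ⟨hf1, hc1⟩ := card_V0p (K := F)
  have hc2 := card_EVn (F := F) hodd
  rw [card_tw_Cw] at hc1 hc2
  have hf2 : Finite ((EVn F).map (QuotientGroup.mk' (Sq F))) := by
    apply Nat.finite_of_card_ne_zero
    rw [hc2]
    have : Nonempty {g : ClassGroup (𝓞 F) // g ^ 2 = 1} := ⟨⟨1, one_pow 2⟩⟩
    have hfc : Finite (ClassGroup (𝓞 F)) := inferInstance
    have := Nat.card_pos (α := {g : ClassGroup (𝓞 F) // g ^ 2 = 1})
    positivity
  refine comb hD0 hD1 hodd hf1 hf2 (fun b hr hL => ⟨pos_first hreal b hL,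
    mem_V0 ha hodd hv b hr hL⟩) (fun b hr hL => mem_EVn ha hodd hv b hr hL) Sq_le_EVn ?_
    (fun b hb => hb.2) hc1 hc2
  intro b hb
  exact sha_ev' ha hc hD0 hodd hv.bad b.ne_zero (fun v => ev_iff.2 (hb.1 v)) hb.2 (Or.inr hreal)

/-- the second type -/
theorem typeII (ha : a % 4 = 1) (hc : 0 < c) (hD : a ^ 2 ≠ 64 * c)
    (hreal : a < 0 ∨ a ^ 2 < 64 * c) (hodd : Odd (Module.finrank ℚ F))
    (hbad : ∀ p : ℕ, p.Prime → (p : ℤ) ∣ c * (a ^ 2 - 64 * c) → BadOK' F a c p) :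
    Con2 F (-2 * a) (a ^ 2 - 64 * c) (InfinitePlace.nrComplexPlaces F)
      (Nat.card {g : NCl F // g ^ 2 = 1}) := by
  have hD0 : a ^ 2 - 64 * c ≠ 0 := sub_ne_zero.2 hD
  have hD1 : (-2 * a) ^ 2 - 4 * (a ^ 2 - 64 * c) ≠ 0 := by
    have : (-2 * a) ^ 2 - 4 * (a ^ 2 - 64 * c) = 256 * c := by ring
    rw [this]
    exact mul_ne_zero (by norm_num) hc.ne'
  have hv : HV F a c := HV.of hc.ne' hD0 hbad
  obtain ⟨hf1, hc1⟩ := card_V0q (K := F)
  have hc2 := card_H0 (F := F)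
  have hf2 : Finite ((H0 F).map (QuotientGroup.mk' (Sq F))) := by
    apply Nat.finite_of_card_ne_zero
    rw [hc2]
    have : Nonempty (tw (NCl F)) := ⟨⟨1, one_mem _⟩⟩
    have := Nat.card_pos (α := tw (NCl F))
    positivity
  refine comb hD0 hD1 hodd hf1 hf2 (fun b hr hL =>
    mem_V0 ha hodd hv b hr hL) (fun b hr hL => mem_H0 ha hodd hv hc hreal b hr hL) Sq_le_H0 ?_
    (fun b hb => (H0_le_EVn hb).2) hc1 hc2
  intro b hb
  exact sha_ev' ha hc.ne' hD0 hodd hv.bad b.ne_zero (fun v => ev_iff.2 (hb.2 v))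
    (H0_le_EVn hb).2 (Or.inl hb.1)

end

end Pool.Agent.N922
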