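import Pool.Agent.N922.PG

/-!
# Places of multiplicative reduction of the good type
-/

set_option autoImplicit false
set_option linter.unusedSectionVars false

attribute [-instance] DivisionRing.toRatAlgebra

open NumberField IsDedekindDomain

namespace Pool.Agent.N922

section fin

variable {k : Type} [Field k] [Finite k]

/-- **a nonsquare `x` such that `x² + a x` is zero or a nonsquare** -/
theorem exists_nonsq0 (h2 : (2 : k) ≠ 0) {a : k} (ha : a ≠ 0) :
    ∃ x : k, ¬ IsSquare x ∧ (x ^ 2 + a * x = 0 ∨ ¬ IsSquare (x ^ 2 + a * x)) := by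
  classical
  have : Fintype k := Fintype.ofFinite k
  have hchar : ringChar k ≠ 2 := by
    intro h
    apply h2
    have := CharP.cast_eq_zero k (ringChar k)
    rw [h] at this
    exact_mod_cast this
  by_cases hm : IsSquare (-a)
  · obtain ⟨e, he⟩ := hm
    have he0 : e ≠ 0 := by
      rintro rfl
      apply ha
      rw [mul_zero, neg_eq_zero] at he
      exact he
    by_contra hcon
    push Not at hcon
    obtain ⟨x, hx⟩ := FiniteField.exists_nonsquare hchar
    obtain ⟨r, s, hrs⟩ : ∃ r s : k, r ^ 2 + s ^ 2 = x := by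
      obtain ⟨r, s, h⟩ := FiniteField.exists_root_sum_quadratic (R := k)
        (f := Polynomial.X ^ 2) (g := Polynomial.X ^ 2 - Polynomial.C x)
        (Polynomial.degree_X_pow 2) (Polynomial.degree_X_pow_sub_C (by decide) _)
        (FiniteField.odd_card_of_char_ne_two hchar)
      refine ⟨r, s, ?_⟩
      rw [Polynomial.eval_pow, Polynomial.eval_X, Polynomial.eval_sub, Polynomial.eval_pow,
        Polynomial.eval_X, Polynomial.eval_C] at h
      linear_combination h
    have hr : r ≠ 0 := by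
      rintro rfl
      exact hx ⟨s, by rw [← hrs]; ring⟩
    have hs : s ≠ 0 := by
      rintro rfl
      exact hx ⟨r, by rw [← hrs]; ring⟩
    have hw : e * s / r ≠ 0 := div_ne_zero (mul_ne_zero he0 hs) hr
    have hx' : ¬ IsSquare (x * (e / r) ^ 2) := by
      rintro ⟨t, ht⟩
      apply hx
      refine ⟨t * (r / e), ?_⟩
      have h3 : x = x * (e / r) ^ 2 * (r / e) ^ 2 := by
        field_simp
      rw [h3, ht]
      ring
    obtain ⟨-, t, ht⟩ := hcon _ hx'
    apply hx'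
    refine ⟨t / (e * s / r), ?_⟩
    have h4 : (x * (e / r) ^ 2) ^ 2 + a * (x * (e / r) ^ 2) =
        (x * (e / r) ^ 2) * (e * s / r) ^ 2 := by
      have h5 : a = -(e * e) := by rw [← he]; ring
      have h6 : s ^ 2 = x - r ^ 2 := by rw [← hrs]; ring
      rw [h5]
      field_simp
      rw [h6]
      ring
    rw [h4] at ht
    rw [div_mul_div_comm, ← ht, ← sq, mul_div_cancel_right₀ _ (pow_ne_zero 2 hw)]
  · refine ⟨-a, hm, Or.inl ?_⟩
    ring

end fin

open WeierstrassCurve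

open Pool.Agent.TH841.SH.D (Pt act Gal Coch IsCoc IsCob LocTriv cob)

open Pool.Agent.Y682

open Pool.Agent.R432

section loc

variable {F : Type} [Field F] [NumberField F] [Algebra ℚ F] {a c : ℤ}
  {hT : IsT (gc (-2 * a) (a ^ 2 - 64 * c) F) ((-2 * a : ℤ) : F) ((a ^ 2 - 64 * c : ℤ) : F)}
  {v : HeightOneSpectrum (𝓞 F)}

/-- a place outside two and `a² - 64 c`, given a suitable abscissa -/
lemma loc_branch (h2 : (2 : 𝓞 F) ∉ v.asIdeal)
    (h5 : ((a ^ 2 - 64 * c : ℤ) : 𝓞 F) ∉ v.asIdeal) {β : 𝓞 F} (huv : β ∉ v.asIdeal)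
    (hx : ∃ x' : 𝓞 F ⧸ v.asIdeal, ¬ IsSquare x' ∧
      (x' ^ 2 + (Ideal.Quotient.mk v.asIdeal) (a : 𝓞 F) * x' +
          (Ideal.Quotient.mk v.asIdeal) ((16 * c : ℤ) : 𝓞 F) = 0 ∨
        ¬ IsSquare (x' ^ 2 + (Ideal.Quotient.mk v.asIdeal) (a : 𝓞 F) * x' +
          (Ideal.Quotient.mk v.asIdeal) ((16 * c : ℤ) : 𝓞 F)))) :
    LocTriv _ (v.adicCompletion F) (fb hT (β : F)) := by
  have hcz := charZero_adic v
  have hvp := v.isPrime
  have hmax : v.asIdeal.IsMaximal := v.isMaximal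
  let _ : Field (𝓞 F ⧸ v.asIdeal) := Ideal.Quotient.field v.asIdeal
  have hfin : Finite (𝓞 F ⧸ v.asIdeal) := Ideal.finiteQuotientOfFreeOfNeBot v.asIdeal v.ne_bot
  have hu0 : (β : F) ≠ 0 := ne_of_out huv
  set π := Ideal.Quotient.mk v.asIdeal with hπ
  have hne : ∀ x : 𝓞 F, x ∉ v.asIdeal → π x ≠ 0 := fun x hx h =>
    hx (Ideal.Quotient.eq_zero_iff_mem.1 h)
  have h20 : (2 : 𝓞 F ⧸ v.asIdeal) ≠ 0 := by
    have := hne 2 h2
    rwa [map_ofNat] at this
  -- squares modulo `v` are squares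
  have hsq : ∀ x : 𝓞 F, x ∉ v.asIdeal → IsSquare (π x) →
      ∃ t : v.adicCompletion F, t ^ 2 = algebraMap F _ (x : F) := by
    rintro x hx ⟨y', hy'⟩
    obtain ⟨y, rfl⟩ := Ideal.Quotient.mk_surjective y'
    have h6 : x - y ^ 2 ∈ v.asIdeal := by
      rw [← Ideal.Quotient.eq_zero_iff_mem, map_sub, map_pow]
      change π x - _ = 0
      rw [hy']
      ring
    refine sq_of_res v h2 (fun hy => ?_) h6
    apply hx
    have e : x = (x - y ^ 2) + y * y := by ring
    rw [e]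
    exact add_mem h6 (v.asIdeal.mul_mem_right _ hy)
  obtain ⟨b, hb⟩ : ∃ b : v.adicCompletion F, b = algebraMap F _ (β : F) := ⟨_, rfl⟩
  have hb0 : b ≠ 0 := by rw [hb]; exact (map_ne_zero _).2 hu0
  by_cases hus : IsSquare (π β)
  · obtain ⟨t, ht⟩ := hsq _ huv hus
    exact fb_loc_sq hT ht
  obtain ⟨x', hx', hx2⟩ := hx
  obtain ⟨X, rfl⟩ := Ideal.Quotient.mk_surjective x'
  have hXv : X ∉ v.asIdeal := by
    intro h
    apply hx'
    rw [Ideal.Quotient.eq_zero_iff_mem.2 h]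
    exact IsSquare.zero
  obtain ⟨G, hG⟩ : ∃ G : 𝓞 F, G = X ^ 2 + (a : 𝓞 F) * X + ((16 * c : ℤ) : 𝓞 F) := ⟨_, rfl⟩
  have hGπ : π G = π X ^ 2 + π (a : 𝓞 F) * π X + π ((16 * c : ℤ) : 𝓞 F) := by
    rw [hG, map_add, map_add, map_mul, map_pow]
  rw [← hGπ] at hx2
  obtain ⟨ξ, hξ⟩ : ∃ ξ : v.adicCompletion F, ξ = algebraMap F _ (X : F) := ⟨_, rfl⟩
  have hξ1 : vv v ξ = 1 := by rw [hξ]; exact vv_out hXv
  have h10 : β * X ∉ v.asIdeal := by
    intro h
    rcases hvp.mem_or_mem h with h | h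
    · exact huv h
    · exact hXv h
  obtain ⟨t, ht⟩ := hsq _ h10 (by rw [map_mul]; exact nonsq_mul h20 hus hx')
  have ht' : t ^ 2 = b * ξ := by
    rw [ht, hb, hξ, cast_iv, cast_iv, cast_iv, map_mul]
  have hb1 : vv v b = 1 := by rw [hb]; exact vv_out huv
  rcases hx2 with hx2 | hx2
  · -- a root of the polynomial
    have hGv : G ∈ v.asIdeal := Ideal.Quotient.eq_zero_iff_mem.1 hx2
    obtain ⟨D, hD⟩ : ∃ D : 𝓞 F, D = 2 * X + (a : 𝓞 F) := ⟨_, rfl⟩
    have hDsq : ((a ^ 2 - 64 * c : ℤ) : 𝓞 F) - D ^ 2 ∈ v.asIdeal := by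
      have e : ((a ^ 2 - 64 * c : ℤ) : 𝓞 F) - D ^ 2 = -4 * G := by
        rw [hD, hG]; push_cast; ring
      rw [e]
      exact v.asIdeal.mul_mem_left _ hGv
    have hDv : D ∉ v.asIdeal := by
      intro h
      apply h5
      have e : ((a ^ 2 - 64 * c : ℤ) : 𝓞 F) = (((a ^ 2 - 64 * c : ℤ) : 𝓞 F) - D ^ 2) + D * D := by
        ring
      rw [e]
      exact add_mem hDsq (v.asIdeal.mul_mem_right _ h)
    obtain ⟨δ, hδ⟩ := sq_of_res v h2 hDv hDsq
    obtain ⟨d, hd⟩ : ∃ d : v.adicCompletion F, d = algebraMap F _ (D : F) := ⟨_, rfl⟩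
    have hδ' : δ ^ 2 = (a : v.adicCompletion F) ^ 2 - 64 * c := by
      rw [hδ, cast_iv, map_intCast]; push_cast; ring
    have hd' : d = 2 * ξ + a := by
      rw [hd, hξ, hD, cast_iv, cast_iv, map_add, map_mul, map_ofNat, map_intCast]
    have hd1 : vv v d = 1 := by rw [hd]; exact vv_out hDv
    have hprod : vv v ((δ - d) * (δ + d)) < 1 := by
      have e : (δ - d) * (δ + d) = algebraMap F _ (((((a ^ 2 - 64 * c : ℤ) : 𝓞 F) - D ^ 2 : 𝓞 F)) : F) := by
        rw [cast_iv, map_sub, map_pow, map_intCast, ← cast_iv, ← hd]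
        push_cast
        linear_combination hδ'
      rw [e]
      exact vv_in hDsq
    -- choose the sign
    obtain ⟨δ', hδ1, hδ2⟩ : ∃ δ' : v.adicCompletion F, δ' ^ 2 = (a : v.adicCompletion F) ^ 2 - 64 * c ∧
        vv v (δ' - d) < 1 := by
      by_contra hcon
      push Not at hcon
      have h7 := hcon δ hδ'
      have h8 := hcon (-δ) (by rw [neg_sq, hδ'])
      have e : -δ - d = -(δ + d) := by ring
      rw [e, Valuation.map_neg] at h8
      rw [map_mul] at hprod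
      exact absurd hprod (not_lt.2 (one_le_mul h7 h8))
    obtain ⟨ρ, hρ⟩ : ∃ ρ : v.adicCompletion F, ρ = (δ' - a) / 2 := ⟨_, rfl⟩
    have h21 : vv v (2 : v.adicCompletion F) = 1 := by
      have := vv_out h2
      rwa [cast_iv, map_ofNat] at this
    have hρξ : vv v (ρ - ξ) < 1 := by
      have e : ρ - ξ = (δ' - d) / 2 := by rw [hρ, hd']; ring
      rw [e, map_div₀, h21, div_one]
      exact hδ2
    have hroot : ρ ^ 2 + a * ρ + 16 * c = 0 := by
      rw [hρ]
      linear_combination (1 / 4 : v.adicCompletion F) * hδ1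
    -- `b ρ` is a square
    obtain ⟨τ, hτ⟩ := exists_sqrt' v (x := b * ρ) (y := t) (by
      rintro rfl
      rw [zero_pow two_ne_zero, eq_comm, mul_eq_zero] at ht'
      rcases ht' with h | h
      · exact hb0 h
      · rw [h, map_zero] at hξ1
        exact zero_ne_one hξ1) (by
      have e : b * ρ - t ^ 2 = b * (ρ - ξ) := by rw [ht']; ring
      rw [e, map_mul, hb1, one_mul, vv_four h2, one_mul, ← map_pow, ht', map_mul, hb1, hξ1, one_mul]
      exact hρξ)
    have hρ0 : ρ ≠ 0 := by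
      rintro h
      rw [h, zero_sub, Valuation.map_neg, hξ1] at hρξ
      exact lt_irrefl _ hρξ
    have hτ0 : τ ≠ 0 := by
      rintro rfl
      rw [zero_pow two_ne_zero] at hτ
      exact mul_ne_zero hb0 hρ0 hτ.symm
    refine loc_pt' (s := τ / b) (Y := 0) hu0 (div_ne_zero hτ0 hb0) ?_
    have h11 : algebraMap F (v.adicCompletion F) (β : F) * (τ / b) ^ 2 = ρ := by
      rw [← hb, div_pow, hτ]
      field_simp
    rw [h11, hroot]
    ring
  · -- not a root
    have h8 : IsSquare (π (X * G)) := by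
      rw [map_mul]
      exact nonsq_mul h20 hx' hx2
    have h9 : X * G ∉ v.asIdeal := by
      intro h
      rcases hvp.mem_or_mem h with h | h
      · exact hXv h
      · apply hx2
        rw [Ideal.Quotient.eq_zero_iff_mem.2 h]
        exact IsSquare.zero
    obtain ⟨y, hy⟩ := hsq _ h9 h8
    have hξ0 : ξ ≠ 0 := by
      rintro h
      rw [h, map_zero] at hξ1
      exact zero_ne_one hξ1
    have ht0 : t ≠ 0 := by
      rintro rfl
      rw [zero_pow two_ne_zero] at ht'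
      exact mul_ne_zero hb0 hξ0 ht'.symm
    refine loc_pt' (s := t / b) (Y := y) hu0 (div_ne_zero ht0 hb0) ?_
    have h11 : algebraMap F (v.adicCompletion F) (β : F) * (t / b) ^ 2 = ξ := by
      rw [← hb, div_pow, ht']
      field_simp
    rw [h11, hy, hG, cast_iv, map_mul, map_add, map_add, map_mul, map_pow, map_intCast,
      map_intCast, ← cast_iv, ← hξ]
    push_cast
    ring

/-- a place of good reduction or of multiplicative reduction of the good type -/
lemma loc_mult (hc : c ≠ 0) (h2 : (2 : 𝓞 F) ∉ v.asIdeal)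
    (h5 : ((a ^ 2 - 64 * c : ℤ) : 𝓞 F) ∉ v.asIdeal) {β : 𝓞 F} (huv : β ∉ v.asIdeal) :
    LocTriv _ (v.adicCompletion F) (fb hT (β : F)) := by
  by_cases h3 : (c : 𝓞 F) ∈ v.asIdeal
  · have hmax : v.asIdeal.IsMaximal := v.isMaximal
    let _ : Field (𝓞 F ⧸ v.asIdeal) := Ideal.Quotient.field v.asIdeal
    have hfin : Finite (𝓞 F ⧸ v.asIdeal) := Ideal.finiteQuotientOfFreeOfNeBot v.asIdeal v.ne_bot
    have h20 : (2 : 𝓞 F ⧸ v.asIdeal) ≠ 0 := by
      intro h
      apply h2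
      rw [← Ideal.Quotient.eq_zero_iff_mem, map_ofNat]
      exact h
    have hav : (a : 𝓞 F) ∉ v.asIdeal := by
      intro h
      apply h5
      have e : ((a ^ 2 - 64 * c : ℤ) : 𝓞 F) = (a : 𝓞 F) * a - (c : 𝓞 F) * 64 := by
        push_cast; ring
      rw [e]
      exact sub_mem (v.asIdeal.mul_mem_right _ h) (v.asIdeal.mul_mem_right _ h3)
    have ha0 : (Ideal.Quotient.mk v.asIdeal) (a : 𝓞 F) ≠ 0 :=
      fun h => hav (Ideal.Quotient.eq_zero_iff_mem.1 h)
    obtain ⟨x', hx', hx2⟩ := exists_nonsq0 (k := 𝓞 F ⧸ v.asIdeal) h20 ha0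
    have hc0 : (Ideal.Quotient.mk v.asIdeal) ((16 * c : ℤ) : 𝓞 F) = 0 := by
      rw [Ideal.Quotient.eq_zero_iff_mem]
      push_cast
      exact v.asIdeal.mul_mem_left _ h3
    refine loc_branch h2 h5 huv ⟨x', hx', ?_⟩
    rw [hc0, add_zero]
    exact hx2
  · exact loc_good h2 h3 h5 huv

end loc

end Pool.Agent.N922
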