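import Pool.Agent.N922.PH

/-!
# The count with exceptional places
-/

set_option autoImplicit false
set_option linter.unusedSectionVars false

attribute [-instance] DivisionRing.toRatAlgebra

open NumberField IsDedekindDomain

namespace Pool.Agent.N922

open WeierstrassCurve

open Pool.Agent.Y682

open Pool.Agent.TH841.NF

open Pool.Agent.R432 (fb fb_coc fb_add fb_sq fb_loc_sq nonsq_mul sq_of_res)

open Pool.Agent.R432.CX (NCo gcC half_NCo lift_sha exists_tr tr_tors L1_dualC L2_dualC unEven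
  second_unrC)

open Pool.Agent.TH841.SH.D (Pt act Gal Coch IsCoc IsCob LocTriv cob)

section count

variable {F : Type} [Field F]

/-- comparison of two groups of classes -/
lemma card_compare {ι : Type} {S S' : Subgroup Fˣ} (hS : S ≤ S') (T : Finset ι)
    (P : ι → Fˣ → Prop)
    (h : ∀ b ∈ S', ∀ b' ∈ S', (∀ v ∈ T, (P v b ↔ P v b')) → b⁻¹ * b' ∈ S)
    (hfin : Finite (S.map (QuotientGroup.mk' (Sq F)))) :
    Finite (S'.map (QuotientGroup.mk' (Sq F))) ∧
      Nat.card (S'.map (QuotientGroup.mk' (Sq F))) ≤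
        2 ^ T.card * Nat.card (S.map (QuotientGroup.mk' (Sq F))) := by
  classical
  set A := S.map (QuotientGroup.mk' (Sq F)) with hA
  set B := S'.map (QuotientGroup.mk' (Sq F)) with hB
  have hAB : A ≤ B := Subgroup.map_mono hS
  have hb : ∀ q : B, ∃ b : Fˣ, b ∈ S' ∧ QuotientGroup.mk' (Sq F) b = q.1 := fun q => q.2
  choose b hb1 hb2 using hb
  let f : (B ⧸ A.subgroupOf B) → ({x // x ∈ T} → Prop) := fun q v => P v.1 (b q.out)
  have hf : Function.Injective f := by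
    intro q q' hq
    rw [← Quotient.out_eq q, ← Quotient.out_eq q']
    apply (QuotientGroup.eq (s := A.subgroupOf B)).2
    rw [Subgroup.mem_subgroupOf]
    have h1 := h (b q.out) (hb1 _) (b q'.out) (hb1 _) (fun v hv => by
      have := congrFun hq ⟨v, hv⟩
      exact iff_of_eq this)
    refine ⟨_, h1, ?_⟩
    rw [map_mul, map_inv, hb2, hb2]
    rfl
  have hfinq : Finite (B ⧸ A.subgroupOf B) := Finite.of_injective f hf
  have hle : Nat.card (B ⧸ A.subgroupOf B) ≤ 2 ^ T.card := by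
    refine (Nat.card_le_card_of_injective f hf).trans (le_of_eq ?_)
    rw [Nat.card_fun, Nat.card_eq_fintype_card (α := {x // x ∈ T}), Fintype.card_coe]
    congr 1
    rw [Nat.card_congr Equiv.propEquivBool, Nat.card_eq_fintype_card, Fintype.card_bool]
  have hmul : Nat.card (A.subgroupOf B) * (A.subgroupOf B).index = Nat.card B :=
    Subgroup.card_mul_index _
  have hcA : Nat.card (A.subgroupOf B) = Nat.card A :=
    Nat.card_congr (Subgroup.subgroupOfEquivOfLe hAB).toEquiv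
  rw [hcA] at hmul
  constructor
  · apply Nat.finite_of_card_ne_zero
    rw [← hmul]
    have h1 : Nat.card A ≠ 0 := Nat.card_ne_zero.2 ⟨⟨1⟩, hfin⟩
    have h2 : (A.subgroupOf B).index ≠ 0 := Nat.card_ne_zero.2 ⟨⟨((1 : B) : B ⧸ A.subgroupOf B)⟩, hfinq⟩
    exact mul_ne_zero h1 h2
  · rw [← hmul, mul_comm]
    exact Nat.mul_le_mul_right _ hle

end count

section

variable {F : Type} [Field F] [NumberField F] [Algebra ℚ F] [FiniteDimensional ℚ F] {a c : ℤ}

/-- the product of two elements with even valuations, neither of them a square at `v`, is a square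
at `v` -/
lemma sq_mul_loc {v : HeightOneSpectrum (𝓞 F)} (h2 : (2 : 𝓞 F) ∉ v.asIdeal) {b b' : Fˣ}
    (hb : b ∈ EV F) (hb' : b' ∈ EV F)
    (h : (∃ z : v.adicCompletion F, z ^ 2 = algebraMap F _ (b : F)) ↔
      ∃ z : v.adicCompletion F, z ^ 2 = algebraMap F _ (b' : F)) :
    ∃ z : v.adicCompletion F, z ^ 2 = algebraMap F _ ((b⁻¹ * b' : Fˣ) : F) := by
  have hbF : algebraMap F (v.adicCompletion F) (b : F) ≠ 0 := (map_ne_zero _).2 b.ne_zero
  have key : (∃ z : v.adicCompletion F, z ^ 2 = algebraMap F _ ((b : F) * (b' : F))) →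
      ∃ z : v.adicCompletion F, z ^ 2 = algebraMap F _ ((b⁻¹ * b' : Fˣ) : F) := by
    rintro ⟨z, hz⟩
    refine ⟨z / algebraMap F _ (b : F), ?_⟩
    rw [div_pow, hz, Units.val_mul, Units.val_inv_eq_inv_val, map_mul, map_mul, map_inv₀]
    field_simp
  apply key
  by_cases h1 : ∃ z : v.adicCompletion F, z ^ 2 = algebraMap F _ (b : F)
  · obtain ⟨z, hz⟩ := h1
    obtain ⟨z', hz'⟩ := h.1 ⟨z, hz⟩
    exact ⟨z * z', by rw [mul_pow, hz, hz', map_mul]⟩
  · have h1' : ¬ ∃ z : v.adicCompletion F, z ^ 2 = algebraMap F _ (b' : F) := fun h3 => h1 (h.2 h3)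
    have : v.asIdeal.IsMaximal := v.isMaximal
    have hvp := v.isPrime
    let _ : Field (𝓞 F ⧸ v.asIdeal) := Ideal.Quotient.field v.asIdeal
    have hfin : Finite (𝓞 F ⧸ v.asIdeal) := Ideal.finiteQuotientOfFreeOfNeBot v.asIdeal v.ne_bot
    have h20 : (2 : 𝓞 F ⧸ v.asIdeal) ≠ 0 := by
      intro h
      apply h2
      rw [← Ideal.Quotient.eq_zero_iff_mem, map_ofNat]
      exact h
    have hsq : ∀ x : 𝓞 F, x ∉ v.asIdeal → IsSquare ((Ideal.Quotient.mk v.asIdeal) x) →
        ∃ t : v.adicCompletion F, t ^ 2 = algebraMap F _ (x : F) := by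
      rintro x hx ⟨y', hy'⟩
      obtain ⟨y, rfl⟩ := Ideal.Quotient.mk_surjective y'
      have h6 : x - y ^ 2 ∈ v.asIdeal := by
        rw [← Ideal.Quotient.eq_zero_iff_mem, map_sub, map_pow, hy']
        ring
      refine sq_of_res v h2 (fun hy => ?_) h6
      apply hx
      have e : x = (x - y ^ 2) + y * y := by ring
      rw [e]
      exact add_mem h6 (v.asIdeal.mul_mem_right _ hy)
    obtain ⟨β, y, hβ, hy, hby⟩ := rep_at v b.ne_zero (ev_iff.2 (hb v))
    obtain ⟨β', y', hβ', hy', hby'⟩ := rep_at v b'.ne_zero (ev_iff.2 (hb' v))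
    have hn : ¬ IsSquare ((Ideal.Quotient.mk v.asIdeal) β) := by
      intro hs
      obtain ⟨t, ht⟩ := hsq β hβ hs
      exact h1 ⟨t * algebraMap F _ y, by rw [mul_pow, ht, hby, map_mul, map_pow]⟩
    have hn' : ¬ IsSquare ((Ideal.Quotient.mk v.asIdeal) β') := by
      intro hs
      obtain ⟨t, ht⟩ := hsq β' hβ' hs
      exact h1' ⟨t * algebraMap F _ y', by rw [mul_pow, ht, hby', map_mul, map_pow]⟩
    obtain ⟨t, ht⟩ := hsq (β * β') (fun h => (hvp.mem_or_mem h).elim hβ hβ') (by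
      rw [map_mul]
      exact nonsq_mul h20 hn hn')
    refine ⟨t * algebraMap F _ (y * y'), ?_⟩
    have e1 : ((β * β' : 𝓞 F) : F) = (β : F) * (β' : F) := by push_cast; rfl
    rw [mul_pow, ht, ← map_pow, ← map_mul, hby, hby', e1]
    congr 1
    ring

/-- **the classes with even valuations are locally trivial** -/
theorem sha_evT {hT : IsT (gc (-2 * a) (a ^ 2 - 64 * c) F) ((-2 * a : ℤ) : F)
      ((a ^ 2 - 64 * c : ℤ) : F)} (ha : a % 4 = 1) (hc : c ≠ 0)
    (hodd : Odd (Module.finrank ℚ F)) {b : F} (hb : b ≠ 0)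
    (hbad : ∀ v : HeightOneSpectrum (𝓞 F), (2 : 𝓞 F) ∉ v.asIdeal →
      (Un v ∨ Tw v (a : F) ((16 * c : ℤ) : F)) ∨ ((a ^ 2 - 64 * c : ℤ) : 𝓞 F) ∉ v.asIdeal ∨
        ∃ z : v.adicCompletion F, z ^ 2 = algebraMap F _ b)
    (hev : ∀ v : HeightOneSpectrum (𝓞 F), ∃ n : ℤ,
      v.valuation F b = WithZero.exp (2 * n)) (hr : ∃ r : ℚ, Algebra.norm ℚ b = r ^ 2)
    (hinf : TotPos b ∨ c < 0 ∨ (0 < a ∧ 64 * c < a ^ 2)) :
    Pool.Agent.TH841.NF.D.IsShaCoc (gc (-2 * a) (a ^ 2 - 64 * c) F) (fb hT b) := by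
  refine ⟨fb_coc hT _, fun v => ?_, fun v => ?_⟩
  · obtain ⟨β, y, hβ, hy, hby⟩ := rep_at v hb (hev v)
    have hβ0 := ne_of_out hβ
    have e : fb hT b = fb hT (β : F) := by
      rw [hby, fb_add hT hβ0 (pow_ne_zero 2 hy), fb_sq, add_zero]
    by_cases h2 : (2 : 𝓞 F) ∈ v.asIdeal
    · rw [e]
      exact loc_two ha hβ h2
    · rcases hbad v h2 with (h | h) | h4 | ⟨z, hz⟩
      · rw [e]
        refine loc_un hodd h2 h hβ ?_
        obtain ⟨r, hr⟩ := hr
        have hy0 : Algebra.norm ℚ y ≠ 0 := by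
          rw [Ne, Algebra.norm_eq_zero_iff]; exact hy
        refine ⟨r / Algebra.norm ℚ y, ?_⟩
        rw [div_pow, ← hr, hby, map_mul, map_pow]
        field_simp
      · rw [e]
        exact loc_tw hc h2 h hβ
      · rw [e]
        exact loc_mult hc h2 h4 hβ
      · exact fb_loc_sq hT hz
  · rcases hinf with h | h
    · exact loc_pos v h
    · exact loc_inf hb h v

/-- the first class at a place -/
lemma unr_at (ha : a % 4 = 1) (hodd : Odd (Module.finrank ℚ F)) (b : Fˣ)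
    (hr : ∃ r : ℚ, Algebra.norm ℚ (b : F) = r ^ 2)
    (hL : L1 (-2 * a) (a ^ 2 - 64 * c) (b : F)) (v : HeightOneSpectrum (𝓞 F))
    (hv : (Un v ∨ Tw v (a : F) ((16 * c : ℤ) : F)) ∨ ((a ^ 2 - 64 * c : ℤ) : 𝓞 F) ∉ v.asIdeal) :
    UnrC (v.valuation F) (b : F) := by
  have e0 : a ^ 2 - 64 * c = a ^ 2 - 4 * (16 * c) := by ring
  rw [e0] at hL
  refine second_unrC hodd v ?_ b hr (L1_dualC hL)
  by_cases h2 : (2 : 𝓞 F) ∈ v.asIdeal
  · right
    refine ⟨_, gdv ha v, ?_⟩
    rw [← map_intCast (algebraMap (𝓞 F) F), HeightOneSpectrum.valuation_eq_one_iff_notMem]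
    intro h7
    apply v.isPrime.ne_top
    rw [Ideal.eq_top_iff_one]
    obtain ⟨k, rfl⟩ : ∃ k : ℤ, a = 1 + 4 * k := ⟨a / 4, by omega⟩
    have e : (1 : 𝓞 F) = (((1 + 4 * k) ^ 2 - 4 * (16 * c) : ℤ) : 𝓞 F) -
        2 * ((4 * k + 8 * k ^ 2 - 32 * c : ℤ) : 𝓞 F) := by
      push_cast; ring
    rw [e]
    exact sub_mem h7 (v.asIdeal.mul_mem_right _ h2)
  · rcases hv with h | h
    · exact Or.inl ⟨h2, h⟩
    · refine Or.inr ⟨_, gdv ha v, ?_⟩
      rw [← e0, ← map_intCast (algebraMap (𝓞 F) F), HeightOneSpectrum.valuation_eq_one_iff_notMem]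
      exact h

/-- the second class at a place -/
lemma par_at (ha : a % 4 = 1) (hodd : Odd (Module.finrank ℚ F)) (b : Fˣ)
    (hr : ∃ r : ℚ, Algebra.norm ℚ (b : F) = r ^ 2)
    (hL : L2 (-2 * a) (a ^ 2 - 64 * c) (b : F)) (v : HeightOneSpectrum (𝓞 F))
    (hv : (Un v ∨ Tw v (a : F) ((16 * c : ℤ) : F)) ∨ (c : 𝓞 F) ∉ v.asIdeal) :
    par v b = 0 := by
  rw [← ev_iff]
  have e0 : a ^ 2 - 64 * c = a ^ 2 - 4 * (16 * c) := by ring
  rw [e0] at hL
  have hL1 := L2_dualC hL
  have hL' : ∃ z m : v.adicCompletion F, z ≠ 0 ∧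
      algebraMap F (v.adicCompletion F) (b : F) * z ^ 2 = m ∧
      S1 (algebraMap F (v.adicCompletion F) (a : F))
        (algebraMap F (v.adicCompletion F) ((16 * c : ℤ) : F)) m := by
    rw [map_intCast, map_intCast]
    exact hL1.1 v
  rcases hv with (h | h) | h
  · exact unEven h hodd b hr
  · exact even_b1_tw b.ne_zero v hL' h
  · obtain ⟨s, u, hs, hs1, hu1, hC, hC1⟩ := gdv (c := c) ha v
    refine even_b1 b.ne_zero v hL' hs hs1 hu1 hC ?_
    rw [← map_intCast (algebraMap (𝓞 F) F), HeightOneSpectrum.valuation_eq_one_iff_notMem]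
    exact h

/-- the second class is totally positive in the second case -/
lemma pos_second (hc : 0 < c) (h : a < 0 ∨ a ^ 2 < 64 * c) (b : Fˣ)
    (hL : L2 (-2 * a) (a ^ 2 - 64 * c) (b : F)) : TotPos (b : F) := by
  intro φ
  have e0 : a ^ 2 - 64 * c = a ^ 2 - 4 * (16 * c) := by ring
  rw [e0] at hL
  have hL1 := L2_dualC hL
  have hB' : 0 < φ ((16 * c : ℤ) : F) := by
    rw [map_intCast]
    exact_mod_cast (by positivity : 0 < 16 * c)
  refine pos_b1 (A := (a : F)) (B := ((16 * c : ℤ) : F)) (fun v => ?_) φ hB' ?_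
  · rw [map_intCast, map_intCast]
    exact hL1.2 v
  · rw [map_intCast, map_intCast]
    rcases h with h | h
    · left; exact_mod_cast h
    · right
      push_cast
      have : (a : ℝ) ^ 2 < 64 * (c : ℝ) := by exact_mod_cast h
      linarith

end

end Pool.Agent.N922
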