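import Pool.Agent.N922.PI

/-!
# The rank and the two-primary part over all the fields of odd degree
-/

set_option autoImplicit false
set_option linter.unusedSectionVars false

attribute [-instance] DivisionRing.toRatAlgebra

open NumberField IsDedekindDomain

namespace Pool.Agent.N922

open WeierstrassCurve

open Pool.Agent.Y682

open Pool.Agent.TH841.NF

open Pool.Agent.R432 (fb)

open Pool.Agent.R432.CX (NCo gcC half_NCo lift_sha exists_tr tr_tors)

open Pool.Agent.TH841.SH.D (Pt act Gal Coch IsCoc IsCob LocTriv cob)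

/-- the conclusion -/
def Con3 (F : Type) [Field F] [NumberField F] (A B : ℤ) (u h t s : ℕ) : Prop :=
  ∃ N : AddSubgroup (Pool.Agent.TH841.NF.D.Sha (gc A B F)), (∀ x ∈ N, ∃ m : ℕ, 2 ^ m • x = 0) ∧
    Finite {x : N // 2 • x = 0} ∧
    2 ^ (Pool.Agent.TH841.SH.D.rk (gc A B ℚ) + u) * h ≤
      2 ^ (Pool.Agent.TH841.NF.D.rk (gc A B F) + t) * Nat.card {x : N // 2 • x = 0} ∧
    2 ^ Pool.Agent.TH841.NF.D.rk (gc A B F) * Nat.card {x : N // 2 • x = 0} ≤
      2 ^ (Pool.Agent.TH841.SH.D.rk (gc A B ℚ) + u + t + s) * h ^ 2 ∧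
    Nonempty (AddCommGroup.primaryComponent (Pool.Agent.TH841.NF.D.Sha (gc A B F)) 2 ≃+
      AddCommGroup.primaryComponent (Pool.Agent.TH841.SH.D.Sha (gc A B ℚ)) 2 × N)

section

variable {F : Type} [Field F] [NumberField F]

variable (F) in
/-- unramified outside `T` -/
def V0T (T : Set (HeightOneSpectrum (𝓞 F))) : Subgroup Fˣ where
  carrier := {b | ∀ v ∉ T, UnrC (v.valuation F) (b : F)}
  one_mem' := fun v _ => by
    rw [Units.val_one, ← one_pow 2]
    exact UnrC.sq one_ne_zero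
  mul_mem' := fun {x y} hx hy v hv => by
    rw [Units.val_mul]
    exact (hx v hv).mul (hy v hv)
  inv_mem' := fun {x} hx v hv => by
    have h1 : UnrC (v.valuation F) ((x : F) * (((x⁻¹ : Fˣ) : F)) ^ 2) :=
      (hx v hv).mul (UnrC.sq (Units.ne_zero _))
    have e : ((x⁻¹ : Fˣ) : F) = (x : F) * (((x⁻¹ : Fˣ) : F)) ^ 2 := by
      rw [Units.val_inv_eq_inv_val]
      have := x.ne_zero
      field_simp
    rw [e]
    exact h1

variable (F) in
/-- totally positive elements -/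
def TP : Subgroup Fˣ where
  carrier := {b | TotPos (b : F)}
  one_mem' := fun φ => by rw [Units.val_one, map_one]; exact one_pos
  mul_mem' := by
    rintro x y hx hy φ
    rw [Units.val_mul, map_mul]
    exact mul_pos (hx φ) (hy φ)
  inv_mem' := by
    rintro x hx φ
    rw [Units.val_inv_eq_inv_val, map_inv₀]
    exact inv_pos.2 (hx φ)

variable (F) in
/-- even valuations outside `T` -/
def ET (T : Set (HeightOneSpectrum (𝓞 F))) : Subgroup Fˣ where
  carrier := {b | ∀ v ∉ T, par v b = 0}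
  one_mem' := fun v _ => par_one v
  mul_mem' := by
    intro x y hx hy v hv
    rw [par_mul, hx v hv, hy v hv, add_zero]
  inv_mem' := by
    intro x hx v hv
    rw [par_inv, hx v hv]

/-- squares at the places of `T` -/
def Low (S : Subgroup Fˣ) (T : Set (HeightOneSpectrum (𝓞 F))) : Subgroup Fˣ where
  carrier := {b | b ∈ S ∧ ∀ v ∈ T, ∃ z : v.adicCompletion F, z ^ 2 = algebraMap F _ (b : F)}
  one_mem' := ⟨one_mem _, fun v _ => ⟨1, by rw [Units.val_one, map_one, one_pow]⟩⟩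
  mul_mem' := by
    rintro x y ⟨hx, hx'⟩ ⟨hy, hy'⟩
    refine ⟨mul_mem hx hy, fun v hv => ?_⟩
    obtain ⟨z, hz⟩ := hx' v hv
    obtain ⟨w, hw⟩ := hy' v hv
    exact ⟨z * w, by rw [mul_pow, hz, hw, Units.val_mul, map_mul]⟩
  inv_mem' := by
    rintro x ⟨hx, hx'⟩
    refine ⟨inv_mem hx, fun v hv => ?_⟩
    obtain ⟨z, hz⟩ := hx' v hv
    exact ⟨z⁻¹, by rw [inv_pow, hz, Units.val_inv_eq_inv_val, map_inv₀]⟩

lemma Sq_le_Low {S : Subgroup Fˣ} (hS : Sq F ≤ S) (T : Set (HeightOneSpectrum (𝓞 F))) :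
    Sq F ≤ Low S T := by
  rintro x hx
  refine ⟨hS hx, fun v _ => ?_⟩
  obtain ⟨y, rfl⟩ := hx
  exact ⟨algebraMap F _ (y : F), by
    rw [powMonoidHom_apply, Units.val_pow_eq_pow_val, map_pow]⟩

end

section

variable {F : Type} [Field F] [NumberField F] [Algebra ℚ F] [FiniteDimensional ℚ F] {A B : ℤ}

/-- the combination of the two bounds -/
theorem comb' (hB : B ≠ 0) (hD : A ^ 2 - 4 * B ≠ 0) (hodd : Odd (Module.finrank ℚ F))
    {S1g S2g S3g : Subgroup Fˣ} {u h t s : ℕ}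
    (hf1 : Finite (S1g.map (QuotientGroup.mk' (Sq F))))
    (hf2 : Finite (S2g.map (QuotientGroup.mk' (Sq F))))
    (H1 : ∀ b : Fˣ, (∃ r : ℚ, Algebra.norm ℚ (b : F) = r ^ 2) → L1 A B (b : F) → b ∈ S1g)
    (H2 : ∀ b : Fˣ, (∃ r : ℚ, Algebra.norm ℚ (b : F) = r ^ 2) → L2 A B (b : F) → b ∈ S2g)
    (hSq : Sq F ≤ S3g)
    (hS : ∀ b ∈ S3g, Pool.Agent.TH841.NF.D.IsShaCoc (gc A B F)
      (fb (gc_isT hB hD F) (b : F)))
    (hN : ∀ b ∈ S3g, ∃ r : ℚ, Algebra.norm ℚ (b : F) = r ^ 2)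
    (hc1 : Nat.card (S1g.map (QuotientGroup.mk' (Sq F))) ≤ 2 ^ t * h)
    (hc2 : Nat.card (S2g.map (QuotientGroup.mk' (Sq F))) ≤ 2 ^ s * (2 ^ u * h))
    (hc3 : 2 ^ u * h ≤ 2 ^ t * Nat.card (S3g.map (QuotientGroup.mk' (Sq F)))) :
    Con3 F A B u h t s := by
  obtain ⟨e⟩ := exists_e F
  obtain ⟨T, hTr⟩ := exists_tr (gcC (F := F) A B) e
  obtain ⟨hfin, hup⟩ := upper hB hD hodd e hTr H1 H2
  have hcard := card_half hB hD hodd e hTr
  have hrank := rank_add hB hD hodd e hTr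
  set r := Module.finrank ℤ T.ker with hr
  have hfN : Finite (N2 (F := F) A B e) := by
    refine Finite.of_injective (fun x : N2 (F := F) A B e => ((x,
      (0 : T.ker ⧸ (zsmulAddGroupHom (α := T.ker) 2).range)) :
      N2 (F := F) A B e × (T.ker ⧸ (zsmulAddGroupHom (α := T.ker) 2).range))) ?_
    intro x y hxy
    exact congrArg Prod.fst hxy
  have hlow := lower hB hD hodd (gc_isT hB hD F) (gc_isT hB hD ℚ) e hTr hSq hS hN
  rw [Nat.card_prod, hcard] at hup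
  have hcr : ∀ y, coS (gcC (F := F) A B) e (rsS (gcC (F := F) A B) e y) =
    Module.finrank ℚ F • y := fun y => coS_rsS (gcC (F := F) A B) e y
  let N : AddSubgroup (Pool.Agent.TH841.NF.D.Sha (gc A B F)) :=
    AddCommGroup.primaryComponent (Pool.Agent.TH841.NF.D.Sha (gc A B F)) 2 ⊓
      (coS (gcC (F := F) A B) e).ker
  have hNm : ∀ x, x ∈ N ↔ (∃ m : ℕ, 2 ^ m • x = 0) ∧ coS (gcC (F := F) A B) e x = 0 :=
    fun x => Iff.rfl
  have hinj : Function.Injective (fun x : {x : N // 2 • x = 0} =>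
      (⟨x.1.1, by
        have := congrArg Subtype.val x.2
        exact this, x.1.2.2⟩ : N2 (F := F) A B e)) := by
    intro x y h
    exact Subtype.ext (Subtype.ext (congrArg (fun z : N2 (F := F) A B e => z.1) h))
  have hinj' : Function.Injective (fun x : N2 (F := F) A B e =>
      (⟨⟨x.1, (hNm x.1).2 ⟨⟨1, by rw [pow_one]; exact x.2.1⟩, x.2.2⟩⟩,
        Subtype.ext x.2.1⟩ : {x : N // 2 • x = 0})) := by
    intro x y h
    exact Subtype.ext (congrArg (fun z : {x : N // 2 • x = 0} => z.1.1) h)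
  have hfN' : Finite {x : N // 2 • x = 0} := Finite.of_injective _ hinj
  have hle1 := Nat.card_le_card_of_injective _ hinj
  have hle2 := Nat.card_le_card_of_injective _ hinj'
  have hNeq : Nat.card {x : N // 2 • x = 0} = Nat.card (N2 (F := F) A B e) := le_antisymm hle1 hle2
  refine ⟨N, fun x hx => ((hNm x).1 hx).1, hfN', ?_, ?_,
    Pool.Agent.R432.split (coS (gcC (F := F) A B) e) (rsS (gcC (F := F) A B) e) hodd hcr N hNm⟩
  · rw [Pool.Agent.R432.rkN, Pool.Agent.R432.rkQ, hNeq, hrank, pow_add, pow_add, pow_add, mul_assoc,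
      mul_assoc, mul_assoc]
    refine Nat.mul_le_mul_left _ ?_
    calc 2 ^ u * h ≤ 2 ^ t * Nat.card (S3g.map (QuotientGroup.mk' (Sq F))) := hc3
      _ ≤ 2 ^ t * (2 ^ r * Nat.card (N2 (F := F) A B e)) := Nat.mul_le_mul_left _ hlow
      _ = _ := by ring
  · have e1 : 2 ^ (Pool.Agent.TH841.SH.D.rk (gc A B ℚ) + u + t + s) * h ^ 2 =
        2 ^ Pool.Agent.TH841.SH.D.rk (gc A B ℚ) * ((2 ^ t * h) * (2 ^ s * (2 ^ u * h))) := by
      rw [pow_add, pow_add, pow_add]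
      ring
    rw [e1, Pool.Agent.R432.rkN, Pool.Agent.R432.rkQ, hNeq, hrank, pow_add, mul_assoc]
    refine Nat.mul_le_mul_left _ ?_
    calc 2 ^ r * Nat.card (N2 (F := F) A B e) = Nat.card (N2 (F := F) A B e) * 2 ^ r := mul_comm _ _
      _ ≤ _ := hup
      _ ≤ _ := Nat.mul_le_mul hc1 hc2

variable {a c : ℤ}

/-- **the first type** -/
theorem typeI' (ha : a % 4 = 1) (hc : c ≠ 0) (hD : a ^ 2 ≠ 64 * c)
    (hreal : c < 0 ∨ (0 < a ∧ 64 * c < a ^ 2)) (hodd : Odd (Module.finrank ℚ F))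
    {TD TC : Finset (HeightOneSpectrum (𝓞 F))} (h2T : ∀ v ∈ TD, (2 : 𝓞 F) ∉ v.asIdeal)
    (hTD : ∀ v ∉ TD, (Un v ∨ Tw v (a : F) ((16 * c : ℤ) : F)) ∨
      ((a ^ 2 - 64 * c : ℤ) : 𝓞 F) ∉ v.asIdeal)
    (hTC : ∀ v ∉ TC, (Un v ∨ Tw v (a : F) ((16 * c : ℤ) : F)) ∨ (c : 𝓞 F) ∉ v.asIdeal) :
    Con3 F (-2 * a) (a ^ 2 - 64 * c) (Units.rank F)
      (Nat.card {g : ClassGroup (𝓞 F) // g ^ 2 = 1}) TD.card TC.card := by
  classical
  have hD0 : a ^ 2 - 64 * c ≠ 0 := sub_ne_zero.2 hD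
  have hD1 : (-2 * a) ^ 2 - 4 * (a ^ 2 - 64 * c) ≠ 0 := by
    have : (-2 * a) ^ 2 - 4 * (a ^ 2 - 64 * c) = 256 * c := by ring
    rw [this]
    exact mul_ne_zero (by norm_num) hc
  obtain ⟨hf1, hc1⟩ := card_V0p (K := F)
  have hc2 := card_EVn (F := F) hodd
  rw [card_tw_Cw] at hc1 hc2
  have hne : Nat.card {g : ClassGroup (𝓞 F) // g ^ 2 = 1} ≠ 0 := by
    have : Nonempty {g : ClassGroup (𝓞 F) // g ^ 2 = 1} := ⟨⟨1, one_pow 2⟩⟩
    have hfc : Finite (ClassGroup (𝓞 F)) := inferInstance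
    exact Nat.card_pos.ne'
  have hf2 : Finite ((EVn F).map (QuotientGroup.mk' (Sq F))) := by
    apply Nat.finite_of_card_ne_zero
    rw [hc2]
    exact mul_ne_zero (pow_ne_zero _ two_ne_zero) hne
  -- the first group
  obtain ⟨k1, k2⟩ := card_compare (F := F) (S := V0p F) (S' := TP F ⊓ V0T F TD)
    (fun b hb => ⟨hb.1, fun v _ => hb.2 v⟩) TD (fun v b => par v b = 0) (by
      rintro b ⟨hb1, hb2⟩ b' ⟨hb1', hb2'⟩ hp
      refine ⟨(TP F).mul_mem ((TP F).inv_mem hb1) hb1', fun v => ?_⟩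
      by_cases hv : v ∈ TD
      · refine unrC_of_par (val_two (h2T v hv)) ?_
        rw [par_mul, par_inv]
        have h3 : ∀ x y : ZMod 2, (x = 0 ↔ y = 0) → x + y = 0 := by decide
        exact h3 _ _ (hp v hv)
      · exact (V0T F TD).mul_mem ((V0T F TD).inv_mem hb2) hb2' v hv) hf1
  -- the second group
  let ES : Subgroup Fˣ :=
    { carrier := {b | b ∈ ET F TC ∧ ∃ r : ℚ, Algebra.norm ℚ (b : F) = r ^ 2}
      one_mem' := ⟨one_mem _, 1, by rw [Units.val_one, map_one, one_pow]⟩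
      mul_mem' := by
        rintro x y ⟨hx, r, hr⟩ ⟨hy, s, hs⟩
        exact ⟨mul_mem hx hy, r * s, by rw [Units.val_mul, map_mul, hr, hs, mul_pow]⟩
      inv_mem' := by
        rintro x ⟨hx, r, hr⟩
        refine ⟨inv_mem hx, r⁻¹, ?_⟩
        have h1 : Algebra.norm ℚ (((x⁻¹ : Fˣ) : F)) * Algebra.norm ℚ (x : F) = 1 := by
          rw [← map_mul, Units.inv_mul, map_one]
        rw [hr] at h1
        rw [inv_pow]
        exact eq_inv_of_mul_eq_one_left h1 }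
  obtain ⟨k3, k4⟩ := card_compare (F := F) (S := EVn F) (S' := ES)
    (fun b hb => ⟨fun v _ => hb.1 v, hb.2⟩) TC (fun v b => par v b = 0) (by
      rintro b hb b' hb' hp
      have h5 : b⁻¹ * b' ∈ ES := ES.mul_mem (ES.inv_mem hb) hb'
      refine ⟨fun v => ?_, h5.2⟩
      by_cases hv : v ∈ TC
      · rw [par_mul, par_inv]
        have h3 : ∀ x y : ZMod 2, (x = 0 ↔ y = 0) → x + y = 0 := by decide
        exact h3 _ _ (hp v hv)
      · exact h5.1 v hv) hf2
  -- the third group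
  have hfl : Finite ((Low (EVn F) TD).map (QuotientGroup.mk' (Sq F))) := by
    have hle : (Low (EVn F) TD).map (QuotientGroup.mk' (Sq F)) ≤
      (EVn F).map (QuotientGroup.mk' (Sq F)) := Subgroup.map_mono fun b hb => hb.1
    exact Finite.of_injective _ (Subgroup.inclusion_injective hle)
  obtain ⟨-, k5⟩ := card_compare (F := F) (S := Low (EVn F) TD) (S' := EVn F)
    (fun b hb => hb.1) TD (fun v b => ∃ z : v.adicCompletion F, z ^ 2 = algebraMap F _ (b : F)) (by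
      rintro b hb b' hb' hp
      exact ⟨mul_mem (inv_mem hb) hb', fun v hv =>
        sq_mul_loc (h2T v hv) hb.1 hb'.1 (hp v hv)⟩) hfl
  refine comb' hD0 hD1 hodd (S1g := TP F ⊓ V0T F TD) (S2g := ES) (S3g := Low (EVn F) TD) k1 k3
    (fun b hr hL => ⟨pos_first hreal b hL, fun v hv => unr_at ha hodd b hr hL v (hTD v hv)⟩)
    (fun b hr hL => ⟨fun v hv => par_at ha hodd b hr hL v (hTC v hv), hr⟩)
    (Sq_le_Low Sq_le_EVn _) ?_ (fun b hb => hb.1.2)
    (k2.trans (Nat.mul_le_mul_left _ hc1)) (k4.trans (Nat.mul_le_mul_left _ hc2.le))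
    (hc2.symm.le.trans k5)
  intro b hb
  refine sha_evT ha hc hodd b.ne_zero (fun v _ => ?_) (fun v => ev_iff.2 (hb.1.1 v)) hb.1.2
    (Or.inr hreal)
  by_cases hv : v ∈ TD
  · exact Or.inr (Or.inr (hb.2 v hv))
  · rcases hTD v hv with h | h
    · exact Or.inl h
    · exact Or.inr (Or.inl h)

/-- **the second type** -/
theorem typeII' (ha : a % 4 = 1) (hc : 0 < c) (hD : a ^ 2 ≠ 64 * c)
    (hreal : a < 0 ∨ a ^ 2 < 64 * c) (hodd : Odd (Module.finrank ℚ F))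
    {TD TC : Finset (HeightOneSpectrum (𝓞 F))} (h2T : ∀ v ∈ TD, (2 : 𝓞 F) ∉ v.asIdeal)
    (hTD : ∀ v ∉ TD, (Un v ∨ Tw v (a : F) ((16 * c : ℤ) : F)) ∨
      ((a ^ 2 - 64 * c : ℤ) : 𝓞 F) ∉ v.asIdeal)
    (hTC : ∀ v ∉ TC, (Un v ∨ Tw v (a : F) ((16 * c : ℤ) : F)) ∨ (c : 𝓞 F) ∉ v.asIdeal) :
    Con3 F (-2 * a) (a ^ 2 - 64 * c) (InfinitePlace.nrComplexPlaces F)
      (Nat.card {g : NCl F // g ^ 2 = 1}) TD.card TC.card := by
  classical
  have hD0 : a ^ 2 - 64 * c ≠ 0 := sub_ne_zero.2 hD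
  have hD1 : (-2 * a) ^ 2 - 4 * (a ^ 2 - 64 * c) ≠ 0 := by
    have : (-2 * a) ^ 2 - 4 * (a ^ 2 - 64 * c) = 256 * c := by ring
    rw [this]
    exact mul_ne_zero (by norm_num) hc.ne'
  obtain ⟨hf1, hc1⟩ := card_V0q (K := F)
  have hc2 := card_H0 (F := F)
  have hne : Nat.card (tw (NCl F)) ≠ 0 := by
    have : Nonempty (tw (NCl F)) := ⟨⟨1, one_mem _⟩⟩
    exact Nat.card_pos.ne'
  have hf2 : Finite ((H0 F).map (QuotientGroup.mk' (Sq F))) := by
    apply Nat.finite_of_card_ne_zero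
    rw [hc2]
    exact mul_ne_zero (pow_ne_zero _ two_ne_zero) hne
  obtain ⟨k1, k2⟩ := card_compare (F := F) (S := V0 F) (S' := V0T F TD)
    (fun b hb v _ => hb v) TD (fun v b => par v b = 0) (by
      rintro b hb2 b' hb2' hp
      intro v
      by_cases hv : v ∈ TD
      · refine unrC_of_par (val_two (h2T v hv)) ?_
        rw [par_mul, par_inv]
        have h3 : ∀ x y : ZMod 2, (x = 0 ↔ y = 0) → x + y = 0 := by decide
        exact h3 _ _ (hp v hv)
      · exact (V0T F TD).mul_mem ((V0T F TD).inv_mem hb2) hb2' v hv) hf1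
  obtain ⟨k3, k4⟩ := card_compare (F := F) (S := H0 F) (S' := TP F ⊓ ET F TC)
    (fun b hb => ⟨hb.1, fun v _ => hb.2 v⟩) TC (fun v b => par v b = 0) (by
      rintro b hb b' hb' hp
      have h5 : b⁻¹ * b' ∈ TP F ⊓ ET F TC := mul_mem (inv_mem hb) hb'
      refine ⟨h5.1, fun v => ?_⟩
      by_cases hv : v ∈ TC
      · rw [par_mul, par_inv]
        have h3 : ∀ x y : ZMod 2, (x = 0 ↔ y = 0) → x + y = 0 := by decide
        exact h3 _ _ (hp v hv)
      · exact h5.2 v hv) hf2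
  have hfl : Finite ((Low (H0 F) TD).map (QuotientGroup.mk' (Sq F))) := by
    have hle : (Low (H0 F) TD).map (QuotientGroup.mk' (Sq F)) ≤
      (H0 F).map (QuotientGroup.mk' (Sq F)) := Subgroup.map_mono fun b hb => hb.1
    exact Finite.of_injective _ (Subgroup.inclusion_injective hle)
  obtain ⟨-, k5⟩ := card_compare (F := F) (S := Low (H0 F) TD) (S' := H0 F)
    (fun b hb => hb.1) TD (fun v b => ∃ z : v.adicCompletion F, z ^ 2 = algebraMap F _ (b : F)) (by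
      rintro b hb b' hb' hp
      exact ⟨mul_mem (inv_mem hb) hb', fun v hv =>
        sq_mul_loc (h2T v hv) hb.2 hb'.2 (hp v hv)⟩) hfl
  refine comb' hD0 hD1 hodd (S1g := V0T F TD) (S2g := TP F ⊓ ET F TC) (S3g := Low (H0 F) TD) k1 k3
    (fun b hr hL => fun v hv => unr_at ha hodd b hr hL v (hTD v hv))
    (fun b hr hL => ⟨pos_second hc hreal b hL, fun v hv => par_at ha hodd b hr hL v (hTC v hv)⟩)
    (Sq_le_Low Sq_le_H0 _) ?_ (fun b hb => (H0_le_EVn hb.1).2)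
    (k2.trans (Nat.mul_le_mul_left _ hc1)) (k4.trans (Nat.mul_le_mul_left _ hc2.le))
    (hc2.symm.le.trans k5)
  intro b hb
  refine sha_evT ha hc.ne' hodd b.ne_zero (fun v _ => ?_) (fun v => ev_iff.2 (hb.1.2 v))
    (H0_le_EVn hb.1).2 (Or.inl hb.1.1)
  by_cases hv : v ∈ TD
  · exact Or.inr (Or.inr (hb.2 v hv))
  · rcases hTD v hv with h | h
    · exact Or.inl h
    · exact Or.inr (Or.inl h)

end

end Pool.Agent.N922
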