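import Pool.Agent.N922.PK

/-!
# Local solubility for curves over a general number field: the archimedean places
-/

set_option autoImplicit false
set_option linter.unusedSectionVars false

attribute [-instance] DivisionRing.toRatAlgebra

open NumberField IsDedekindDomain

namespace Pool.Agent.N922.Q

open WeierstrassCurve

open Pool.Agent.TH841.SH.D (Pt act Gal Coch IsCoc IsCob LocTriv cob)

open Pool.Agent.Y682

open Pool.Agent.R432

section loc

variable {F : Type} [Field F] [NumberField F]

/-- the complex places -/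
lemma loc_cpx {W : WeierstrassCurve F} {A B : F} {hT : IsT W A B} (b : F) {v : InfinitePlace F}
    (hv : v.IsComplex) : LocTriv _ v.Completion (fb hT b) := by
  let θ := InfinitePlace.Completion.ringEquivComplexOfIsComplex hv
  obtain ⟨z, hz⟩ := IsAlgClosed.exists_pow_nat_eq (θ (algebraMap F v.Completion b)) (n := 2) two_pos
  refine fb_loc_sq hT (z := θ.symm z) ?_
  apply θ.injective
  rw [map_pow, RingEquiv.apply_symm_apply, hz]

/-- the curve -/
abbrev cv (a c : 𝓞 F) : WeierstrassCurve F := wc (-2 * (a : F)) ((a : F) ^ 2 - 64 * (c : F))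

variable {a c : 𝓞 F} {hT : IsT (cv a c) (-2 * (a : F)) ((a : F) ^ 2 - 64 * (c : F))}

/-- a point of the isogenous curve -/
lemma loc_pt {b : F} {L : Type} [Field L] [CharZero L] [Algebra F L]
    {s Y : L} (hb : b ≠ 0) (hs : s ≠ 0)
    (hY : Y ^ 2 = algebraMap F L b * s ^ 2 * ((algebraMap F L b * s ^ 2) ^ 2 +
      algebraMap F L (a : F) * (algebraMap F L b * s ^ 2) + 16 * algebraMap F L (c : F))) :
    LocTriv _ L (fb hT b) := by
  refine fb_loc hT (z := 2 * s) (Y := 8 * Y) hb (mul_ne_zero two_ne_zero hs) ?_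
  rw [mul_pow, hY]
  simp only [map_mul, map_sub, map_pow, map_ofNat, map_neg]
  ring

/-- the first type at a real embedding -/
def TI (a c : 𝓞 F) (φ : F →+* ℝ) : Prop :=
  φ c < 0 ∨ (0 < φ a ∧ 64 * φ c < φ a ^ 2)

/-- the archimedean places -/
lemma loc_inf {b : F} (hb : b ≠ 0) (hpos : ∀ φ : F →+* ℝ, ¬ TI a c φ → 0 < φ b)
    (v : InfinitePlace F) : LocTriv _ v.Completion (fb hT b) := by
  by_cases hv : v.IsReal
  swap
  · exact loc_cpx b (InfinitePlace.not_isReal_iff_isComplex.1 hv)
  let θ := InfinitePlace.Completion.ringEquivRealOfIsReal hv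
  have := charZero_inf v
  let φ : F →+* ℝ := (θ : v.Completion →+* ℝ).comp (algebraMap F v.Completion)
  obtain ⟨t, ht⟩ : ∃ t : ℝ, t = θ (algebraMap F v.Completion b) := ⟨_, rfl⟩
  have ht0 : t ≠ 0 := by
    rw [ht]
    exact (map_ne_zero θ).2 ((map_ne_zero _).2 hb)
  rcases lt_or_gt_of_ne ht0 with h | h
  · -- a negative abscissa
    have hac : TI a c φ := by
      by_contra hcon
      have h1 : 0 < φ b := hpos φ hcon
      have h2 : φ b = t := ht.symm
      rw [h2] at h1
      exact lt_asymm h h1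
    obtain ⟨α, hα⟩ : ∃ α : ℝ, α = φ a := ⟨_, rfl⟩
    obtain ⟨γ, hγ⟩ : ∃ γ : ℝ, γ = φ c := ⟨_, rfl⟩
    unfold TI at hac
    rw [← hα, ← hγ] at hac
    obtain ⟨X, hX, hX2⟩ : ∃ X : ℝ, X < 0 ∧ X ^ 2 + α * X + 16 * γ ≤ 0 := by
      by_cases ha : 0 < α
      · refine ⟨-α / 2, by linarith, ?_⟩
        have h1 : 64 * γ < α ^ 2 := by
          rcases hac with h1 | h1
          · nlinarith
          · exact h1.2
        nlinarith
      · have hc : γ < 0 := by
          rcases hac with h1 | h1
          · exact h1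
          · exact absurd h1.1 ha
        have ha' : α ≤ 0 := not_lt.1 ha
        have hs : 0 < Real.sqrt (α ^ 2 - 64 * γ) := Real.sqrt_pos.2 (by nlinarith [sq_nonneg α])
        have hs2 : Real.sqrt (α ^ 2 - 64 * γ) ^ 2 = α ^ 2 - 64 * γ :=
          Real.sq_sqrt (by nlinarith [sq_nonneg α])
        refine ⟨(-α - Real.sqrt (α ^ 2 - 64 * γ)) / 2, ?_, ?_⟩
        · have h3 : -α < Real.sqrt (α ^ 2 - 64 * γ) := by
            apply Real.lt_sqrt_of_sq_lt
            nlinarith
          linarith
        · nlinarith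
    have h1 : 0 < X / t := div_pos_of_neg_of_neg hX h
    have h2 : θ.symm (Real.sqrt (X / t)) ^ 2 * algebraMap F v.Completion b = θ.symm X := by
      apply θ.injective
      rw [map_mul, map_pow, RingEquiv.apply_symm_apply, Real.sq_sqrt h1.le, ← ht,
        RingEquiv.apply_symm_apply]
      exact div_mul_cancel₀ _ ht0
    have h5 : 0 ≤ X * (X ^ 2 + α * X + 16 * γ) := mul_nonneg_of_nonpos_of_nonpos hX.le hX2
    refine loc_pt (s := θ.symm (Real.sqrt (X / t)))
      (Y := θ.symm (Real.sqrt (X * (X ^ 2 + α * X + 16 * γ)))) hb ?_ ?_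
    · rw [Ne, map_eq_zero]
      exact (Real.sqrt_pos.2 h1).ne'
    · have h3 : algebraMap F v.Completion b * θ.symm (Real.sqrt (X / t)) ^ 2 = θ.symm X := by
        rw [mul_comm]; exact h2
      rw [h3]
      apply θ.injective
      have e1 : θ (algebraMap F v.Completion (a : F)) = α := hα.symm
      have e2 : θ (algebraMap F v.Completion (c : F)) = γ := hγ.symm
      simp only [map_pow, map_mul, map_add, RingEquiv.apply_symm_apply, map_ofNat]
      rw [Real.sq_sqrt h5, e1, e2]
  · refine fb_loc_sq hT (z := θ.symm (Real.sqrt t)) ?_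
    apply θ.injective
    rw [map_pow, RingEquiv.apply_symm_apply, Real.sq_sqrt h.le, ht]

end loc

end Pool.Agent.N922.Q
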