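import Pool.Agent.N922.Q1

/-!
# Local solubility for curves over a general number field: the finite places
-/

set_option autoImplicit false
set_option linter.unusedSectionVars false

attribute [-instance] DivisionRing.toRatAlgebra

open NumberField IsDedekindDomain

namespace Pool.Agent.N922.Q

open WeierstrassCurve

open Pool.Agent.TH841.SH.D (Pt act Gal Coch IsCoc IsCob LocTriv cob)

open Pool.Agent.Y682

open Pool.Agent.R432 hiding loc_inf

open Pool.Agent.N922 (vv_out vv_in ne_of_out vv_four exists_nonsq exists_nonsq0 rep_at)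

section loc

variable {F : Type} [Field F] [NumberField F] [Algebra ℚ F] {a c : 𝓞 F}
  {hT : IsT (cv a c) (-2 * (a : F)) ((a : F) ^ 2 - 64 * (c : F))}
  {v : HeightOneSpectrum (𝓞 F)}

lemma vv_oi (x : 𝓞 F) : vv v (algebraMap F (v.adicCompletion F) (x : F)) ≤ 1 := by
  rw [vv_coe]
  exact v.valuation_le_one x

/-- the places over two -/
lemma loc_two {s k : 𝓞 F} (ha : a = s ^ 2 + 4 * k) (hs : s ∉ v.asIdeal) {β : 𝓞 F}
    (huv : β ∉ v.asIdeal) (h2 : (2 : 𝓞 F) ∈ v.asIdeal) :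
    LocTriv _ (v.adicCompletion F) (fb hT (β : F)) := by
  have hcz := charZero_adic v
  have hvp := v.isPrime
  have hmax : v.asIdeal.IsMaximal := v.isMaximal
  let _ : Field (𝓞 F ⧸ v.asIdeal) := Ideal.Quotient.field v.asIdeal
  have hfin : Finite (𝓞 F ⧸ v.asIdeal) := Ideal.finiteQuotientOfFreeOfNeBot v.asIdeal v.ne_bot
  have hchar : CharP (𝓞 F ⧸ v.asIdeal) 2 := by
    apply CharTwo.of_one_ne_zero_of_two_eq_zero one_ne_zero
    have := (Ideal.Quotient.eq_zero_iff_mem (I := v.asIdeal)).2 h2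
    rwa [map_ofNat] at this
  have hu0 : (β : F) ≠ 0 := ne_of_out huv
  -- a square root modulo `v`
  obtain ⟨z', hz'⟩ : IsSquare ((Ideal.Quotient.mk v.asIdeal) β) :=
    FiniteField.isSquare_of_char_two (CharP.ringChar_of_prime_eq_zero Nat.prime_two (by
      have := CharP.cast_eq_zero (𝓞 F ⧸ v.asIdeal) 2
      exact_mod_cast this)) _
  obtain ⟨z, rfl⟩ := Ideal.Quotient.mk_surjective z'
  have h5 : β - z ^ 2 ∈ v.asIdeal := by
    rw [← Ideal.Quotient.eq_zero_iff_mem, map_sub, hz', map_pow]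
    ring
  have hzv : z ∉ v.asIdeal := by
    intro hz
    apply huv
    have e : β = (β - z ^ 2) + z * z := by ring
    rw [e]
    exact add_mem h5 (v.asIdeal.mul_mem_right _ hz)
  obtain ⟨b, hb⟩ : ∃ b : v.adicCompletion F, b = algebraMap F _ (β : F) := ⟨_, rfl⟩
  obtain ⟨σ, hσ⟩ : ∃ σ : v.adicCompletion F, σ = algebraMap F _ (s : F) := ⟨_, rfl⟩
  obtain ⟨κ, hκ⟩ : ∃ κ : v.adicCompletion F, κ = algebraMap F _ (k : F) := ⟨_, rfl⟩
  obtain ⟨γ, hγ⟩ : ∃ γ : v.adicCompletion F, γ = algebraMap F _ (c : F) := ⟨_, rfl⟩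
  have hβ1 : vv v b = 1 := by rw [hb]; exact vv_out huv
  have hσ1 : vv v σ = 1 := by rw [hσ]; exact vv_out hs
  have hβ0 : b ≠ 0 := by
    rintro h
    rw [h, map_zero] at hβ1
    exact zero_ne_one hβ1
  have hσ0 : σ ≠ 0 := by
    rintro h
    rw [h, map_zero] at hσ1
    exact zero_ne_one hσ1
  obtain ⟨w, hw⟩ := hensel2 v (z := algebraMap F _ (z : F)) (k := κ / σ ^ 2)
    (g := γ / b / σ ^ 4) (β := b) (vv_out hzv) (by
      rw [map_div₀, map_pow, hσ1, one_pow, div_one, hκ]; exact vv_oi k)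
    (by rw [map_div₀, map_div₀, map_pow, hσ1, hβ1, one_pow, div_one, div_one, hγ]; exact vv_oi c) (by
      have h9 : b - (algebraMap F (v.adicCompletion F) (z : F)) ^ 2 =
          algebraMap F _ ((β - z ^ 2 : 𝓞 F) : F) := by
        rw [hb, cast_iv, cast_iv, cast_iv, map_sub, map_pow]
      rw [h9]
      exact vv_in h5)
  by_cases hw0 : w = 0
  · refine fb_loc_sq hT (z := algebraMap F _ (z : F)) ?_
    rw [← hb, ← hw, hw0]
    ring
  · obtain ⟨ζ, hζ⟩ : ∃ ζ : v.adicCompletion F, ζ = algebraMap F _ (z : F) := ⟨_, rfl⟩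
    rw [← hζ] at hw
    -- the unscaled solution
    obtain ⟨W, hW⟩ : ∃ W : v.adicCompletion F, W = w / σ := ⟨_, rfl⟩
    have hW0 : W ≠ 0 := by rw [hW]; exact div_ne_zero hw0 hσ0
    have hwW : w = σ * W := by rw [hW]; field_simp
    have hw2 : ζ ^ 2 + σ * ζ * W - κ * W ^ 2 - γ / b * W ^ 4 = b := by
      have e5 : ζ ^ 2 + σ * ζ * W - κ * W ^ 2 - γ / b * W ^ 4 =
          ζ ^ 2 + ζ * w - κ / σ ^ 2 * w ^ 2 - γ / b / σ ^ 4 * w ^ 4 := by
        rw [hwW]
        field_simp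
      exact e5.trans hw
    refine loc_pt (s := 2 / W) (Y := 4 * b * (σ * W + 2 * ζ) / W ^ 3) hu0
      (div_ne_zero two_ne_zero hW0) ?_
    have hka : algebraMap F (v.adicCompletion F) (a : F) = σ ^ 2 + 4 * κ := by
      rw [hσ, hκ, ha, cast_iv, cast_iv, cast_iv, map_add, map_pow, map_mul, map_ofNat]
    rw [← hb, ← hγ, hka]
    have hw' : b * (ζ ^ 2 + σ * ζ * W - κ * W ^ 2) - γ * W ^ 4 = b * b := by
      have h10 : γ / b * b = γ := div_mul_cancel₀ _ hβ0
      linear_combination b * hw2 + W ^ 4 * h10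
    clear hw hw2
    field_simp
    linear_combination 64 * hw'

/-- the class of the point of order two of the isogenous curve -/
lemma loc_tors (h2 : (2 : 𝓞 F) ∉ v.asIdeal) {b : F} (hb : b ≠ 0) (hc : (c : F) ≠ 0)
    {t : v.adicCompletion F} (ht : t ^ 2 = 16 * algebraMap F _ (c : F) * algebraMap F _ b) :
    LocTriv _ (v.adicCompletion F) (fb hT b) := by
  have hcz := charZero_adic v
  obtain ⟨w, hw, hw0⟩ := Submodule.exists_mem_ne_zero_of_ne_bot v.ne_bot
  obtain ⟨W, hW⟩ : ∃ W : v.adicCompletion F, W = algebraMap F _ (w : F) := ⟨_, rfl⟩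
  have hW1 : vv v W < 1 := by rw [hW]; exact vv_in hw
  have hW0 : W ≠ 0 := by
    rw [hW]
    refine (map_ne_zero _).2 ?_
    exact_mod_cast hw0
  obtain ⟨γ, hγ⟩ : ∃ γ : v.adicCompletion F, γ = algebraMap F _ (c : F) := ⟨_, rfl⟩
  obtain ⟨α, hα⟩ : ∃ α : v.adicCompletion F, α = algebraMap F _ (a : F) := ⟨_, rfl⟩
  have hc0 : γ ≠ 0 := by rw [hγ]; exact (map_ne_zero _).2 hc
  rw [← hγ] at ht
  have hb0 : algebraMap F (v.adicCompletion F) b ≠ 0 := (map_ne_zero _).2 hb
  have ht0 : t ≠ 0 := by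
    rintro rfl
    rw [zero_pow two_ne_zero] at ht
    exact mul_ne_zero (mul_ne_zero (by norm_num) hc0) hb0 ht.symm
  obtain ⟨r, hr⟩ := exists_sqrt' v (x := 1 + α * W ^ 2 + 16 * γ * W ^ 4) (y := 1) one_ne_zero (by
    rw [vv_four h2, map_one, one_pow, one_mul, one_pow]
    have e : (1 + α * W ^ 2 + 16 * γ * W ^ 4 : v.adicCompletion F) - 1 =
        W * (W * (α + 16 * γ * W ^ 2)) := by
      ring
    rw [e, map_mul]
    refine mul_lt_one_of_nonneg_of_lt_one_left zero_le hW1 ?_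
    rw [map_mul]
    refine mul_le_one' hW1.le ((Valuation.map_add _ _ _).trans (max_le ?_ ?_))
    · rw [hα]; exact vv_oi a
    · have e16 : (16 * γ : v.adicCompletion F) = algebraMap F _ ((16 * c : 𝓞 F) : F) := by
        rw [hγ, cast_iv, cast_iv, map_mul, map_ofNat]
      rw [e16, map_mul, map_pow]
      exact mul_le_one' (vv_oi _) (pow_le_one' hW1.le 2))
  refine loc_pt (s := t * W / algebraMap F _ b) (Y := 16 * γ * W * r) hb
    (div_ne_zero (mul_ne_zero ht0 hW0) hb0) ?_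
  have e1 : algebraMap F (v.adicCompletion F) b * (t * W / algebraMap F _ b) ^ 2 =
      16 * γ * W ^ 2 := by
    rw [div_pow, mul_pow, ht]
    field_simp
  rw [e1, mul_pow, hr, ← hα, ← hγ]
  ring

/-- a place outside two and `a² - 64 c`, given a suitable abscissa -/
lemma loc_branch (h2 : (2 : 𝓞 F) ∉ v.asIdeal)
    (h5 : (a ^ 2 - 64 * c : 𝓞 F) ∉ v.asIdeal) {β : 𝓞 F} (huv : β ∉ v.asIdeal)
    (hx : ∃ x' : 𝓞 F ⧸ v.asIdeal, ¬ IsSquare x' ∧
      (x' ^ 2 + (Ideal.Quotient.mk v.asIdeal) a * x' +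
          (Ideal.Quotient.mk v.asIdeal) (16 * c : 𝓞 F) = 0 ∨
        ¬ IsSquare (x' ^ 2 + (Ideal.Quotient.mk v.asIdeal) a * x' +
          (Ideal.Quotient.mk v.asIdeal) (16 * c : 𝓞 F)))) :
    LocTriv _ (v.adicCompletion F) (fb hT (β : F)) := by
  have hcz := charZero_adic v
  have hvp := v.isPrime
  have hmax : v.asIdeal.IsMaximal := v.isMaximal
  let _ : Field (𝓞 F ⧸ v.asIdeal) := Ideal.Quotient.field v.asIdeal
  have hfin : Finite (𝓞 F ⧸ v.asIdeal) := Ideal.finiteQuotientOfFreeOfNeBot v.asIdeal v.ne_bot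
  have hu0 : (β : F) ≠ 0 := ne_of_out huv
  set π := Ideal.Quotient.mk v.asIdeal with hπ
  have hne : ∀ x : 𝓞 F, x ∉ v.asIdeal → π x ≠ 0 := fun x hx h =>
    hx (Ideal.Quotient.eq_zero_iff_mem.1 h)
  have h20 : (2 : 𝓞 F ⧸ v.asIdeal) ≠ 0 := by
    have := hne 2 h2
    rwa [map_ofNat] at this
  -- squares modulo `v` are squares
  have hsq : ∀ x : 𝓞 F, x ∉ v.asIdeal → IsSquare (π x) →
      ∃ t : v.adicCompletion F, t ^ 2 = algebraMap F _ (x : F) := by
    rintro x hx ⟨y', hy'⟩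
    obtain ⟨y, rfl⟩ := Ideal.Quotient.mk_surjective y'
    have h6 : x - y ^ 2 ∈ v.asIdeal := by
      rw [← Ideal.Quotient.eq_zero_iff_mem, map_sub, map_pow]
      change π x - _ = 0
      rw [hy']
      ring
    refine sq_of_res v h2 (fun hy => ?_) h6
    apply hx
    have e : x = (x - y ^ 2) + y * y := by ring
    rw [e]
    exact add_mem h6 (v.asIdeal.mul_mem_right _ hy)
  obtain ⟨γ, hγ⟩ : ∃ γ : v.adicCompletion F, γ = algebraMap F _ (c : F) := ⟨_, rfl⟩
  obtain ⟨α, hα⟩ : ∃ α : v.adicCompletion F, α = algebraMap F _ (a : F) := ⟨_, rfl⟩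
  obtain ⟨b, hb⟩ : ∃ b : v.adicCompletion F, b = algebraMap F _ (β : F) := ⟨_, rfl⟩
  have hb0 : b ≠ 0 := by rw [hb]; exact (map_ne_zero _).2 hu0
  by_cases hus : IsSquare (π β)
  · obtain ⟨t, ht⟩ := hsq _ huv hus
    exact fb_loc_sq hT ht
  obtain ⟨x', hx', hx2⟩ := hx
  obtain ⟨X, rfl⟩ := Ideal.Quotient.mk_surjective x'
  have hXv : X ∉ v.asIdeal := by
    intro h
    apply hx'
    rw [Ideal.Quotient.eq_zero_iff_mem.2 h]
    exact IsSquare.zero
  obtain ⟨G, hG⟩ : ∃ G : 𝓞 F, G = X ^ 2 + a * X + (16 * c : 𝓞 F) := ⟨_, rfl⟩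
  have hGπ : π G = π X ^ 2 + π a * π X + π (16 * c : 𝓞 F) := by
    rw [hG, map_add, map_add, map_mul, map_pow]
  rw [← hGπ] at hx2
  obtain ⟨ξ, hξ⟩ : ∃ ξ : v.adicCompletion F, ξ = algebraMap F _ (X : F) := ⟨_, rfl⟩
  have hξ1 : vv v ξ = 1 := by rw [hξ]; exact vv_out hXv
  have h10 : β * X ∉ v.asIdeal := by
    intro h
    rcases hvp.mem_or_mem h with h | h
    · exact huv h
    · exact hXv h
  obtain ⟨t, ht⟩ := hsq _ h10 (by rw [map_mul]; exact nonsq_mul h20 hus hx')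
  have ht' : t ^ 2 = b * ξ := by
    rw [ht, hb, hξ, cast_iv, cast_iv, cast_iv, map_mul]
  have hb1 : vv v b = 1 := by rw [hb]; exact vv_out huv
  rcases hx2 with hx2 | hx2
  · -- a root of the polynomial
    have hGv : G ∈ v.asIdeal := Ideal.Quotient.eq_zero_iff_mem.1 hx2
    obtain ⟨D, hD⟩ : ∃ D : 𝓞 F, D = 2 * X + a := ⟨_, rfl⟩
    have hDsq : (a ^ 2 - 64 * c : 𝓞 F) - D ^ 2 ∈ v.asIdeal := by
      have e : (a ^ 2 - 64 * c : 𝓞 F) - D ^ 2 = -4 * G := by
        rw [hD, hG]; ring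
      rw [e]
      exact v.asIdeal.mul_mem_left _ hGv
    have hDv : D ∉ v.asIdeal := by
      intro h
      apply h5
      have e : (a ^ 2 - 64 * c : 𝓞 F) = ((a ^ 2 - 64 * c : 𝓞 F) - D ^ 2) + D * D := by
        ring
      rw [e]
      exact add_mem hDsq (v.asIdeal.mul_mem_right _ h)
    obtain ⟨δ, hδ⟩ := sq_of_res v h2 hDv hDsq
    obtain ⟨d, hd⟩ : ∃ d : v.adicCompletion F, d = algebraMap F _ (D : F) := ⟨_, rfl⟩
    have hδ' : δ ^ 2 = α ^ 2 - 64 * γ := by
      rw [hδ, cast_iv, map_sub, map_pow, map_mul, map_ofNat, hα, hγ, cast_iv, cast_iv]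
    have hd' : d = 2 * ξ + α := by
      rw [hd, hξ, hα, hD, cast_iv, cast_iv, cast_iv, map_add, map_mul, map_ofNat]
    have hd1 : vv v d = 1 := by rw [hd]; exact vv_out hDv
    have hprod : vv v ((δ - d) * (δ + d)) < 1 := by
      have e : (δ - d) * (δ + d) = algebraMap F _ ((((a ^ 2 - 64 * c : 𝓞 F) - D ^ 2 : 𝓞 F)) : F) := by
        rw [cast_iv, map_sub, map_pow, map_sub, map_pow, map_mul, map_ofNat, ← cast_iv, ← cast_iv,
          ← cast_iv, ← hd, ← hα, ← hγ]
        linear_combination hδ'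
      rw [e]
      exact vv_in hDsq
    -- choose the sign
    obtain ⟨δ', hδ1, hδ2⟩ : ∃ δ' : v.adicCompletion F, δ' ^ 2 = α ^ 2 - 64 * γ ∧
        vv v (δ' - d) < 1 := by
      by_contra hcon
      push Not at hcon
      have h7 := hcon δ hδ'
      have h8 := hcon (-δ) (by rw [neg_sq, hδ'])
      have e : -δ - d = -(δ + d) := by ring
      rw [e, Valuation.map_neg] at h8
      rw [map_mul] at hprod
      exact absurd hprod (not_lt.2 (one_le_mul h7 h8))
    obtain ⟨ρ, hρ⟩ : ∃ ρ : v.adicCompletion F, ρ = (δ' - α) / 2 := ⟨_, rfl⟩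
    have h21 : vv v (2 : v.adicCompletion F) = 1 := by
      have := vv_out h2
      rwa [cast_iv, map_ofNat] at this
    have hρξ : vv v (ρ - ξ) < 1 := by
      have e : ρ - ξ = (δ' - d) / 2 := by rw [hρ, hd']; ring
      rw [e, map_div₀, h21, div_one]
      exact hδ2
    have hroot : ρ ^ 2 + α * ρ + 16 * γ = 0 := by
      rw [hρ]
      linear_combination (1 / 4 : v.adicCompletion F) * hδ1
    -- `b ρ` is a square
    obtain ⟨τ, hτ⟩ := exists_sqrt' v (x := b * ρ) (y := t) (by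
      rintro rfl
      rw [zero_pow two_ne_zero, eq_comm, mul_eq_zero] at ht'
      rcases ht' with h | h
      · exact hb0 h
      · rw [h, map_zero] at hξ1
        exact zero_ne_one hξ1) (by
      have e : b * ρ - t ^ 2 = b * (ρ - ξ) := by rw [ht']; ring
      rw [e, map_mul, hb1, one_mul, vv_four h2, one_mul, ← map_pow, ht', map_mul, hb1, hξ1, one_mul]
      exact hρξ)
    have hρ0 : ρ ≠ 0 := by
      rintro h
      rw [h, zero_sub, Valuation.map_neg, hξ1] at hρξ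
      exact lt_irrefl _ hρξ
    have hτ0 : τ ≠ 0 := by
      rintro rfl
      rw [zero_pow two_ne_zero] at hτ
      exact mul_ne_zero hb0 hρ0 hτ.symm
    refine loc_pt (s := τ / b) (Y := 0) hu0 (div_ne_zero hτ0 hb0) ?_
    have h11 : algebraMap F (v.adicCompletion F) (β : F) * (τ / b) ^ 2 = ρ := by
      rw [← hb, div_pow, hτ]
      field_simp
    rw [h11, ← hα, ← hγ, hroot]
    ring
  · -- not a root
    have h8 : IsSquare (π (X * G)) := by
      rw [map_mul]
      exact nonsq_mul h20 hx' hx2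
    have h9 : X * G ∉ v.asIdeal := by
      intro h
      rcases hvp.mem_or_mem h with h | h
      · exact hXv h
      · apply hx2
        rw [Ideal.Quotient.eq_zero_iff_mem.2 h]
        exact IsSquare.zero
    obtain ⟨y, hy⟩ := hsq _ h9 h8
    have hξ0 : ξ ≠ 0 := by
      rintro h
      rw [h, map_zero] at hξ1
      exact zero_ne_one hξ1
    have ht0 : t ≠ 0 := by
      rintro rfl
      rw [zero_pow two_ne_zero] at ht'
      exact mul_ne_zero hb0 hξ0 ht'.symm
    refine loc_pt (s := t / b) (Y := y) hu0 (div_ne_zero ht0 hb0) ?_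
    have h11 : algebraMap F (v.adicCompletion F) (β : F) * (t / b) ^ 2 = ξ := by
      rw [← hb, div_pow, ht']
      field_simp
    rw [h11, hy, hG, cast_iv, map_mul, map_add, map_add, map_mul, map_mul, map_pow, map_ofNat,
      ← cast_iv, ← cast_iv, ← cast_iv, ← hξ, ← hα, ← hγ]

/-- a place outside two and `a² - 64 c` -/
lemma loc_mult (hc : (c : F) ≠ 0) (h2 : (2 : 𝓞 F) ∉ v.asIdeal)
    (h5 : (a ^ 2 - 64 * c : 𝓞 F) ∉ v.asIdeal) {β : 𝓞 F} (huv : β ∉ v.asIdeal) :
    LocTriv _ (v.adicCompletion F) (fb hT (β : F)) := by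
  have hvp := v.isPrime
  have hmax : v.asIdeal.IsMaximal := v.isMaximal
  let _ : Field (𝓞 F ⧸ v.asIdeal) := Ideal.Quotient.field v.asIdeal
  have hfin : Finite (𝓞 F ⧸ v.asIdeal) := Ideal.finiteQuotientOfFreeOfNeBot v.asIdeal v.ne_bot
  have h20 : (2 : 𝓞 F ⧸ v.asIdeal) ≠ 0 := by
    intro h
    apply h2
    rw [← Ideal.Quotient.eq_zero_iff_mem, map_ofNat]
    exact h
  by_cases h3 : c ∈ v.asIdeal
  · have hav : a ∉ v.asIdeal := by
      intro h
      apply h5
      have e : (a ^ 2 - 64 * c : 𝓞 F) = a * a - c * 64 := by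
        ring
      rw [e]
      exact sub_mem (v.asIdeal.mul_mem_right _ h) (v.asIdeal.mul_mem_right _ h3)
    have ha0 : (Ideal.Quotient.mk v.asIdeal) a ≠ 0 :=
      fun h => hav (Ideal.Quotient.eq_zero_iff_mem.1 h)
    obtain ⟨x', hx', hx2⟩ := exists_nonsq0 (k := 𝓞 F ⧸ v.asIdeal) h20 ha0
    have hc0 : (Ideal.Quotient.mk v.asIdeal) (16 * c : 𝓞 F) = 0 := by
      rw [Ideal.Quotient.eq_zero_iff_mem]
      exact v.asIdeal.mul_mem_left _ h3
    refine loc_branch h2 h5 huv ⟨x', hx', ?_⟩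
    rw [hc0, add_zero]
    exact hx2
  · have hu0 : (β : F) ≠ 0 := ne_of_out huv
    have hsq : ∀ x : 𝓞 F, x ∉ v.asIdeal → IsSquare ((Ideal.Quotient.mk v.asIdeal) x) →
        ∃ t : v.adicCompletion F, t ^ 2 = algebraMap F _ (x : F) := by
      rintro x hx ⟨y', hy'⟩
      obtain ⟨y, rfl⟩ := Ideal.Quotient.mk_surjective y'
      have h6 : x - y ^ 2 ∈ v.asIdeal := by
        rw [← Ideal.Quotient.eq_zero_iff_mem, map_sub, map_pow, hy']
        ring
      refine sq_of_res v h2 (fun hy => ?_) h6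
      apply hx
      have e : x = (x - y ^ 2) + y * y := by ring
      rw [e]
      exact add_mem h6 (v.asIdeal.mul_mem_right _ hy)
    by_cases hus : IsSquare ((Ideal.Quotient.mk v.asIdeal) β)
    · obtain ⟨t, ht⟩ := hsq _ huv hus
      exact fb_loc_sq hT ht
    by_cases hcs : IsSquare ((Ideal.Quotient.mk v.asIdeal) c)
    · have h16 : (16 : 𝓞 F) = 2 ^ 4 := by norm_num
      have hB0 : (Ideal.Quotient.mk v.asIdeal) (16 * c : 𝓞 F) ≠ 0 := by
        intro h
        rw [Ideal.Quotient.eq_zero_iff_mem] at h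
        rcases hvp.mem_or_mem h with h | h
        · rw [h16] at h
          exact h2 (hvp.mem_of_pow_mem 4 h)
        · exact h3 h
      have hBs : IsSquare ((Ideal.Quotient.mk v.asIdeal) (16 * c : 𝓞 F)) := by
        obtain ⟨r, hr⟩ := hcs
        refine ⟨4 * r, ?_⟩
        rw [map_mul, hr, map_ofNat]
        ring
      have hDis : (Ideal.Quotient.mk v.asIdeal) a ^ 2 -
          4 * (Ideal.Quotient.mk v.asIdeal) (16 * c : 𝓞 F) ≠ 0 := by
        intro h
        apply h5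
        rw [← Ideal.Quotient.eq_zero_iff_mem, ← h, map_sub, map_pow, map_mul, map_mul, map_ofNat,
          map_ofNat]
        ring
      obtain ⟨x', hx', hx2⟩ := exists_nonsq (k := 𝓞 F ⧸ v.asIdeal) h20
        (a := (Ideal.Quotient.mk v.asIdeal) a) (b := (Ideal.Quotient.mk v.asIdeal) (16 * c : 𝓞 F))
        hB0 hBs hDis
      exact loc_branch h2 h5 huv ⟨x', hx', hx2⟩
    · have h10 : c * β ∉ v.asIdeal := by
        intro h
        rcases hvp.mem_or_mem h with h | h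
        · exact h3 h
        · exact huv h
      obtain ⟨t, ht⟩ := hsq _ h10 (by rw [map_mul]; exact nonsq_mul h20 hcs hus)
      refine loc_tors h2 hu0 hc (t := 4 * t) ?_
      rw [mul_pow, ht, cast_iv, map_mul, ← cast_iv, ← cast_iv]
      ring

end loc

end Pool.Agent.N922.Q
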