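import Pool.Agent.N922.Q2

/-!
# The order of the group of the Selmer cocycles
-/

set_option autoImplicit false
set_option linter.unusedSectionVars false

attribute [-instance] DivisionRing.toRatAlgebra

open NumberField IsDedekindDomain

namespace Pool.Agent.N922.Q

open WeierstrassCurve

open Pool.Agent.TH841.NF

open Pool.Agent.TH841.SH (IsR IsX gf isX_zero isX_some not_isX)

open Pool.Agent.TH841.SH.D (Pt act Gal Coch IsCoc IsCob LocTriv cob)

open Pool.Agent.Y682

open Pool.Agent.R432 (fb fb_coc fb_add fb_sq fb_two fb_inj fb_loc_sq nonsq_mul sq_of_res)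

section

variable {K : Type} [Field K] [NumberField K] {W : WeierstrassCurve K} {A B : K}

/-- the number of the Selmer cocycles, upper bound -/
theorem Zc_upper (hT : IsT W A B) [Finite (Zc W)] :
    Nat.card (Zc W) ≤ 4 * 2 ^ (Module.finrank ℤ (MP W)) *
      Nat.card {x : Pool.Agent.TH841.NF.D.Sha W // 2 • x = 0} := by
  classical
  have hfg : Module.Finite ℤ (MP W) := fg_MP hT
  obtain ⟨hfin1, -⟩ := Zc_lower hT
  have hsha : ∀ x : {x : Pool.Agent.TH841.NF.D.Sha W // 2 • x = 0}, ∃ f : Zc W,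
      (QuotientAddGroup.mk (⟨f.1, f.2.1⟩ : Pool.Agent.TH841.NF.D.shaCoc W) :
        Pool.Agent.TH841.NF.D.Sha W) = x.1 := by
    rintro ⟨x, hx⟩
    induction x using QuotientAddGroup.induction_on with
    | H f0 =>
      have h1 : IsCob W ((2 • f0 : Pool.Agent.TH841.NF.D.shaCoc W) : Coch W) :=
        (QuotientAddGroup.eq_zero_iff (2 • f0)).1 hx
      obtain ⟨P0, hP0⟩ := isCob_iff.1 h1
      obtain ⟨Q0, hQ0⟩ := exists_half hT P0
      have hP0' : f0.1 + f0.1 = dl Q0 + dl Q0 := by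
        rw [← dl_add, ← hQ0, ← hP0, two_smul]
        rfl
      refine ⟨⟨f0.1 - dl Q0, sha_sub f0.2 (dl_sha Q0), fun σ => ?_⟩, ?_⟩
      · have h3 : f0.1 - dl Q0 + (f0.1 - dl Q0) = (f0.1 + f0.1) - (dl Q0 + dl Q0) := by abel
        have h4 : f0.1 - dl Q0 + (f0.1 - dl Q0) = 0 := by rw [h3, hP0', sub_self]
        exact congrFun h4 σ
      · refine (QuotientAddGroup.eq (s := (cob W).addSubgroupOf
          (Pool.Agent.TH841.NF.D.shaCoc W))).2 ?_
        change IsCob W (-(f0.1 - dl Q0) + f0.1)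
        refine isCob_iff.2 ⟨Q0, ?_⟩
        abel
  choose fs hfs using hsha
  have hpt : ∀ q : MP W ⧸ (zsmulAddGroupHom (α := MP W) 2).range, ∃ (P : MP W)
      (Q : Pt W (AlgebraicClosure K)), (QuotientAddGroup.mk P : MP W ⧸ _) = q ∧
      inc W P = Q + Q := by
    intro q
    obtain ⟨P, hP⟩ := QuotientAddGroup.mk_surjective q
    obtain ⟨Q, hQ⟩ := exists_half hT (inc W P)
    exact ⟨P, Q, hP, hQ⟩
  choose Pq Qv hPq hQv using hpt
  have hQZ : ∀ q, dl (Qv q) ∈ Zc W := by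
    intro q
    refine ⟨dl_sha _, fun σ => ?_⟩
    have h1 : dl (Qv q) + dl (Qv q) = 0 := by rw [← dl_add, ← hQv, dl_inc]
    exact congrFun h1 σ
  have hRZ : ∀ t ∈ ((dlh W).comp (tp2 W).subtype).range, t ∈ Zc W := by
    rintro _ ⟨R, rfl⟩
    refine ⟨dl_sha _, fun σ => ?_⟩
    have h1 : dl R.1 + dl R.1 = 0 := by
      rw [← dl_add]
      have : R.1 + R.1 = 0 := R.2
      rw [this, dl_zero]
    exact congrFun h1 σ
  let G : {x : Pool.Agent.TH841.NF.D.Sha W // 2 • x = 0} ×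
      (MP W ⧸ (zsmulAddGroupHom (α := MP W) 2).range) × ((dlh W).comp (tp2 W).subtype).range →
      Zc W := fun y => fs y.1 + ⟨dl (Qv y.2.1), hQZ _⟩ + ⟨y.2.2.1, hRZ _ y.2.2.2⟩
  have hG : Function.Surjective G := by
    intro f
    have hf2 : f.1 + f.1 = 0 := funext f.2.2
    obtain ⟨x, hx⟩ : ∃ x : {x : Pool.Agent.TH841.NF.D.Sha W // 2 • x = 0},
        (QuotientAddGroup.mk (⟨f.1, f.2.1⟩ : Pool.Agent.TH841.NF.D.shaCoc W) :
          Pool.Agent.TH841.NF.D.Sha W) = x.1 := by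
      refine ⟨⟨_, ?_⟩, rfl⟩
      refine (QuotientAddGroup.eq_zero_iff (2 • (⟨f.1, f.2.1⟩ : Pool.Agent.TH841.NF.D.shaCoc W))).2 ?_
      change IsCob W ((2 • (⟨f.1, f.2.1⟩ : Pool.Agent.TH841.NF.D.shaCoc W) :
        Pool.Agent.TH841.NF.D.shaCoc W) : Coch W)
      have h1 : ((2 • (⟨f.1, f.2.1⟩ : Pool.Agent.TH841.NF.D.shaCoc W) :
        Pool.Agent.TH841.NF.D.shaCoc W) : Coch W) = 0 := by
        rw [two_smul]
        exact hf2
      rw [h1]
      exact (cob W).zero_mem
    obtain ⟨P, hP⟩ : ∃ P, f.1 - (fs x).1 = dl P := by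
      rw [← hfs x] at hx
      have h1 : IsCob W (-(fs x).1 + f.1) := (QuotientAddGroup.eq (s := (cob W).addSubgroupOf
          (Pool.Agent.TH841.NF.D.shaCoc W))).1 hx.symm
      obtain ⟨P, hP⟩ := isCob_iff.1 h1
      exact ⟨P, by rw [← hP]; abel⟩
    have hfs2 : (fs x).1 + (fs x).1 = 0 := funext (fs x).2.2
    obtain ⟨M, hM⟩ := exists_inc (P := P + P) (by
      rw [dl_add, ← hP]
      have h3 : f.1 - (fs x).1 + (f.1 - (fs x).1) = (f.1 + f.1) - ((fs x).1 + (fs x).1) := by abel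
      rw [h3, hf2, hfs2, sub_self])
    obtain ⟨q, hq⟩ : ∃ q : MP W ⧸ (zsmulAddGroupHom (α := MP W) 2).range,
      q = QuotientAddGroup.mk M := ⟨_, rfl⟩
    have h4 := hPq q
    rw [hq, QuotientAddGroup.eq] at h4
    obtain ⟨M', hM'⟩ := h4
    have hM'' : M' + M' = -(Pq q) + M := by
      have h5 : (2 : ℤ) • M' = -(Pq q) + M := by rw [hq]; exact hM'
      rw [← h5, two_zsmul]
    obtain ⟨R, hR⟩ : ∃ R, R = P - Qv q - inc W M' := ⟨_, rfl⟩
    have hRR : R + R = 0 := by
      have h5 : R + R = (P + P) - (Qv q + Qv q) - inc W (M' + M') := by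
        rw [hR, map_add]; abel
      rw [h5, hM'', map_add, map_neg, hM, hQv]
      abel
    refine ⟨(x, q, ⟨dl R, ⟨R, hRR⟩, rfl⟩), Subtype.ext ?_⟩
    change (fs x).1 + dl (Qv q) + dl R = f.1
    have h6 : dl P = dl (Qv q) + dl R := by
      rw [hR, dl_sub, dl_sub, dl_inc, sub_zero]; abel
    have h7 : f.1 = (fs x).1 + dl P := by rw [← hP]; abel
    rw [h7, h6]
    abel
  have hq := Pool.Agent.TeamU.card_quot_two (MP W)
  have h4 := card_tp2 hT
  have hfin4 : Finite (tp2 W) := Nat.finite_of_card_ne_zero (by rw [h4]; norm_num)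
  have hker : Finite (zsmulAddGroupHom (α := MP W) 2).ker := by
    have h5 : Finite ((dlh W).comp (tp2 W).subtype).ker := inferInstance
    apply Nat.finite_of_card_ne_zero
    rw [← card_ker W]
    exact Nat.card_pos.ne'
  have hfinq : Finite (MP W ⧸ (zsmulAddGroupHom (α := MP W) 2).range) := by
    apply Nat.finite_of_card_ne_zero
    rw [hq]
    exact mul_ne_zero (pow_ne_zero _ two_ne_zero) Nat.card_pos.ne'
  have hfinr : Finite ((dlh W).comp (tp2 W).subtype).range :=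
    Finite.of_surjective _ ((dlh W).comp (tp2 W).subtype).rangeRestrict_surjective
  have hcard := Nat.card_le_card_of_surjective G hG
  rw [Nat.card_prod, Nat.card_prod] at hcard
  have h5 : Nat.card ((dlh W).comp (tp2 W).subtype).range *
      Nat.card ((dlh W).comp (tp2 W).subtype).ker = 4 := by
    rw [← h4, AddSubgroup.card_eq_card_quotient_mul_card_addSubgroup
      ((dlh W).comp (tp2 W).subtype).ker]
    congr 1
    exact (Nat.card_congr (QuotientAddGroup.quotientKerEquivRange _).toEquiv).symm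
  rw [hq, ← card_ker W] at hcard
  calc Nat.card (Zc W) ≤ _ := hcard
    _ = Nat.card {x : Pool.Agent.TH841.NF.D.Sha W // 2 • x = 0} *
        (2 ^ (Module.finrank ℤ (MP W)) * (Nat.card ((dlh W).comp (tp2 W).subtype).range *
          Nat.card ((dlh W).comp (tp2 W).subtype).ker)) := by ring
    _ = _ := by rw [h5]; ring

end

section

variable {F : Type} [Field F] [NumberField F] [Algebra ℚ F] {a c : 𝓞 F}

/-- the elements that are positive at the real embeddings of the second type -/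
def PII (a c : 𝓞 F) : Subgroup Fˣ where
  carrier := {b | ∀ φ : F →+* ℝ, ¬ TI a c φ → 0 < φ b}
  one_mem' := fun φ _ => by rw [Units.val_one, map_one]; exact one_pos
  mul_mem' := by
    rintro x y hx hy φ h
    rw [Units.val_mul, map_mul]
    exact mul_pos (hx φ h) (hy φ h)
  inv_mem' := by
    rintro x hx φ h
    rw [Units.val_inv_eq_inv_val, map_inv₀]
    exact inv_pos.2 (hx φ h)

/-- the elements that are positive at the real embeddings of the first type -/
def PI (a c : 𝓞 F) : Subgroup Fˣ where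
  carrier := {b | ∀ φ : F →+* ℝ, TI a c φ → 0 < φ b}
  one_mem' := fun φ _ => by rw [Units.val_one, map_one]; exact one_pos
  mul_mem' := by
    rintro x y hx hy φ h
    rw [Units.val_mul, map_mul]
    exact mul_pos (hx φ h) (hy φ h)
  inv_mem' := by
    rintro x hx φ h
    rw [Units.val_inv_eq_inv_val, map_inv₀]
    exact inv_pos.2 (hx φ h)

/-- **the classes with even valuations are locally trivial** -/
theorem sha_Q {hT : IsT (cv a c) (-2 * (a : F)) ((a : F) ^ 2 - 64 * (c : F))} {s k : 𝓞 F}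
    (ha : a = s ^ 2 + 4 * k) (ha2 : ∀ v : HeightOneSpectrum (𝓞 F), (2 : 𝓞 F) ∈ v.asIdeal →
      a ∉ v.asIdeal) (hc : c ≠ 0) {b : Fˣ} (hev : b ∈ EV F) (hpos : b ∈ PII a c)
    (hD : ∀ v : HeightOneSpectrum (𝓞 F), (a ^ 2 - 64 * c : 𝓞 F) ∈ v.asIdeal →
      ∃ z : v.adicCompletion F, z ^ 2 = algebraMap F _ (b : F)) :
    Pool.Agent.TH841.NF.D.IsShaCoc (cv a c) (fb hT (b : F)) := by
  refine ⟨fb_coc hT _, fun v => ?_, fun v => loc_inf b.ne_zero hpos v⟩
  by_cases h5 : (a ^ 2 - 64 * c : 𝓞 F) ∈ v.asIdeal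
  · obtain ⟨z, hz⟩ := hD v h5
    exact fb_loc_sq hT hz
  · obtain ⟨β, y, hβ, hy, hby⟩ := rep_at v b.ne_zero (ev_iff.2 (hev v))
    have hβ0 := ne_of_out hβ
    have e : fb hT (b : F) = fb hT (β : F) := by
      rw [hby, fb_add hT hβ0 (pow_ne_zero 2 hy), fb_sq, add_zero]
    rw [e]
    by_cases h2 : (2 : 𝓞 F) ∈ v.asIdeal
    · refine loc_two ha (fun hs => ha2 v h2 ?_) hβ h2
      rw [ha, sq]
      have e4 : (4 : 𝓞 F) * k = 2 * (2 * k) := by ring
      rw [e4]
      exact add_mem (v.asIdeal.mul_mem_right _ hs) (v.asIdeal.mul_mem_right _ h2)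
    · exact loc_mult (by exact_mod_cast hc) h2 h5 hβ

/-- the classes give Selmer cocycles -/
theorem card_le_Zc {W : WeierstrassCurve F} {A B : F} (hT : IsT W A B) {S : Subgroup Fˣ}
    (hS : ∀ b ∈ S, Pool.Agent.TH841.NF.D.IsShaCoc W (fb hT (b : F))) [Finite (Zc W)] :
    Nat.card (S.map (QuotientGroup.mk' (Sq F))) ≤ Nat.card (Zc W) := by
  classical
  have hb : ∀ q : S.map (QuotientGroup.mk' (Sq F)), ∃ b : Fˣ, b ∈ S ∧
    QuotientGroup.mk' (Sq F) b = q.1 := fun q => q.2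
  choose b hb1 hb2 using hb
  refine Nat.card_le_card_of_injective (fun q => (⟨fb hT (b q : F), hS _ (hb1 q),
    fb_two hT _⟩ : Zc W)) ?_
  intro q q' h
  have h1 : fb hT (b q : F) = fb hT (b q' : F) := congrArg Subtype.val h
  have h2 : fb hT ((b q : F) * (b q' : F)) = 0 := by
    rw [fb_add hT (b q).ne_zero (b q').ne_zero, ← h1]
    funext σ
    exact fb_two hT _ σ
  obtain ⟨y, hy⟩ := fb_inj hT h2
  have hy0 : y ≠ 0 := by
    rintro rfl
    rw [zero_pow two_ne_zero] at hy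
    exact mul_ne_zero (b q).ne_zero (b q').ne_zero hy.symm
  apply Subtype.ext
  rw [← hb2 q, ← hb2 q', QuotientGroup.mk'_apply, QuotientGroup.mk'_apply, QuotientGroup.eq]
  refine ⟨Units.mk0 y hy0 * (b q)⁻¹, ?_⟩
  apply Units.ext
  rw [powMonoidHom_apply, mul_pow, Units.val_mul, Units.val_pow_eq_pow_val, Units.val_mk0, hy,
    Units.val_pow_eq_pow_val, Units.val_inv_eq_inv_val, Units.val_mul, Units.val_inv_eq_inv_val]
  have := (b q).ne_zero
  field_simp

end

end Pool.Agent.N922.Q
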