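import Pool.Agent.N922.Q3

/-!
# Curves over a general number field: the two bounds
-/

set_option autoImplicit false
set_option linter.unusedSectionVars false

attribute [-instance] DivisionRing.toRatAlgebra

open NumberField IsDedekindDomain nonZeroDivisors

namespace Pool.Agent.N922.Q

open WeierstrassCurve

open Pool.Agent.TH841.NF

open Pool.Agent.TH841.SH.D (Pt act Gal Coch IsCoc IsCob LocTriv cob)

open Pool.Agent.Y682

open Pool.Agent.R432 (fb)

section

variable {F : Type} [Field F] [NumberField F] [Algebra ℚ F] [FiniteDimensional ℚ F]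

lemma image_EV : ((EV F).subgroupOf (EV F)).map (chi F) = tw (Cw F) := by
  ext q
  constructor
  · rintro ⟨b, -, rfl⟩
    change (QuotientGroup.mk' (prin F) (Jh F b)) ^ 2 = 1
    rw [← map_pow, Jh_sq, QuotientGroup.mk'_apply, QuotientGroup.eq_one_iff]
    exact ⟨b.1, rfl⟩
  · intro hq
    induction q using QuotientGroup.induction_on with
    | H I =>
      have h1 : (I : Cw F) ^ 2 = 1 := hq
      rw [← QuotientGroup.mk_pow, QuotientGroup.eq_one_iff] at h1
      obtain ⟨x, hx⟩ := h1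
      have hxE := EV_of_sq hx
      exact ⟨⟨x, hxE⟩, hxE, chi_eq hxE hx⟩

/-- the classes with even valuations -/
theorem card_EV : Nat.card ((EV F).map (QuotientGroup.mk' (Sq F))) =
    2 ^ (InfinitePlace.nrRealPlaces F + InfinitePlace.nrComplexPlaces F) *
      Nat.card (tw (Cw F)) := by
  have h0 : (EV F).comap (iU F) = ⊤ := by
    rw [eq_top_iff]
    intro u _
    exact iU_EV u
  have hP := Pool.Agent.TeamU.index_sq (𝓞 F)ˣ
  rw [Units.finrank_eq, card_two, ← pow_succ] at hP
  have h1 : Units.rank F + 1 =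
      InfinitePlace.nrRealPlaces F + InfinitePlace.nrComplexPlaces F := by
    rw [← InfinitePlace.card_eq_nrRealPlaces_add_nrComplexPlaces]
    unfold Units.rank
    exact Nat.sub_add_cancel Fintype.card_pos
  rw [card_ev (EV F) le_rfl Sq_le_EV, h0, Subgroup.relIndex_top_right, image_EV, ← h1]
  congr 1

end

section

variable {F : Type} [Field F] [NumberField F] [Algebra ℚ F] [FiniteDimensional ℚ F] {a c : 𝓞 F}

lemma finite_emb : Finite (F →+* ℝ) := by
  refine Finite.of_injective (β := F →+* ℂ) (fun φ => Complex.ofRealHom.comp φ) ?_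
  intro φ ψ h
  refine RingHom.ext fun x => ?_
  exact Complex.ofReal_injective (DFunLike.congr_fun h x)

/-- the number of the real embeddings of the first type -/
noncomputable def rI (a c : 𝓞 F) : ℕ := Nat.card {φ : F →+* ℝ // TI a c φ}

/-- the number of the real embeddings of the second type -/
noncomputable def rII (a c : 𝓞 F) : ℕ := Nat.card {φ : F →+* ℝ // ¬ TI a c φ}

lemma r_add : rI a c + rII a c = InfinitePlace.nrRealPlaces F := by
  classical
  have := finite_emb (F := F)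
  rw [← Pool.Agent.R432.CX.card_emb]
  unfold rI rII
  rw [← Nat.card_sum]
  exact Nat.card_congr (Equiv.sumCompl (TI a c))

/-- the curve has the points of order two -/
lemma isT_cv (hc : c ≠ 0) (hD : a ^ 2 - 64 * c ≠ 0) :
    IsT (cv a c) (-2 * (a : F)) ((a : F) ^ 2 - 64 * (c : F)) := by
  have hD' : (a : F) ^ 2 - 64 * (c : F) ≠ 0 := by
    intro h
    apply hD
    apply FaithfulSMul.algebraMap_injective (𝓞 F) F
    rw [map_zero, map_sub, map_pow, map_mul, map_ofNat]
    exact h
  have hc' : (c : F) ≠ 0 := by exact_mod_cast hc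
  refine wc_isT hD' ?_
  have : (-2 * (a : F)) ^ 2 - 4 * ((a : F) ^ 2 - 64 * (c : F)) = 256 * (c : F) := by ring
  rw [this]
  exact mul_ne_zero (by norm_num) hc'

/-- the isogenous curve -/
lemma isT_dual (hc : c ≠ 0) (hD : a ^ 2 - 64 * c ≠ 0) :
    IsT (wc (a : F) (16 * (c : F))) (a : F) (16 * (c : F)) := by
  have hD' : (a : F) ^ 2 - 64 * (c : F) ≠ 0 := by
    intro h
    apply hD
    apply FaithfulSMul.algebraMap_injective (𝓞 F) F
    rw [map_zero, map_sub, map_pow, map_mul, map_ofNat]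
    exact h
  have hc' : (c : F) ≠ 0 := by exact_mod_cast hc
  refine wc_isT (mul_ne_zero (by norm_num) hc') ?_
  have : (a : F) ^ 2 - 4 * (16 * (c : F)) = (a : F) ^ 2 - 64 * (c : F) := by ring
  rw [this]
  exact hD'

lemma gd_at {s k : 𝓞 F} (ha : a = s ^ 2 + 4 * k) (v : HeightOneSpectrum (𝓞 F)) :
    Gd v (a : F) (16 * (c : F)) (c : F) :=
  ⟨(s : F), (k : F), by rw [ha]; push_cast; rfl, v.valuation_le_one s, v.valuation_le_one k, rfl,
    v.valuation_le_one c⟩

/-- the second class of the isogenous curve is unramified -/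
lemma unr_K {s k : 𝓞 F} (ha : a = s ^ 2 + 4 * k) {b : F}
    (hL : LL2 (a : F) (16 * (c : F)) b) (v : HeightOneSpectrum (𝓞 F))
    (hD : (a ^ 2 - 64 * c : 𝓞 F) ∉ v.asIdeal) : UnrC (v.valuation F) b := by
  obtain ⟨s', u', hs, hs1, hu1, hC, hC1⟩ := gd_at (c := c) ha v
  refine unr_b2 v (hL.1 v) hs hs1 hu1 hC hC1 ?_
  have e : (a : F) ^ 2 - 4 * (16 * (c : F)) = algebraMap (𝓞 F) F (a ^ 2 - 64 * c) := by
    rw [map_sub, map_pow, map_mul, map_ofNat]; ring
  rw [e, HeightOneSpectrum.valuation_eq_one_iff_notMem]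
  exact hD

/-- the first class of the isogenous curve is even -/
lemma par_K {s k : 𝓞 F} (ha : a = s ^ 2 + 4 * k) {b : Fˣ}
    (hL : LL1 (a : F) (16 * (c : F)) (b : F)) (v : HeightOneSpectrum (𝓞 F))
    (hc : c ∉ v.asIdeal) : par v b = 0 := by
  rw [← ev_iff]
  obtain ⟨s', u', hs, hs1, hu1, hC, hC1⟩ := gd_at (c := c) ha v
  exact even_b1 b.ne_zero v (hL.1 v) hs hs1 hu1 hC
    ((HeightOneSpectrum.valuation_eq_one_iff_notMem v).2 hc)

/-- positivity of the second class of the isogenous curve -/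
lemma posI_K (hD : a ^ 2 - 64 * c ≠ 0) {b : Fˣ} (hL : LL2 (a : F) (16 * (c : F)) (b : F)) :
    b ∈ PI a c := by
  intro φ hφ
  obtain ⟨v, Θ, hΘ⟩ := exists_real φ
  obtain ⟨z, m, hz, hzm, hm⟩ := hL.2 v
  have h1 : φ b * Θ z ^ 2 = Θ m := by
    rw [← hΘ, ← map_pow, ← map_mul, hzm]
  have hz2 : 0 < Θ z ^ 2 := lt_of_le_of_ne (sq_nonneg _)
    (pow_ne_zero 2 ((map_ne_zero Θ).2 hz)).symm
  have hm0 : 0 < Θ m := by
    rcases hm with h' | h' | ⟨h', y, hy⟩
    · rw [h', map_one]; exact one_pos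
    · rw [h', map_sub, map_pow, map_mul, hΘ, hΘ, map_mul, map_ofNat, map_ofNat]
      rcases hφ with h | ⟨h, h''⟩
      · nlinarith [sq_nonneg (φ (a : F))]
      · linarith
    · refine pos_cubic hφ ((map_ne_zero Θ).2 h') (y := Θ y) ?_
      rw [← map_pow, hy, map_mul, map_sub, map_pow, map_sub, map_mul, hΘ, hΘ, map_mul, map_ofNat,
        map_ofNat]
      ring
  rw [← h1] at hm0
  exact (pos_iff_pos_of_mul_pos hm0).2 hz2

/-- positivity of the first class of the isogenous curve -/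
lemma posII_K (hc : c ≠ 0) (hD : a ^ 2 - 64 * c ≠ 0) {b : Fˣ}
    (hL : LL1 (a : F) (16 * (c : F)) (b : F)) : b ∈ PII a c := by
  intro φ hφ
  unfold TI at hφ
  push Not at hφ
  obtain ⟨h1, h2⟩ := hφ
  have hc' : φ (c : F) ≠ 0 := (map_ne_zero φ).2 (by exact_mod_cast hc)
  have h3 : 0 < φ (c : F) := lt_of_le_of_ne h1 hc'.symm
  have hD' : φ (a : F) ^ 2 - 64 * φ (c : F) ≠ 0 := by
    have e : φ (a : F) ^ 2 - 64 * φ (c : F) = φ (algebraMap (𝓞 F) F (a ^ 2 - 64 * c)) := by
      rw [map_sub (algebraMap (𝓞 F) F), map_pow (algebraMap (𝓞 F) F),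
        map_mul (algebraMap (𝓞 F) F), map_ofNat (algebraMap (𝓞 F) F), map_sub, map_pow, map_mul,
        map_ofNat]
    rw [e]
    exact (map_ne_zero φ).2 ((map_ne_zero_iff _ (FaithfulSMul.algebraMap_injective (𝓞 F) F)).2 hD)
  refine pos_b1 hL.2 φ ?_ ?_
  · rw [map_mul, map_ofNat]
    linarith
  · rw [map_mul, map_ofNat]
    rcases lt_trichotomy (φ (a : F)) 0 with h4 | h4 | h4
    · exact Or.inl h4
    · right
      rw [h4]
      linarith
    · right
      have h5 := h2 h4
      have h6 : φ (a : F) ^ 2 < 64 * φ (c : F) :=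
        lt_of_le_of_ne h5 fun h => hD' (by rw [h, sub_self])
      linarith

end

end Pool.Agent.N922.Q
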