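import Pool.Agent.N922.Q4

/-!
# Curves over a general number field: rank and `Ш[2]` in terms of units and class groups
-/

set_option autoImplicit false
set_option linter.unusedSectionVars false

attribute [-instance] DivisionRing.toRatAlgebra

open NumberField IsDedekindDomain nonZeroDivisors

namespace Pool.Agent.N922.Q

open WeierstrassCurve

open Pool.Agent.TH841.NF

open Pool.Agent.TH841.SH.D (Pt act Gal Coch IsCoc IsCob LocTriv cob)

open Pool.Agent.Y682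

open Pool.Agent.R432 (fb)

section

variable {F : Type} [Field F] [NumberField F] [Algebra ℚ F] [FiniteDimensional ℚ F] {a c : 𝓞 F}

/-- the primes dividing an integer -/
lemma finite_dvdK {x : 𝓞 F} (hx : x ≠ 0) :
    {v : HeightOneSpectrum (𝓞 F) | x ∈ v.asIdeal}.Finite := by
  have h0 : Ideal.span {x} ≠ ⊥ := by
    rw [Ne, Ideal.span_singleton_eq_bot]
    exact hx
  refine (Ideal.finite_factors h0).subset fun v hv => ?_
  exact Ideal.dvd_span_singleton.2 hv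

lemma embF (P : (F →+* ℝ) → Prop) : ∃ T : Finset (F →+* ℝ), (∀ φ, φ ∈ T ↔ P φ) ∧
    T.card = Nat.card {φ : F →+* ℝ // P φ} := by
  classical
  have := finite_emb (F := F)
  have : Fintype (F →+* ℝ) := Fintype.ofFinite _
  refine ⟨Finset.univ.filter P, fun φ => by simp, ?_⟩
  rw [Nat.card_eq_fintype_card, Fintype.card_subtype]

lemma neg_or (φ : F →+* ℝ) (b : Fˣ) : 0 < φ b ∨ φ b < 0 :=
  (lt_or_gt_of_ne ((map_ne_zero φ).2 b.ne_zero)).symm

lemma pos_mul_inv {φ : F →+* ℝ} {b b' : Fˣ} (h : 0 < φ b ↔ 0 < φ b') :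
    0 < φ ((b⁻¹ * b' : Fˣ) : F) := by
  rw [Units.val_mul, Units.val_inv_eq_inv_val, map_mul, map_inv₀]
  rcases neg_or φ b with h1 | h1
  · exact mul_pos (inv_pos.2 h1) (h.1 h1)
  · have h2 : φ b' < 0 := by
      rcases neg_or φ b' with h2 | h2
      · exact absurd (h.2 h2) (not_lt.2 h1.le)
      · exact h2
    exact mul_pos_of_neg_of_neg (inv_lt_zero.2 h1) h2

lemma par_mul_inv {v : HeightOneSpectrum (𝓞 F)} {b b' : Fˣ} (h : par v b = 0 ↔ par v b' = 0) :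
    par v (b⁻¹ * b') = 0 := by
  rw [par_mul, par_inv]
  have h3 : ∀ x y : ZMod 2, (x = 0 ↔ y = 0) → x + y = 0 := by decide
  exact h3 _ _ h

/-- the classes with even valuations that are positive at the places of the second type -/
lemma card_S : Finite (((EV F) ⊓ PII a c).map (QuotientGroup.mk' (Sq F))) ∧
    2 ^ (rI a c + InfinitePlace.nrComplexPlaces F) * Nat.card (tw (Cw F)) ≤
      Nat.card (((EV F) ⊓ PII a c).map (QuotientGroup.mk' (Sq F))) ∧
    Nat.card (((EV F) ⊓ PII a c).map (QuotientGroup.mk' (Sq F))) ≤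
      2 ^ (rI a c + InfinitePlace.nrComplexPlaces F) * Nat.card (tw (NCl F)) := by
  classical
  have hc2 := card_H0 (F := F)
  have hne : Nat.card (tw (NCl F)) ≠ 0 := by
    have : Nonempty (tw (NCl F)) := ⟨⟨1, one_mem _⟩⟩
    exact Nat.card_pos.ne'
  have hf2 : Finite ((H0 F).map (QuotientGroup.mk' (Sq F))) := by
    apply Nat.finite_of_card_ne_zero
    rw [hc2]
    exact mul_ne_zero (pow_ne_zero _ two_ne_zero) hne
  obtain ⟨T, hT, hTc⟩ := embF (F := F) (fun φ => TI a c φ)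
  obtain ⟨T', hT', hTc'⟩ := embF (F := F) (fun φ => ¬ TI a c φ)
  obtain ⟨k1, k2⟩ := card_compare (F := F) (S := H0 F) (S' := EV F ⊓ PII a c)
    (fun b hb => ⟨hb.2, fun φ _ => hb.1 φ⟩) T (fun φ b => 0 < φ b) (by
      rintro b ⟨hb, hbp⟩ b' ⟨hb', hbp'⟩ hp
      refine ⟨fun φ => ?_, fun v => (EV F).mul_mem ((EV F).inv_mem hb) hb' v⟩
      by_cases hφ : TI a c φ
      · exact pos_mul_inv (hp φ ((hT φ).2 hφ))
      · exact (PII a c).mul_mem ((PII a c).inv_mem hbp) hbp' φ hφ) hf2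
  obtain ⟨-, k4⟩ := card_compare (F := F) (S := EV F ⊓ PII a c) (S' := EV F)
    inf_le_left T' (fun φ b => 0 < φ b) (by
      rintro b hb b' hb' hp
      refine ⟨(EV F).mul_mem ((EV F).inv_mem hb) hb', fun φ hφ => ?_⟩
      exact pos_mul_inv (hp φ ((hT' φ).2 hφ))) k1
  refine ⟨k1, ?_, ?_⟩
  · rw [card_EV, ← r_add (a := a) (c := c)] at k4
    rw [hTc'] at k4
    have h5 : 2 ^ rII a c * (2 ^ (rI a c + InfinitePlace.nrComplexPlaces F) *
        Nat.card (tw (Cw F))) ≤ 2 ^ rII a c *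
        Nat.card (((EV F) ⊓ PII a c).map (QuotientGroup.mk' (Sq F))) := by
      refine le_trans (le_of_eq ?_) k4
      rw [← mul_assoc, ← pow_add]
      congr 2
      ring
    exact Nat.le_of_mul_le_mul_left h5 (by positivity)
  · refine k2.trans (le_of_eq ?_)
    rw [hc2, hTc, pow_add, mul_assoc]
    rfl

/-- the unramified classes that are positive at the places of the first type -/
lemma card_V : Finite (((V0 F) ⊓ PI a c).map (QuotientGroup.mk' (Sq F))) ∧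
    Nat.card (((V0 F) ⊓ PI a c).map (QuotientGroup.mk' (Sq F))) ≤ Nat.card (tw (NCl F)) := by
  obtain ⟨hf1, hc1⟩ := card_V0q (K := F)
  have hf1' : Finite ((V0 F).map (QuotientGroup.mk' (Sq F))) := hf1
  have hle : ((V0 F) ⊓ PI a c).map (QuotientGroup.mk' (Sq F)) ≤
    (V0 F).map (QuotientGroup.mk' (Sq F)) := Subgroup.map_mono inf_le_left
  exact ⟨Finite.of_injective _ (Subgroup.inclusion_injective hle),
    (Nat.card_le_card_of_injective _ (Subgroup.inclusion_injective hle)).trans hc1⟩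

/-- the same when all the real places are of the first type -/
lemma card_V' (hI : ∀ φ : F →+* ℝ, TI a c φ) :
    Nat.card (((V0 F) ⊓ PI a c).map (QuotientGroup.mk' (Sq F))) ≤ Nat.card (tw (Cw F)) := by
  have e : (V0 F) ⊓ PI a c = V0p F := by
    ext b
    exact ⟨fun h => ⟨fun φ => h.2 φ (hI φ), h.1⟩, fun h => ⟨h.2, fun φ _ => h.1 φ⟩⟩
  rw [e]
  exact card_V0p.2

lemma card_S' (hI : ∀ φ : F →+* ℝ, TI a c φ) :
    Nat.card (((EV F) ⊓ PII a c).map (QuotientGroup.mk' (Sq F))) =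
      2 ^ (rI a c + InfinitePlace.nrComplexPlaces F) * Nat.card (tw (Cw F)) := by
  have e : (EV F) ⊓ PII a c = EV F := inf_eq_left.2 fun b _ φ h => absurd (hI φ) h
  have e1 : rII a c = 0 := by
    have : IsEmpty {φ : F →+* ℝ // ¬ TI a c φ} := ⟨fun φ => φ.2 (hI φ.1)⟩
    exact Nat.card_of_isEmpty
  have e2 := r_add (a := a) (c := c)
  rw [e1, add_zero] at e2
  rw [e, card_EV, ← e2]

/-- the upper bounds -/
theorem upperK {s k : 𝓞 F} (ha : a = s ^ 2 + 4 * k) (hc : c ≠ 0) (hD : a ^ 2 - 64 * c ≠ 0)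
    (ha2 : ∀ v : HeightOneSpectrum (𝓞 F), (2 : 𝓞 F) ∈ v.asIdeal → a ∉ v.asIdeal) :
    (Finite (Zc (cv a c)) ∧ Nat.card (Zc (cv a c)) ≤
      2 ^ (Nat.card {v : HeightOneSpectrum (𝓞 F) | (a ^ 2 - 64 * c : 𝓞 F) ∈ v.asIdeal} +
        Nat.card {v : HeightOneSpectrum (𝓞 F) | c ∈ v.asIdeal}) *
      (Nat.card (((V0 F) ⊓ PI a c).map (QuotientGroup.mk' (Sq F))) *
        Nat.card (((EV F) ⊓ PII a c).map (QuotientGroup.mk' (Sq F))))) ∧
    (Finite (Zc (wc (a : F) (16 * (c : F)))) ∧ Nat.card (Zc (wc (a : F) (16 * (c : F)))) ≤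
      2 ^ (Nat.card {v : HeightOneSpectrum (𝓞 F) | (a ^ 2 - 64 * c : 𝓞 F) ∈ v.asIdeal} +
        Nat.card {v : HeightOneSpectrum (𝓞 F) | c ∈ v.asIdeal}) *
      (Nat.card (((V0 F) ⊓ PI a c).map (QuotientGroup.mk' (Sq F))) *
        Nat.card (((EV F) ⊓ PII a c).map (QuotientGroup.mk' (Sq F))))) := by
  classical
  obtain ⟨hf1, -⟩ := card_V (a := a) (c := c)
  obtain ⟨hf2, -⟩ := card_S (a := a) (c := c)
  have hfD := finite_dvdK hD
  have hfC := finite_dvdK hc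
  have h2D : ∀ v ∈ hfD.toFinset, v.valuation F 2 = 1 := by
    intro v hv
    have hv' : (a ^ 2 - 64 * c : 𝓞 F) ∈ v.asIdeal := (Set.Finite.mem_toFinset hfD).1 hv
    apply val_two
    intro h2
    apply ha2 v h2
    have h3 : a ^ 2 ∈ v.asIdeal := by
      have e : a ^ 2 = (a ^ 2 - 64 * c) + 2 * (32 * c) := by ring
      rw [e]
      exact add_mem hv' (v.asIdeal.mul_mem_right _ h2)
    exact v.isPrime.mem_of_pow_mem 2 h3
  have hTD : hfD.toFinset.card =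
      Nat.card {v : HeightOneSpectrum (𝓞 F) | (a ^ 2 - 64 * c : 𝓞 F) ∈ v.asIdeal} := by
    rw [← Set.ncard_eq_toFinset_card _ hfD]
    rfl
  have hTC : hfC.toFinset.card =
      Nat.card {v : HeightOneSpectrum (𝓞 F) | c ∈ v.asIdeal} := by
    rw [← Set.ncard_eq_toFinset_card _ hfC]
    rfl
  obtain ⟨k1, k2⟩ := card_compare (F := F) (S := V0 F ⊓ PI a c)
    (S' := V0T F hfD.toFinset ⊓ PI a c)
    (fun b hb => ⟨fun v _ => hb.1 v, hb.2⟩) hfD.toFinset (fun v b => par v b = 0) (by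
      rintro b ⟨hb, hbp⟩ b' ⟨hb', hbp'⟩ hp
      refine ⟨fun v => ?_, (PI a c).mul_mem ((PI a c).inv_mem hbp) hbp'⟩
      by_cases hv : v ∈ hfD.toFinset
      · exact unrC_of_par (h2D v hv) (par_mul_inv (hp v hv))
      · exact (V0T F hfD.toFinset).mul_mem ((V0T F hfD.toFinset).inv_mem hb) hb' v hv) hf1
  obtain ⟨k3, k4⟩ := card_compare (F := F) (S := EV F ⊓ PII a c)
    (S' := ET F hfC.toFinset ⊓ PII a c)
    (fun b hb => ⟨fun v _ => hb.1 v, hb.2⟩) hfC.toFinset (fun v b => par v b = 0) (by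
      rintro b ⟨hb, hbp⟩ b' ⟨hb', hbp'⟩ hp
      refine ⟨fun v => ?_, (PII a c).mul_mem ((PII a c).inv_mem hbp) hbp'⟩
      by_cases hv : v ∈ hfC.toFinset
      · exact par_mul_inv (hp v hv)
      · exact (ET F hfC.toFinset).mul_mem ((ET F hfC.toFinset).inv_mem hb) hb' v hv) hf2
  rw [hTD] at k2
  rw [hTC] at k4
  -- the conditions
  have c1 : ∀ b : Fˣ, LL2 (a : F) (16 * (c : F)) (b : F) →
      (b : Fˣ ⧸ Sq F) ∈ (V0T F hfD.toFinset ⊓ PI a c).map (QuotientGroup.mk' (Sq F)) := by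
    intro b hL
    refine ⟨b, ⟨fun v hv => unr_K ha hL v fun h => ?_, posI_K hD hL⟩, rfl⟩
    exact hv ((Set.Finite.mem_toFinset _).2 h)
  have c2 : ∀ b : Fˣ, LL1 (a : F) (16 * (c : F)) (b : F) →
      (b : Fˣ ⧸ Sq F) ∈ (ET F hfC.toFinset ⊓ PII a c).map (QuotientGroup.mk' (Sq F)) := by
    intro b hL
    refine ⟨b, ⟨fun v hv => par_K ha hL v fun h => ?_, posII_K hc hD hL⟩, rfl⟩
    exact hv ((Set.Finite.mem_toFinset _).2 h)
  have e0 : (a : F) ^ 2 - 64 * (c : F) = (a : F) ^ 2 - 4 * (16 * (c : F)) := by ring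
  have hmul : Nat.card ((V0T F hfD.toFinset ⊓ PI a c).map (QuotientGroup.mk' (Sq F))) *
      Nat.card ((ET F hfC.toFinset ⊓ PII a c).map (QuotientGroup.mk' (Sq F))) ≤
      2 ^ (Nat.card {v : HeightOneSpectrum (𝓞 F) | (a ^ 2 - 64 * c : 𝓞 F) ∈ v.asIdeal} +
        Nat.card {v : HeightOneSpectrum (𝓞 F) | c ∈ v.asIdeal}) *
      (Nat.card (((V0 F) ⊓ PI a c).map (QuotientGroup.mk' (Sq F))) *
        Nat.card (((EV F) ⊓ PII a c).map (QuotientGroup.mk' (Sq F)))) := by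
    refine (Nat.mul_le_mul k2 k4).trans (le_of_eq ?_)
    rw [pow_add]
    ring
  constructor
  · obtain ⟨h1, h2⟩ := Zc_card (isT_cv hc hD)
      (U := ((V0T F hfD.toFinset ⊓ PI a c).map (QuotientGroup.mk' (Sq F)) : Set (Fˣ ⧸ Sq F)))
      (V := ((ET F hfC.toFinset ⊓ PII a c).map (QuotientGroup.mk' (Sq F)) : Set (Fˣ ⧸ Sq F)))
      (one_mem _) (fun b hL => c1 b (LL1_dual (by rw [e0] at hL; exact hL)))
      (fun b hL => c2 b (LL2_dual (by rw [e0] at hL; exact hL)))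
    exact ⟨h1, h2.trans hmul⟩
  · obtain ⟨h1, h2⟩ := Zc_card (isT_dual hc hD)
      (U := ((ET F hfC.toFinset ⊓ PII a c).map (QuotientGroup.mk' (Sq F)) : Set (Fˣ ⧸ Sq F)))
      (V := ((V0T F hfD.toFinset ⊓ PI a c).map (QuotientGroup.mk' (Sq F)) : Set (Fˣ ⧸ Sq F)))
      (one_mem _) c2 c1
    exact ⟨h1, h2.trans ((le_of_eq (mul_comm _ _)).trans hmul)⟩

/-- the lower bound -/
theorem lowerK {s k : 𝓞 F} (ha : a = s ^ 2 + 4 * k) (hc : c ≠ 0) (hD : a ^ 2 - 64 * c ≠ 0)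
    (ha2 : ∀ v : HeightOneSpectrum (𝓞 F), (2 : 𝓞 F) ∈ v.asIdeal → a ∉ v.asIdeal)
    [Finite (Zc (cv a c))] :
    Nat.card (((EV F) ⊓ PII a c).map (QuotientGroup.mk' (Sq F))) ≤
      2 ^ (Nat.card {v : HeightOneSpectrum (𝓞 F) | (a ^ 2 - 64 * c : 𝓞 F) ∈ v.asIdeal}) *
        Nat.card (Zc (cv a c)) := by
  classical
  obtain ⟨hf2, -⟩ := card_S (a := a) (c := c)
  have hfD := finite_dvdK hD
  have h2D : ∀ v ∈ hfD.toFinset, (2 : 𝓞 F) ∉ v.asIdeal := by
    intro v hv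
    have hv' : (a ^ 2 - 64 * c : 𝓞 F) ∈ v.asIdeal := (Set.Finite.mem_toFinset hfD).1 hv
    intro h2
    apply ha2 v h2
    have h3 : a ^ 2 ∈ v.asIdeal := by
      have e : a ^ 2 = (a ^ 2 - 64 * c) + 2 * (32 * c) := by ring
      rw [e]
      exact add_mem hv' (v.asIdeal.mul_mem_right _ h2)
    exact v.isPrime.mem_of_pow_mem 2 h3
  have hTD : hfD.toFinset.card =
      Nat.card {v : HeightOneSpectrum (𝓞 F) | (a ^ 2 - 64 * c : 𝓞 F) ∈ v.asIdeal} := by
    rw [← Set.ncard_eq_toFinset_card _ hfD]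
    rfl
  have hfl : Finite ((Low (EV F ⊓ PII a c) hfD.toFinset).map (QuotientGroup.mk' (Sq F))) := by
    have hle : (Low (EV F ⊓ PII a c) hfD.toFinset).map (QuotientGroup.mk' (Sq F)) ≤
      (EV F ⊓ PII a c).map (QuotientGroup.mk' (Sq F)) := Subgroup.map_mono fun b hb => hb.1
    exact Finite.of_injective _ (Subgroup.inclusion_injective hle)
  obtain ⟨-, k5⟩ := card_compare (F := F) (S := Low (EV F ⊓ PII a c) hfD.toFinset)
    (S' := EV F ⊓ PII a c) (fun b hb => hb.1) hfD.toFinset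
    (fun v b => ∃ z : v.adicCompletion F, z ^ 2 = algebraMap F _ (b : F)) (by
      rintro b hb b' hb' hp
      exact ⟨mul_mem (inv_mem hb) hb', fun v hv =>
        sq_mul_loc (h2D v hv) hb.1 hb'.1 (hp v hv)⟩) hfl
  rw [hTD] at k5
  refine k5.trans (Nat.mul_le_mul_left _ ?_)
  refine card_le_Zc (isT_cv hc hD) fun b hb => ?_
  exact sha_Q ha ha2 hc hb.1.1 hb.1.2 fun v hv => hb.2 v ((Set.Finite.mem_toFinset _).2 hv)

/-- **the two bounds** -/
theorem mainK {s k : 𝓞 F} (ha : a = s ^ 2 + 4 * k) (hc : c ≠ 0) (hD : a ^ 2 - 64 * c ≠ 0)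
    (ha2 : ∀ v : HeightOneSpectrum (𝓞 F), (2 : 𝓞 F) ∈ v.asIdeal → a ∉ v.asIdeal) {t s' : ℕ}
    (ht : t = Nat.card {v : HeightOneSpectrum (𝓞 F) | (a ^ 2 - 64 * c : 𝓞 F) ∈ v.asIdeal})
    (hs' : s' = Nat.card {v : HeightOneSpectrum (𝓞 F) | c ∈ v.asIdeal}) :
    Finite {x : Pool.Agent.TH841.NF.D.Sha (cv a c) // 2 • x = 0} ∧
    Finite {x : Pool.Agent.TH841.NF.D.Sha (wc (a : F) (16 * (c : F))) // 2 • x = 0} ∧
    2 ^ (rI a c + InfinitePlace.nrComplexPlaces F) *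
      Nat.card {g : ClassGroup (𝓞 F) // g ^ 2 = 1} ≤
      2 ^ (Pool.Agent.TH841.NF.D.rk (cv a c) + 2 + t) *
        Nat.card {x : Pool.Agent.TH841.NF.D.Sha (cv a c) // 2 • x = 0} ∧
    2 ^ (Pool.Agent.TH841.NF.D.rk (cv a c) + 2) *
        Nat.card {x : Pool.Agent.TH841.NF.D.Sha (cv a c) // 2 • x = 0} ≤
      2 ^ (rI a c + InfinitePlace.nrComplexPlaces F + t + s') *
        Nat.card {g : NCl F // g ^ 2 = 1} ^ 2 ∧
    2 ^ (Pool.Agent.TH841.NF.D.rk (wc (a : F) (16 * (c : F))) + 2) *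
        Nat.card {x : Pool.Agent.TH841.NF.D.Sha (wc (a : F) (16 * (c : F))) // 2 • x = 0} ≤
      2 ^ (rI a c + InfinitePlace.nrComplexPlaces F + t + s') *
        Nat.card {g : NCl F // g ^ 2 = 1} ^ 2 ∧
    ((∀ φ : F →+* ℝ, TI a c φ) →
      2 ^ (Pool.Agent.TH841.NF.D.rk (cv a c) + 2) *
          Nat.card {x : Pool.Agent.TH841.NF.D.Sha (cv a c) // 2 • x = 0} ≤
        2 ^ (rI a c + InfinitePlace.nrComplexPlaces F + t + s') *
          Nat.card {g : ClassGroup (𝓞 F) // g ^ 2 = 1} ^ 2 ∧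
      2 ^ (Pool.Agent.TH841.NF.D.rk (wc (a : F) (16 * (c : F))) + 2) *
          Nat.card {x : Pool.Agent.TH841.NF.D.Sha (wc (a : F) (16 * (c : F))) // 2 • x = 0} ≤
        2 ^ (rI a c + InfinitePlace.nrComplexPlaces F + t + s') *
          Nat.card {g : ClassGroup (𝓞 F) // g ^ 2 = 1} ^ 2) := by
  obtain ⟨⟨hZ, hZu⟩, ⟨hZ', hZu'⟩⟩ := upperK ha hc hD ha2
  have hlow := lowerK ha hc hD ha2
  rw [← ht] at hlow
  rw [← ht, ← hs'] at hZu hZu'
  obtain ⟨f1, l1⟩ := Zc_lower (isT_cv hc hD)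
  have u1 := Zc_upper (isT_cv hc hD)
  obtain ⟨f2, l2⟩ := Zc_lower (isT_dual hc hD)
  obtain ⟨-, s1, s2⟩ := card_S (a := a) (c := c)
  obtain ⟨-, v1⟩ := card_V (a := a) (c := c)
  rw [card_tw_Cw] at s1
  have e4 : ∀ r n : ℕ, 2 ^ (r + 2) * n = 4 * 2 ^ r * n := by
    intro r n
    rw [pow_add]; ring
  rw [e4, e4]
  have b1 : Nat.card (((V0 F) ⊓ PI a c).map (QuotientGroup.mk' (Sq F))) *
      Nat.card (((EV F) ⊓ PII a c).map (QuotientGroup.mk' (Sq F))) ≤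
      2 ^ (rI a c + InfinitePlace.nrComplexPlaces F) * Nat.card {g : NCl F // g ^ 2 = 1} ^ 2 := by
    refine (Nat.mul_le_mul v1 s2).trans (le_of_eq ?_)
    rw [sq]
    change Nat.card (tw (NCl F)) * (_ * Nat.card (tw (NCl F))) =
      _ * (Nat.card (tw (NCl F)) * Nat.card (tw (NCl F)))
    ring
  have e5 : ∀ n : ℕ, 2 ^ (rI a c + InfinitePlace.nrComplexPlaces F + t + s') * n =
      2 ^ (t + s') * (2 ^ (rI a c + InfinitePlace.nrComplexPlaces F) * n) := by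
    intro n
    rw [← mul_assoc, ← pow_add]
    congr 2
    ring
  refine ⟨f1, f2, ?_, ?_, ?_, fun hI => ?_⟩
  · calc 2 ^ (rI a c + InfinitePlace.nrComplexPlaces F) *
        Nat.card {g : ClassGroup (𝓞 F) // g ^ 2 = 1}
        ≤ Nat.card (((EV F) ⊓ PII a c).map (QuotientGroup.mk' (Sq F))) := s1
      _ ≤ 2 ^ t * Nat.card (Zc (cv a c)) := hlow
      _ ≤ 2 ^ t * (4 * 2 ^ (Pool.Agent.TH841.NF.D.rk (cv a c)) *
        Nat.card {x : Pool.Agent.TH841.NF.D.Sha (cv a c) // 2 • x = 0}) :=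
        Nat.mul_le_mul_left _ u1
      _ = _ := by
        rw [pow_add, pow_add]
        ring
  · rw [e5]
    exact l1.trans (hZu.trans (Nat.mul_le_mul_left _ b1))
  · rw [e5]
    exact l2.trans (hZu'.trans (Nat.mul_le_mul_left _ b1))
  · have v3 := card_V' (a := a) (c := c) hI
    have s3 := card_S' (a := a) (c := c) hI
    rw [card_tw_Cw] at v3 s3
    have b3 : Nat.card (((V0 F) ⊓ PI a c).map (QuotientGroup.mk' (Sq F))) *
        Nat.card (((EV F) ⊓ PII a c).map (QuotientGroup.mk' (Sq F))) ≤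
        2 ^ (rI a c + InfinitePlace.nrComplexPlaces F) *
          Nat.card {g : ClassGroup (𝓞 F) // g ^ 2 = 1} ^ 2 := by
      refine (Nat.mul_le_mul v3 s3.le).trans (le_of_eq ?_)
      rw [sq]
      ring
    rw [e5]
    exact ⟨l1.trans (hZu.trans (Nat.mul_le_mul_left _ b3)),
      l2.trans (hZu'.trans (Nat.mul_le_mul_left _ b3))⟩

end

end Pool.Agent.N922.Q
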